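import Mathlib

/-!
# Runs of totatives: the inclusion-exclusion sums
-/

set_option autoImplicit false

namespace Pool.Agent.H38.TO

open Finset

/-- The probability that `k` given elements survive and `N` given elements do not, if the classes modulo the primes of `S`
are removed. -/
noncomputable def Qf (S : Finset ℕ) (k N : ℕ) : ℝ :=
  ∑ r ∈ range (N + 1), (-1 : ℝ) ^ r * (N.choose r) * ∏ p ∈ S, (1 - ((k + r : ℕ) : ℝ) / p)

theorem Qf_empty (k N : ℕ) : Qf ∅ k N = if N = 0 then 1 else 0 := by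
  unfold Qf
  have h : ∑ r ∈ range (N + 1), (-1 : ℝ) ^ r * (N.choose r) * ∏ p ∈ (∅ : Finset ℕ), (1 - ((k + r : ℕ) : ℝ) / p) =
      ((-1 : ℝ) + 1) ^ N := by
    rw [add_pow]
    refine sum_congr rfl fun r _ => ?_
    rw [prod_empty, one_pow]
    ring
  rw [h, neg_add_cancel]
  split_ifs with h0
  · rw [h0, pow_zero]
  · rw [zero_pow h0]

theorem Qf_insert {S : Finset ℕ} {p : ℕ} (hp : p ∉ S) (hp0 : 0 < p) (k N : ℕ) :
    Qf (insert p S) k N = (1 - ((k + N : ℕ) : ℝ) / p) * Qf S k N + (N : ℝ) / p * Qf S k (N - 1) := by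
  have hp' : (0 : ℝ) < p := by exact_mod_cast hp0
  cases N with
  | zero =>
    unfold Qf
    simp [prod_insert hp]
  | succ N =>
    rw [Nat.add_sub_cancel]
    unfold Qf
    rw [mul_sum, mul_sum]
    have h1 : ∑ r ∈ range (N + 1), ((N + 1 : ℕ) : ℝ) / p * ((-1 : ℝ) ^ r * (N.choose r) * ∏ p ∈ S, (1 - ((k + r : ℕ) : ℝ) / p)) =
        ∑ r ∈ range (N + 1 + 1), ((N + 1 : ℕ) : ℝ) / p * ((-1 : ℝ) ^ r * (N.choose r) * ∏ p ∈ S, (1 - ((k + r : ℕ) : ℝ) / p)) := by
      rw [Finset.sum_range_succ _ (N + 1), Nat.choose_succ_self]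
      simp
    rw [h1, ← sum_add_distrib]
    refine sum_congr rfl fun r hr => ?_
    rw [mem_range] at hr
    rw [prod_insert hp]
    have h2 : (N.choose r : ℝ) * ((N : ℝ) + 1) = ((N + 1).choose r : ℝ) * ((N : ℝ) + 1 - r) := by
      have h3 := Nat.choose_mul_succ_eq N r
      have h4 : ((N.choose r * (N + 1) : ℕ) : ℝ) = (((N + 1).choose r * (N + 1 - r) : ℕ) : ℝ) := by rw [h3]
      rw [Nat.cast_mul, Nat.cast_mul, Nat.cast_sub (by omega)] at h4
      push_cast at h4
      exact h4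
    obtain ⟨G, hG⟩ : ∃ G, G = ∏ p ∈ S, (1 - ((k + r : ℕ) : ℝ) / p) := ⟨_, rfl⟩
    rw [← hG]
    push_cast
    have h3 : (1 - ((k : ℝ) + r) / p) = (1 - ((k : ℝ) + (N + 1)) / p) + ((N : ℝ) + 1 - r) / p := by
      field_simp
      ring
    rw [h3]
    have h4 : (-1 : ℝ) ^ r * ((N + 1).choose r : ℝ) * (((1 - ((k : ℝ) + (N + 1)) / p) + ((N : ℝ) + 1 - r) / p) * G) =
        (1 - ((k : ℝ) + (N + 1)) / p) * ((-1) ^ r * ((N + 1).choose r : ℝ) * G) +
          (-1) ^ r * (((N + 1).choose r : ℝ) * ((N : ℝ) + 1 - r)) / p * G := by ring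
    rw [h4, ← h2]
    ring

theorem Qf_nonneg {S : Finset ℕ} {k N : ℕ} (hS : ∀ p ∈ S, k + N ≤ p ∧ 0 < p) : 0 ≤ Qf S k N := by
  classical
  induction S using Finset.induction_on generalizing N with
  | empty =>
    rw [Qf_empty]
    split_ifs <;> norm_num
  | insert p S hp ih =>
    have hp1 := hS p (mem_insert_self _ _)
    have hp' : (0 : ℝ) < p := by exact_mod_cast hp1.2
    rw [Qf_insert hp hp1.2]
    have h1 : 0 ≤ 1 - ((k + N : ℕ) : ℝ) / p := by
      rw [sub_nonneg, div_le_one hp']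
      exact_mod_cast hp1.1
    have h2 := ih (N := N) fun q hq => hS q (mem_insert_of_mem hq)
    have h3 := ih (N := N - 1) fun q hq => ⟨by have := (hS q (mem_insert_of_mem hq)).1; omega, (hS q (mem_insert_of_mem hq)).2⟩
    have h4 : (0 : ℝ) ≤ (N : ℝ) / p := by positivity
    have := mul_nonneg h1 h2
    have := mul_nonneg h4 h3
    linarith

theorem Qf_anti_one {S : Finset ℕ} {k N : ℕ} (hS : ∀ p ∈ S, k + N + 1 ≤ p ∧ 0 < p) : Qf S k (N + 1) ≤ Qf S k N := by
  classical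
  induction S using Finset.induction_on generalizing N with
  | empty =>
    rw [Qf_empty, Qf_empty, if_neg (Nat.succ_ne_zero N)]
    split_ifs <;> norm_num
  | insert p S hp ih =>
    have hp1 := hS p (mem_insert_self _ _)
    have hp' : (0 : ℝ) < p := by exact_mod_cast hp1.2
    rw [Qf_insert hp hp1.2, Qf_insert hp hp1.2, Nat.add_sub_cancel]
    have h1 : 0 ≤ 1 - ((k + N + 1 : ℕ) : ℝ) / p := by
      rw [sub_nonneg, div_le_one hp']
      exact_mod_cast hp1.1
    have h2 := ih (N := N) fun q hq => hS q (mem_insert_of_mem hq)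
    have h3 : (N : ℝ) / p * (Qf S k (N - 1) - Qf S k N) ≥ 0 := by
      rcases Nat.eq_zero_or_pos N with h0 | h0
      · rw [h0]
        simp
      · have h4 := ih (N := N - 1) fun q hq => ⟨by have := (hS q (mem_insert_of_mem hq)).1; omega, (hS q (mem_insert_of_mem hq)).2⟩
        rw [Nat.sub_add_cancel h0] at h4
        have : (0 : ℝ) ≤ (N : ℝ) / p := by positivity
        exact mul_nonneg this (by linarith)
    have h4 := mul_nonneg h1 (show 0 ≤ Qf S k N - Qf S k (N + 1) by linarith)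
    push_cast at h4 h3 ⊢
    have h5 : (1 - ((k : ℝ) + N) / p) = (1 - ((k : ℝ) + N + 1) / p) + 1 / p := by
      field_simp
      ring
    have h6 : ((N : ℝ) + 1) / p = (N : ℝ) / p + 1 / p := by ring
    have h7 : (1 - ((k : ℝ) + (N + 1)) / p) = (1 - ((k : ℝ) + N + 1) / p) := by ring
    rw [h5, h6, h7]
    nlinarith

theorem Qf_anti {S : Finset ℕ} {k N M : ℕ} (hNM : N ≤ M) (hS : ∀ p ∈ S, k + M ≤ p ∧ 0 < p) : Qf S k M ≤ Qf S k N := by
  induction M, hNM using Nat.le_induction with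
  | base => exact le_rfl
  | succ M hM ih =>
    exact (Qf_anti_one (N := M) fun p hp => hS p hp).trans (ih fun p hp => ⟨by have := (hS p hp).1; omega, (hS p hp).2⟩)

/-- the density -/
noncomputable def th (S : Finset ℕ) : ℝ := ∏ p ∈ S, (1 - 1 / (p : ℝ))

theorem th_pos {S : Finset ℕ} (hS : ∀ p ∈ S, 2 ≤ p) : 0 < th S := by
  refine prod_pos fun p hp => ?_
  have h : (2 : ℝ) ≤ p := by exact_mod_cast hS p hp
  rw [sub_pos, div_lt_one (by linarith)]
  linarith

theorem th_le_one {S : Finset ℕ} (hS : ∀ p ∈ S, 2 ≤ p) : th S ≤ 1 := by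
  refine prod_le_one (fun p hp => ?_) (fun p hp => ?_)
  · have h : (2 : ℝ) ≤ p := by exact_mod_cast hS p hp
    rw [sub_nonneg, div_le_one (by linarith)]
    linarith
  · have h : (2 : ℝ) ≤ p := by exact_mod_cast hS p hp
    have : 0 ≤ 1 / (p : ℝ) := by positivity
    linarith

theorem one_sub_sum_le (S : Finset ℕ) {f : ℕ → ℝ} (h0 : ∀ p ∈ S, 0 ≤ f p) (h1 : ∀ p ∈ S, f p ≤ 1) :
    1 - ∑ p ∈ S, f p ≤ ∏ p ∈ S, (1 - f p) := by
  classical
  induction S using Finset.induction_on with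
  | empty => simp
  | insert p S hp ih =>
    rw [sum_insert hp, prod_insert hp]
    have h2 := ih (fun q hq => h0 q (mem_insert_of_mem hq)) (fun q hq => h1 q (mem_insert_of_mem hq))
    have h3 := h0 p (mem_insert_self _ _)
    have h4 := h1 p (mem_insert_self _ _)
    have h5 : 0 ≤ ∑ p ∈ S, f p := sum_nonneg fun q hq => h0 q (mem_insert_of_mem hq)
    have h6 := mul_le_mul_of_nonneg_left h2 (show 0 ≤ 1 - f p by linarith)
    nlinarith

/-- the sum of the squares of the reciprocals -/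
theorem sum_sq {S : Finset ℕ} {w : ℕ} (hw : 2 ≤ w) (hS : ∀ p ∈ S, w ≤ p) : ∑ p ∈ S, 1 / (p : ℝ) ^ 2 ≤ 2 / (w : ℝ) := by
  classical
  have hw' : (2 : ℝ) ≤ w := by exact_mod_cast hw
  obtain ⟨M, hM⟩ : ∃ M, ∀ p ∈ S, p < M := ⟨S.sup id + 1, fun p hp => Nat.lt_succ_of_le (le_sup (f := id) hp)⟩
  have h1 : ∑ p ∈ S, 1 / (p : ℝ) ^ 2 ≤ ∑ p ∈ Ico w (max M w), 1 / (p : ℝ) ^ 2 := by
    refine sum_le_sum_of_subset_of_nonneg ?_ (fun _ _ _ => by positivity)
    intro p hp
    rw [mem_Ico]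
    exact ⟨hS p hp, lt_of_lt_of_le (hM p hp) (le_max_left _ _)⟩
  have h2 : ∀ m : ℕ, w ≤ m → ∑ p ∈ Ico w m, 1 / (p : ℝ) ^ 2 ≤ 1 / ((w : ℝ) - 1) - 1 / ((m : ℝ) - 1) := by
    intro m hm
    induction m, hm using Nat.le_induction with
    | base => simp
    | succ m hm ih =>
      rw [Finset.sum_Ico_succ_top hm]
      have hm' : (2 : ℝ) ≤ m := by
        have : 2 ≤ m := by omega
        exact_mod_cast this
      have e1 : 1 / (m : ℝ) ^ 2 ≤ 1 / ((m : ℝ) - 1) - 1 / (((m + 1 : ℕ) : ℝ) - 1) := by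
        push_cast
        have e2 : 1 / ((m : ℝ) - 1) - 1 / ((m : ℝ) + 1 - 1) = 1 / (((m : ℝ) - 1) * m) := by
          have h7 : (m : ℝ) - 1 ≠ 0 := by linarith
          have h8 : (m : ℝ) ≠ 0 := by linarith
          rw [add_sub_cancel_right]
          field_simp
          ring
        rw [e2]
        apply one_div_le_one_div_of_le
        · nlinarith
        · nlinarith
      linarith
  have h3 := h2 (max M w) (le_max_right _ _)
  have h4 : 0 ≤ 1 / (((max M w : ℕ) : ℝ) - 1) := by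
    have : (w : ℝ) ≤ ((max M w : ℕ) : ℝ) := by exact_mod_cast le_max_right M w
    have : (0 : ℝ) ≤ ((max M w : ℕ) : ℝ) - 1 := by linarith
    positivity
  have h5 : 1 / ((w : ℝ) - 1) ≤ 2 / w := by
    rw [div_le_div_iff₀ (by linarith) (by linarith)]
    linarith
  linarith

/-- the products -/
theorem G_bound {S : Finset ℕ} {w m : ℕ} (hw : 2 ≤ w) (hS : ∀ p ∈ S, w ≤ p) (hm : m ≤ w) :
    th S ^ m * (1 - 2 * (m : ℝ) ^ 2 / w) ≤ ∏ p ∈ S, (1 - (m : ℝ) / p) ∧ ∏ p ∈ S, (1 - (m : ℝ) / p) ≤ th S ^ m := by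
  have hw' : (2 : ℝ) ≤ w := by exact_mod_cast hw
  have hp : ∀ p ∈ S, (w : ℝ) ≤ p := fun p hp => by exact_mod_cast hS p hp
  have hm' : (m : ℝ) ≤ w := by exact_mod_cast hm
  have ht : ∀ p ∈ S, 0 ≤ (m : ℝ) / p ∧ (m : ℝ) / p ≤ 1 := fun p hp' => by
    have := hp p hp'
    exact ⟨by positivity, by rw [div_le_one (by linarith)]; linarith⟩
  unfold th
  rw [← prod_pow]
  constructor
  · have h1 : ∏ p ∈ S, ((1 - 1 / (p : ℝ)) ^ m * (1 - ((m : ℝ) / p) ^ 2)) ≤ ∏ p ∈ S, (1 - (m : ℝ) / p) := by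
      refine prod_le_prod (fun p hp' => ?_) (fun p hp' => ?_)
      · have e1 := ht p hp'
        have e2 := hp p hp'
        have e3 : 0 ≤ 1 - 1 / (p : ℝ) := by
          rw [sub_nonneg, div_le_one (by linarith)]
          linarith
        have e4 : 0 ≤ 1 - ((m : ℝ) / p) ^ 2 := by nlinarith
        positivity
      · obtain ⟨t, ht'⟩ : ∃ t, t = (m : ℝ) / p := ⟨_, rfl⟩
        have e1 := ht p hp'
        have e2 := hp p hp'
        have hp0 : (0 : ℝ) < p := by linarith
        rw [← ht'] at e1 ⊢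
        have e3 : 0 ≤ 1 - 1 / (p : ℝ) := by
          rw [sub_nonneg, div_le_one (by linarith)]
          linarith
        have e4 : (1 - 1 / (p : ℝ)) ^ m ≤ Real.exp (-t) := by
          have e5 := Real.one_sub_le_exp_neg (1 / (p : ℝ))
          have e6 := pow_le_pow_left₀ e3 e5 m
          rw [← Real.exp_nat_mul] at e6
          refine e6.trans (le_of_eq ?_)
          congr 1
          rw [ht']
          ring
        have e5 : 0 ≤ 1 - t ^ 2 := by nlinarith [e1.1, e1.2]
        have e6 := mul_le_mul_of_nonneg_right e4 e5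
        have e7 : Real.exp (-t) * (1 + t) ≤ 1 := by
          have := Real.add_one_le_exp t
          calc Real.exp (-t) * (1 + t) ≤ Real.exp (-t) * Real.exp t := mul_le_mul_of_nonneg_left (by linarith) (Real.exp_pos _).le
            _ = 1 := by rw [← Real.exp_add, neg_add_cancel, Real.exp_zero]
        have e8 : Real.exp (-t) * (1 - t ^ 2) = (1 - t) * (Real.exp (-t) * (1 + t)) := by ring
        have e9 := mul_le_mul_of_nonneg_left e7 (show 0 ≤ 1 - t by linarith)
        linarith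
    refine le_trans ?_ h1
    rw [prod_mul_distrib]
    refine mul_le_mul_of_nonneg_left ?_ (prod_nonneg fun p hp' => ?_)
    · refine le_trans ?_ (one_sub_sum_le S (f := fun p => ((m : ℝ) / p) ^ 2) (fun p hp' => by positivity) (fun p hp' => ?_))
      · have e1 : ∑ p ∈ S, ((m : ℝ) / p) ^ 2 = (m : ℝ) ^ 2 * ∑ p ∈ S, 1 / (p : ℝ) ^ 2 := by
          rw [mul_sum]
          refine sum_congr rfl fun p _ => ?_
          rw [div_pow]
          ring
        rw [e1]
        have e2 := mul_le_mul_of_nonneg_left (sum_sq hw hS) (sq_nonneg (m : ℝ))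
        have e3 : (m : ℝ) ^ 2 * (2 / w) = 2 * (m : ℝ) ^ 2 / w := by ring
        linarith
      · have := ht p hp'
        nlinarith
    · have e2 := hp p hp'
      have e3 : 0 ≤ 1 - 1 / (p : ℝ) := by
        rw [sub_nonneg, div_le_one (by linarith)]
        linarith
      positivity
  · refine prod_le_prod (fun p hp' => ?_) (fun p hp' => ?_)
    · have := (ht p hp').2
      linarith
    · have e2 := hp p hp'
      have e3 : -2 ≤ -(1 / (p : ℝ)) := by
        have : 1 / (p : ℝ) ≤ 1 := by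
          rw [div_le_one (by linarith)]
          linarith
        linarith
      have e4 := one_add_mul_le_pow e3 m
      calc 1 - (m : ℝ) / p = 1 + m * -(1 / (p : ℝ)) := by ring
        _ ≤ (1 + -(1 / (p : ℝ))) ^ m := e4
        _ = _ := by rw [← sub_eq_add_neg]

/-- **The inclusion-exclusion sum.** -/
theorem Qf_near {S : Finset ℕ} {w k N : ℕ} (hw : 2 ≤ w) (hS : ∀ p ∈ S, w ≤ p) (hkN : k + N ≤ w) :
    |Qf S k N - th S ^ k * (1 - th S) ^ N| ≤ th S ^ k * (2 * ((k : ℝ) + N) ^ 2 / w * (1 + th S) ^ N) := by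
  have hw' : (2 : ℝ) ≤ w := by exact_mod_cast hw
  have hth := th_pos (S := S) fun p hp => by have := hS p hp; omega
  have h1 : th S ^ k * (1 - th S) ^ N = ∑ r ∈ range (N + 1), (-1 : ℝ) ^ r * (N.choose r) * th S ^ (k + r) := by
    have e1 : 1 - th S = -th S + 1 := by ring
    rw [e1, add_pow, mul_sum]
    refine sum_congr rfl fun r _ => ?_
    rw [one_pow, neg_pow, pow_add]
    ring
  have h2 : th S ^ k * (2 * ((k : ℝ) + N) ^ 2 / w * (1 + th S) ^ N) =
      ∑ r ∈ range (N + 1), (N.choose r : ℝ) * (th S ^ (k + r) * (2 * ((k : ℝ) + N) ^ 2 / w)) := by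
    have e1 : 1 + th S = th S + 1 := by ring
    rw [e1, add_pow (th S) 1 N, mul_sum, mul_sum]
    refine sum_congr rfl fun r _ => ?_
    rw [one_pow, pow_add]
    ring
  rw [h1, h2]
  unfold Qf
  rw [← sum_sub_distrib]
  refine (abs_sum_le_sum_abs _ _).trans (sum_le_sum fun r hr => ?_)
  rw [mem_range] at hr
  rw [← mul_sub, abs_mul, abs_mul, abs_pow, abs_neg, abs_one, one_pow, one_mul, Nat.abs_cast]
  refine mul_le_mul_of_nonneg_left ?_ (Nat.cast_nonneg _)
  obtain ⟨g1, g2⟩ := G_bound hw hS (m := k + r) (by omega)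
  have e1 : 2 * ((k + r : ℕ) : ℝ) ^ 2 / w ≤ 2 * ((k : ℝ) + N) ^ 2 / w := by
    refine div_le_div_of_nonneg_right ?_ (by linarith)
    have e2 : ((k + r : ℕ) : ℝ) ≤ (k : ℝ) + N := by
      have : k + r ≤ k + N := by omega
      exact_mod_cast this
    have e3 := pow_le_pow_left₀ (Nat.cast_nonneg _) e2 2
    linarith
  have e2 : 0 ≤ th S ^ (k + r) := by positivity
  have e3 := mul_le_mul_of_nonneg_left e1 e2
  rw [abs_le]
  constructor
  · nlinarith
  · have e4 : 0 ≤ th S ^ (k + r) * (2 * ((k : ℝ) + N) ^ 2 / w) := by positivity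
    linarith

end Pool.Agent.H38.TO
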