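import Pool.Agent.H38.TO.A
import Pool.Agent.H38.TO.S8.Y151.HS.FLC

/-!
# Runs of rough integers: the fundamental lemma for tuples
-/

set_option autoImplicit false

namespace Pool.Agent.H38.TO

open Finset

/-- the primes of `[w, z)` -/
def Sp (w z : ℕ) : Finset ℕ := (Ico w z).filter Nat.Prime

theorem mem_Sp {w z p : ℕ} : p ∈ Sp w z ↔ w ≤ p ∧ p < z ∧ p.Prime := by
  unfold Sp
  rw [mem_filter, mem_Ico, and_assoc]

/-- the classes which are removed -/
theorem card_cls {E : Finset ℕ} {w p : ℕ} (hE : ∀ e ∈ E, e < w) (hwp : w ≤ p) (hp : 0 < p) :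
    ((range p).filter (fun c => ∃ e ∈ E, p ∣ c + e)).card = E.card := by
  classical
  have h1 : (range p).filter (fun c => ∃ e ∈ E, p ∣ c + e) = E.image (fun e => (p - e) % p) := by
    ext c
    rw [mem_filter, mem_range, mem_image]
    constructor
    · rintro ⟨hc, e, he, hd⟩
      refine ⟨e, he, ?_⟩
      have he' := hE e he
      obtain ⟨t, ht⟩ := hd
      have ht2 : t < 2 := by
        by_contra hcon
        have : p * 2 ≤ p * t := Nat.mul_le_mul_left _ (by omega)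
        omega
      interval_cases t
      · have hc0 : c = 0 := by omega
        have he0 : e = 0 := by omega
        rw [hc0, he0, Nat.sub_zero, Nat.mod_self]
      · have hc0 : p - e = c := by omega
        rw [hc0, Nat.mod_eq_of_lt hc]
    · rintro ⟨e, he, rfl⟩
      have he' := hE e he
      refine ⟨Nat.mod_lt _ hp, e, he, ?_⟩
      rcases Nat.eq_zero_or_pos e with h0 | h0
      · rw [h0, Nat.sub_zero, Nat.mod_self]
        exact dvd_zero _
      · rw [Nat.mod_eq_of_lt (by omega), Nat.sub_add_cancel (by omega)]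
  rw [h1, card_image_of_injOn]
  intro e he e' he' h
  rw [mem_coe] at he he'
  have h2 := hE e he
  have h3 := hE e' he'
  simp only at h
  rcases Nat.eq_zero_or_pos e with h0 | h0 <;> rcases Nat.eq_zero_or_pos e' with h0' | h0'
  · omega
  · rw [h0, Nat.sub_zero, Nat.mod_self, Nat.mod_eq_of_lt (by omega)] at h
    omega
  · rw [h0', Nat.sub_zero, Nat.mod_self, Nat.mod_eq_of_lt (by omega)] at h
    omega
  · rw [Nat.mod_eq_of_lt (by omega), Nat.mod_eq_of_lt (by omega)] at h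
    omega

theorem exists_J {z : ℕ} (hz : 2 ≤ z) : ∃ J : ℕ, z ≤ 2 ^ 2 ^ J ∧ 2 ^ 2 ^ J ≤ z ^ 2 := by
  have hex : ∃ J : ℕ, z ≤ 2 ^ 2 ^ J := by
    refine ⟨z, ?_⟩
    have h1 : z < 2 ^ z := Nat.lt_two_pow_self
    have h2 : 2 ^ z < 2 ^ 2 ^ z := Nat.pow_lt_pow_right (by norm_num) h1
    omega
  classical
  refine ⟨Nat.find hex, Nat.find_spec hex, ?_⟩
  rcases Nat.eq_zero_or_pos (Nat.find hex) with h0 | h0
  · rw [h0]
    have : 2 ^ 2 ^ 0 = 2 := by norm_num
    rw [this]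
    nlinarith
  · have h1 := Nat.find_min hex (show Nat.find hex - 1 < Nat.find hex by omega)
    obtain ⟨J, hJ⟩ : ∃ J, Nat.find hex = J + 1 := ⟨Nat.find hex - 1, by omega⟩
    rw [hJ, Nat.add_sub_cancel] at h1
    rw [hJ, pow_succ, pow_mul]
    exact Nat.pow_le_pow_left (by omega) 2

open Pool.Agent.Y843.HS in
/-- **The fundamental lemma for tuples.** -/
theorem flE : ∃ C : ℕ, 1 ≤ C ∧ ∀ κ b w z : ℕ, C * (κ + 1) ≤ b → C * (κ + 1) < w → w ≤ z → 2 ≤ z →
    ∀ E : Finset ℕ, (∀ e ∈ E, e < w) → E.card ≤ κ → ∀ D a A X : ℕ, 1 ≤ D → (∀ p : ℕ, p.Prime → w ≤ p → ¬ p ∣ D) →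
      |(((Ioc A (A + X)).filter (fun n => n % D = a % D ∧ ∀ e ∈ E, ∀ p ∈ Sp w z, ¬ p ∣ n + e)).card : ℝ) -
        (X : ℝ) / D * ∏ p ∈ Sp w z, (1 - (E.card : ℝ) / p)| ≤
      (1 / 2 : ℝ) ^ b * ((X : ℝ) / D * ∏ p ∈ Sp w z, (1 - (E.card : ℝ) / p)) + (z : ℝ) ^ (2 * C * b) := by
  classical
  obtain ⟨C, hC, hF⟩ := Pool.Agent.Y151.HS.flc
  refine ⟨C, hC, ?_⟩
  intro κ b w z hb hs hwz hz E hE hEκ D a A X hD hpD
  obtain ⟨J, hJ1, hJ2⟩ := exists_J hz
  obtain ⟨R, hR⟩ : ∃ R, R = 2 ^ 2 ^ J := ⟨_, rfl⟩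
  obtain ⟨Om, hOm⟩ : ∃ Om : ℕ → Finset ℕ, Om = fun p => if p < z then (range p).filter (fun c => ∃ e ∈ E, p ∣ c + e) else ∅ :=
    ⟨_, rfl⟩
  have hw1 : 1 ≤ w := by omega
  have hPr : ∀ p, p ∈ Pr (w - 1) R ↔ w ≤ p ∧ p ≤ R ∧ p.Prime := by
    intro p
    unfold Pr
    rw [mem_filter, mem_Ioc]
    constructor
    · rintro ⟨⟨h1, h2⟩, h3⟩
      exact ⟨by omega, h2, h3⟩
    · rintro ⟨h1, h2, h3⟩
      exact ⟨⟨by omega, h2⟩, h3⟩
  have hOc : ∀ p, w ≤ p → p < z → (Om p).card = E.card := by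
    intro p h1 h2
    rw [hOm]
    simp only [if_pos h2]
    exact card_cls hE h1 (by omega)
  have hSv : Sv κ (w - 1) R Om := by
    intro p hp
    rw [hPr] at hp
    by_cases hpz : p < z
    · refine ⟨by rw [hOc p hp.1 hpz]; exact hEκ, fun c hc => ?_⟩
      rw [hOm] at hc
      simp only [if_pos hpz] at hc
      exact mem_range.1 (mem_filter.1 hc).1
    · have h1 : Om p = ∅ := by
        rw [hOm]
        simp only [if_neg hpz]
      rw [h1]
      exact ⟨by simp, by simp⟩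
  have h := hF κ b (w - 1) J hb (by omega) Om (by rw [← hR]; exact hSv) D a A X hD (by
    intro p hp
    rw [← hR, hPr] at hp
    exact hpD p hp.2.2 hp.1)
  rw [← hR] at h
  have hprod : ∏ p ∈ Pr (w - 1) R, (1 - ((Om p).card : ℝ) / p) = ∏ p ∈ Sp w z, (1 - (E.card : ℝ) / p) := by
    have hsub : Sp w z ⊆ Pr (w - 1) R := by
      intro p hp
      rw [mem_Sp] at hp
      rw [hPr]
      exact ⟨hp.1, by omega, hp.2.2⟩
    rw [← prod_subset hsub]
    · refine prod_congr rfl fun p hp => ?_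
      rw [mem_Sp] at hp
      rw [hOc p hp.1 hp.2.1]
    · intro p hp hp'
      rw [hPr] at hp
      have hpz : ¬ p < z := fun hlt => hp' (mem_Sp.2 ⟨hp.1, hlt, hp.2.2⟩)
      have h1 : Om p = ∅ := by
        rw [hOm]
        simp only [if_neg hpz]
      rw [h1]
      simp
  have hset : (Ioc A (A + X)).filter (fun x => x % D = a % D ∧ ∀ p ∈ Pr (w - 1) R, x % p ∉ Om p) =
      (Ioc A (A + X)).filter (fun n => n % D = a % D ∧ ∀ e ∈ E, ∀ p ∈ Sp w z, ¬ p ∣ n + e) := by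
    refine filter_congr fun n _ => and_congr_right fun _ => ?_
    have key : ∀ p, w ≤ p → p < z → (n % p ∈ Om p ↔ ∃ e ∈ E, p ∣ n + e) := by
      intro p h1 h2
      rw [hOm]
      simp only [if_pos h2]
      rw [mem_filter, mem_range]
      constructor
      · rintro ⟨_, e, he, hd⟩
        refine ⟨e, he, ?_⟩
        have := (Nat.dvd_iff_mod_eq_zero).1 hd
        rw [Nat.mod_add_mod] at this
        exact Nat.dvd_of_mod_eq_zero this
      · rintro ⟨e, he, hd⟩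
        refine ⟨Nat.mod_lt _ (by omega), e, he, ?_⟩
        have := (Nat.dvd_iff_mod_eq_zero).1 hd
        refine Nat.dvd_of_mod_eq_zero ?_
        rw [Nat.mod_add_mod]
        exact this
    constructor
    · intro h1 e he p hp hd
      rw [mem_Sp] at hp
      exact h1 p ((hPr p).2 ⟨hp.1, by omega, hp.2.2⟩) ((key p hp.1 hp.2.1).2 ⟨e, he, hd⟩)
    · intro h1 p hp hmem
      rw [hPr] at hp
      by_cases hpz : p < z
      · obtain ⟨e, he, hd⟩ := (key p hp.1 hpz).1 hmem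
        exact h1 e he p (mem_Sp.2 ⟨hp.1, hpz, hp.2.2⟩) hd
      · have h2 : Om p = ∅ := by
          rw [hOm]
          simp only [if_neg hpz]
        rw [h2] at hmem
        simp at hmem
  rw [hprod] at h
  have h3 : |(((Ioc A (A + X)).filter (fun n => n % D = a % D ∧ ∀ e ∈ E, ∀ p ∈ Sp w z, ¬ p ∣ n + e)).card : ℝ) -
        (X : ℝ) / D * ∏ p ∈ Sp w z, (1 - (E.card : ℝ) / p)| ≤
      (1 / 2 : ℝ) ^ b * ((X : ℝ) / D * ∏ p ∈ Sp w z, (1 - (E.card : ℝ) / p)) + ((2 : ℝ) ^ 2 ^ J) ^ (C * b) := by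
    rw [← hset]
    convert h
  refine h3.trans (add_le_add_right ?_ _)
  have h2 : ((2 : ℝ) ^ 2 ^ J) ≤ (z : ℝ) ^ 2 := by exact_mod_cast hJ2
  calc ((2 : ℝ) ^ 2 ^ J) ^ (C * b) ≤ ((z : ℝ) ^ 2) ^ (C * b) := pow_le_pow_left₀ (by positivity) h2 _
    _ = (z : ℝ) ^ (2 * C * b) := by rw [← pow_mul]; congr 1; ring

end Pool.Agent.H38.TO
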