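import Pool.Agent.H38.TO.A

/-!
# Runs of rough integers: Bonferroni's inequalities
-/

set_option autoImplicit false

namespace Pool.Agent.H38.TO

open Finset

/-- Bonferroni's inequalities for independent events of the same probability. -/
theorem bonf_real {θ : ℝ} (h0 : 0 ≤ θ) (h1 : θ ≤ 1) (N R : ℕ) :
    |∑ r ∈ range R, (-1 : ℝ) ^ r * (N.choose r) * θ ^ r - (1 - θ) ^ N| ≤ (N.choose R) * θ ^ R := by
  induction N generalizing R with
  | zero =>
    rw [pow_zero]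
    cases R with
    | zero => simp
    | succ R =>
      rw [Finset.sum_range_succ']
      simp
  | succ N ih =>
    cases R with
    | zero =>
      rw [range_zero, sum_empty, zero_sub, abs_neg, Nat.choose_zero_right, pow_zero, Nat.cast_one, mul_one,
        abs_of_nonneg (pow_nonneg (by linarith) _)]
      exact pow_le_one₀ (by linarith) (by linarith)
    | succ R =>
      have h1 := ih (R + 1)
      have h2 := ih R
      have e1 : ∑ r ∈ range (R + 1), (-1 : ℝ) ^ r * ((N + 1).choose r) * θ ^ r =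
          ∑ r ∈ range (R + 1), (-1 : ℝ) ^ r * (N.choose r) * θ ^ r - θ * ∑ r ∈ range R, (-1 : ℝ) ^ r * (N.choose r) * θ ^ r := by
        rw [Finset.sum_range_succ', Finset.sum_range_succ' _ R, mul_sum]
        have e2 : ∑ r ∈ range R, (-1 : ℝ) ^ (r + 1) * ((N + 1).choose (r + 1)) * θ ^ (r + 1) =
            ∑ r ∈ range R, (-1 : ℝ) ^ (r + 1) * (N.choose (r + 1)) * θ ^ (r + 1) - ∑ r ∈ range R, θ * ((-1 : ℝ) ^ r * (N.choose r) * θ ^ r) := by
          rw [← sum_sub_distrib]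
          refine sum_congr rfl fun r _ => ?_
          rw [Nat.choose_succ_succ]
          push_cast
          ring
        rw [e2]
        simp
        ring
      have e2 : ((N + 1).choose (R + 1) : ℝ) * θ ^ (R + 1) = (N.choose (R + 1)) * θ ^ (R + 1) + θ * ((N.choose R) * θ ^ R) := by
        rw [Nat.choose_succ_succ]
        push_cast
        ring
      rw [e1, e2]
      have e3 : ∑ r ∈ range (R + 1), (-1 : ℝ) ^ r * (N.choose r) * θ ^ r - θ * ∑ r ∈ range R, (-1 : ℝ) ^ r * (N.choose r) * θ ^ r -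
          (1 - θ) ^ (N + 1) = (∑ r ∈ range (R + 1), (-1 : ℝ) ^ r * (N.choose r) * θ ^ r - (1 - θ) ^ N) -
            θ * (∑ r ∈ range R, (-1 : ℝ) ^ r * (N.choose r) * θ ^ r - (1 - θ) ^ N) := by ring
      rw [e3]
      refine (abs_sub _ _).trans (add_le_add h1 ?_)
      rw [abs_mul, abs_of_nonneg h0]
      exact mul_le_mul_of_nonneg_left h2 h0

open Classical in
/-- Bonferroni's inequalities for a point. -/
theorem bonf_pt (J : Finset ℕ) (Q : ℕ → Prop) (R : ℕ) :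
    |(if ∀ e ∈ J, ¬ Q e then (1 : ℝ) else 0) - ∑ r ∈ range R, (-1 : ℝ) ^ r * ∑ U ∈ powersetCard r J, (if ∀ e ∈ U, Q e then (1 : ℝ) else 0)| ≤
      ∑ U ∈ powersetCard R J, (if ∀ e ∈ U, Q e then (1 : ℝ) else 0) := by
  obtain ⟨m, hm⟩ : ∃ m, m = (J.filter Q).card := ⟨_, rfl⟩
  have h1 : ∀ r, ∑ U ∈ powersetCard r J, (if ∀ e ∈ U, Q e then (1 : ℝ) else 0) = m.choose r := by
    intro r
    rw [hm, ← card_powersetCard, ← sum_filter, sum_const, nsmul_eq_mul, mul_one]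
    congr 2
    ext U
    rw [mem_filter, mem_powersetCard, mem_powersetCard]
    constructor
    · rintro ⟨⟨h1, h2⟩, h3⟩
      exact ⟨fun e he => mem_filter.2 ⟨h1 he, h3 e he⟩, h2⟩
    · rintro ⟨h1, h2⟩
      exact ⟨⟨fun e he => (mem_filter.1 (h1 he)).1, h2⟩, fun e he => (mem_filter.1 (h1 he)).2⟩
  simp only [h1]
  have h2 := bonf_real (θ := 1) zero_le_one le_rfl m R
  have h3 : (if ∀ e ∈ J, ¬ Q e then (1 : ℝ) else 0) = (1 - 1) ^ m := by
    rw [sub_self]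
    by_cases h4 : ∀ e ∈ J, ¬ Q e
    · rw [if_pos h4]
      have h5 : m = 0 := by
        rw [hm, card_eq_zero, filter_eq_empty_iff]
        exact h4
      rw [h5, pow_zero]
    · rw [if_neg h4]
      have h5 : m ≠ 0 := by
        intro h0
        rw [hm, card_eq_zero, filter_eq_empty_iff] at h0
        exact h4 h0
      rw [zero_pow h5]
  rw [h3, abs_sub_comm]
  simp only [one_pow, mul_one] at h2
  exact h2

open Classical in
/-- **Bonferroni's inequalities** for the number of the `n` such that `P n e` holds for the `e` in `K` and for no `e` in `J`. -/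
theorem bonf (cls : Finset ℕ) (P : ℕ → ℕ → Prop) (K J : Finset ℕ) (R : ℕ) :
    |((cls.filter (fun n => (∀ e ∈ K, P n e) ∧ ∀ e ∈ J, ¬ P n e)).card : ℝ) -
      ∑ r ∈ range R, (-1 : ℝ) ^ r * ∑ U ∈ powersetCard r J, ((cls.filter (fun n => ∀ e ∈ K ∪ U, P n e)).card : ℝ)| ≤
      ∑ U ∈ powersetCard R J, ((cls.filter (fun n => ∀ e ∈ K ∪ U, P n e)).card : ℝ) := by
  have h1 : ((cls.filter (fun n => (∀ e ∈ K, P n e) ∧ ∀ e ∈ J, ¬ P n e)).card : ℝ) =
      ∑ n ∈ cls.filter (fun n => ∀ e ∈ K, P n e), (if ∀ e ∈ J, ¬ P n e then (1 : ℝ) else 0) := by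
    rw [← filter_filter, card_filter]
    push_cast
    rfl
  have h2 : ∀ U, ((cls.filter (fun n => ∀ e ∈ K ∪ U, P n e)).card : ℝ) =
      ∑ n ∈ cls.filter (fun n => ∀ e ∈ K, P n e), (if ∀ e ∈ U, P n e then (1 : ℝ) else 0) := by
    intro U
    have h3 : cls.filter (fun n => ∀ e ∈ K ∪ U, P n e) = (cls.filter (fun n => ∀ e ∈ K, P n e)).filter (fun n => ∀ e ∈ U, P n e) := by
      rw [filter_filter]
      refine filter_congr fun n _ => ?_
      constructor
      · intro h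
        exact ⟨fun e he => h e (mem_union_left _ he), fun e he => h e (mem_union_right _ he)⟩
      · rintro ⟨h, h'⟩ e he
        rcases mem_union.1 he with h4 | h4
        · exact h e h4
        · exact h' e h4
    rw [h3, card_filter]
    push_cast
    rfl
  have h3 : ∀ r, ∑ U ∈ powersetCard r J, ((cls.filter (fun n => ∀ e ∈ K ∪ U, P n e)).card : ℝ) =
      ∑ n ∈ cls.filter (fun n => ∀ e ∈ K, P n e), ∑ U ∈ powersetCard r J, (if ∀ e ∈ U, P n e then (1 : ℝ) else 0) := by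
    intro r
    rw [sum_comm]
    exact sum_congr rfl fun U _ => h2 U
  have h4 : ∑ r ∈ range R, (-1 : ℝ) ^ r * ∑ U ∈ powersetCard r J, ((cls.filter (fun n => ∀ e ∈ K ∪ U, P n e)).card : ℝ) =
      ∑ n ∈ cls.filter (fun n => ∀ e ∈ K, P n e), ∑ r ∈ range R, (-1 : ℝ) ^ r * ∑ U ∈ powersetCard r J, (if ∀ e ∈ U, P n e then (1 : ℝ) else 0) := by
    rw [sum_comm]
    refine sum_congr rfl fun r _ => ?_
    rw [h3, mul_sum]
  rw [h1, h4, h3, ← sum_sub_distrib]
  exact (abs_sum_le_sum_abs _ _).trans (sum_le_sum fun n _ => bonf_pt J (P n) R)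

/-- the binomial terms -/
theorem choose_le {θ : ℝ} (h0 : 0 ≤ θ) (N r : ℕ) : (N.choose r) * θ ^ r ≤ (θ * N) ^ r / r.factorial := by
  have h1 : (N.choose r : ℝ) ≤ (N : ℝ) ^ r / r.factorial := Nat.choose_le_pow_div r N
  calc (N.choose r) * θ ^ r ≤ (N : ℝ) ^ r / r.factorial * θ ^ r := mul_le_mul_of_nonneg_right h1 (pow_nonneg h0 _)
    _ = (θ * N) ^ r / r.factorial := by rw [mul_pow]; ring

theorem sum_choose_le {θ : ℝ} (h0 : 0 ≤ θ) (N R : ℕ) : ∑ r ∈ range R, (N.choose r) * θ ^ r ≤ Real.exp (θ * N) :=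
  (sum_le_sum fun r _ => choose_le h0 N r).trans (Real.sum_le_exp_of_nonneg (by positivity) R)

theorem sum_choose_two (N R : ℕ) : ∑ r ∈ range (R + 1), (N.choose r : ℝ) ≤ 2 ^ N := by
  have h1 : (∑ r ∈ range (N + 1), (N.choose r : ℝ)) = 2 ^ N := by exact_mod_cast Nat.sum_range_choose N
  rw [← h1]
  rcases le_total R N with h | h
  · exact sum_le_sum_of_subset_of_nonneg (range_subset_range.2 (by omega)) fun _ _ _ => by positivity
  · rw [← Finset.sum_subset (range_subset_range.2 (show N + 1 ≤ R + 1 by omega))]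
    intro r _ hr
    rw [mem_range, not_lt] at hr
    rw [Nat.choose_eq_zero_of_lt (by omega), Nat.cast_zero]

open Classical in
/-- **The local estimate.** -/
theorem loc_est {S : Finset ℕ} {w k R : ℕ} (hw : 2 ≤ w) (hS : ∀ p ∈ S, w ≤ p) (hkR : k + R ≤ w) {cls : Finset ℕ} {P : ℕ → ℕ → Prop}
    {K J : Finset ℕ} {ρ β Z : ℝ} (hρ : 0 ≤ ρ) (hβ0 : 0 ≤ β) (hβ : β ≤ 1) (hZ : 0 ≤ Z)
    (hF : ∀ U ⊆ J, U.card ≤ R → |((cls.filter (fun n => ∀ e ∈ K ∪ U, P n e)).card : ℝ) -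
      ρ * ∏ p ∈ S, (1 - ((k + U.card : ℕ) : ℝ) / p)| ≤ β * (ρ * ∏ p ∈ S, (1 - ((k + U.card : ℕ) : ℝ) / p)) + Z) :
    |((cls.filter (fun n => (∀ e ∈ K, P n e) ∧ ∀ e ∈ J, ¬ P n e)).card : ℝ) - ρ * (th S ^ k * (1 - th S) ^ J.card)| ≤
      ρ * th S ^ k * (3 * ((th S * J.card) ^ R / R.factorial) + (2 * ((k : ℝ) + R) ^ 2 / w + β) * Real.exp (th S * J.card)) +
        Z * 2 ^ J.card := by
  have hth0 := th_pos (S := S) fun p hp => by have := hS p hp; omega
  have hth1 := th_le_one (S := S) fun p hp => by have := hS p hp; omega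
  obtain ⟨θ, hθ⟩ : ∃ θ, θ = th S := ⟨_, rfl⟩
  obtain ⟨G, hG⟩ : ∃ G : ℕ → ℝ, G = fun m => ∏ p ∈ S, (1 - ((m : ℕ) : ℝ) / p) := ⟨_, rfl⟩
  obtain ⟨N, hN⟩ : ∃ N, N = J.card := ⟨_, rfl⟩
  obtain ⟨F, hFd⟩ : ∃ F : Finset ℕ → ℝ, F = fun U => ((cls.filter (fun n => ∀ e ∈ K ∪ U, P n e)).card : ℝ) := ⟨_, rfl⟩
  obtain ⟨δ, hδ⟩ : ∃ δ : ℝ, δ = 2 * ((k : ℝ) + R) ^ 2 / w := ⟨_, rfl⟩
  have hδ0 : 0 ≤ δ := by rw [hδ]; positivity
  rw [← hθ] at hth0 hth1
  have hGb : ∀ m ≤ k + R, 0 ≤ G m ∧ G m ≤ θ ^ m ∧ |G m - θ ^ m| ≤ θ ^ m * δ := by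
    intro m hm
    obtain ⟨g1, g2⟩ := G_bound hw hS (m := m) (by omega)
    have g0 : 0 ≤ G m := by
      rw [hG]
      refine prod_nonneg fun p hp => ?_
      have h1 := hS p hp
      have h2 : (0 : ℝ) < p := by
        have : 0 < p := by omega
        exact_mod_cast this
      rw [sub_nonneg, div_le_one h2]
      have : m ≤ p := by omega
      exact_mod_cast this
    rw [← hθ] at g1 g2
    have g3 : G m = ∏ p ∈ S, (1 - (m : ℝ) / p) := by rw [hG]
    rw [← g3] at g1 g2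
    refine ⟨g0, g2, ?_⟩
    have e1 : 2 * (m : ℝ) ^ 2 / w ≤ δ := by
      rw [hδ]
      refine div_le_div_of_nonneg_right ?_ (Nat.cast_nonneg _)
      have e2 : (m : ℝ) ≤ (k : ℝ) + R := by exact_mod_cast hm
      have e3 := pow_le_pow_left₀ (Nat.cast_nonneg m) e2 2
      linarith
    have e2 : 0 ≤ θ ^ m := by positivity
    have e3 := mul_le_mul_of_nonneg_left e1 e2
    rw [abs_le]
    constructor
    · nlinarith
    · have : 0 ≤ θ ^ m * δ := by positivity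
      linarith
  have hFb : ∀ r ≤ R, ∀ U ∈ powersetCard r J, |F U - ρ * G (k + r)| ≤ β * (ρ * θ ^ (k + r)) + Z := by
    intro r hr U hU
    rw [mem_powersetCard] at hU
    have h1 := hF U hU.1 (by omega)
    rw [hU.2] at h1
    have h2 := (hGb (k + r) (by omega)).2.1
    have h3 : G (k + r) = ∏ p ∈ S, (1 - ((k + r : ℕ) : ℝ) / p) := by rw [hG]
    rw [← h3] at h1
    have h4 : F U = ((cls.filter (fun n => ∀ e ∈ K ∪ U, P n e)).card : ℝ) := by rw [hFd]
    rw [← h4] at h1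
    refine h1.trans (add_le_add_left ?_ _)
    exact mul_le_mul_of_nonneg_left (mul_le_mul_of_nonneg_left h2 hρ) hβ0
  have hB := bonf cls P K J R
  obtain ⟨A, hA⟩ : ∃ A : ℝ, A = ((cls.filter (fun n => (∀ e ∈ K, P n e) ∧ ∀ e ∈ J, ¬ P n e)).card : ℝ) := ⟨_, rfl⟩
  have hB' : |A - ∑ r ∈ range R, (-1 : ℝ) ^ r * ∑ U ∈ powersetCard r J, F U| ≤ ∑ U ∈ powersetCard R J, F U := by
    rw [hA, hFd]
    exact hB
  clear hB
  rw [← hA, ← hθ, ← hN, ← hδ]
  -- the sums over the subsets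
  have hs : ∀ r ≤ R, |∑ U ∈ powersetCard r J, F U - (N.choose r) * (ρ * G (k + r))| ≤ (N.choose r) * (β * (ρ * θ ^ (k + r)) + Z) := by
    intro r hr
    have h1 : ∑ U ∈ powersetCard r J, F U - (N.choose r) * (ρ * G (k + r)) = ∑ U ∈ powersetCard r J, (F U - ρ * G (k + r)) := by
      rw [sum_sub_distrib, sum_const, card_powersetCard, nsmul_eq_mul, hN]
    rw [h1]
    refine (abs_sum_le_sum_abs _ _).trans ((sum_le_sum (hFb r hr)).trans (le_of_eq ?_))
    rw [sum_const, card_powersetCard, nsmul_eq_mul, hN]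
  have e1 : |∑ r ∈ range R, (-1 : ℝ) ^ r * ∑ U ∈ powersetCard r J, F U - ∑ r ∈ range R, (-1 : ℝ) ^ r * ((N.choose r) * (ρ * G (k + r)))| ≤
      ∑ r ∈ range R, (N.choose r) * (β * (ρ * θ ^ (k + r)) + Z) := by
    rw [← sum_sub_distrib]
    refine (abs_sum_le_sum_abs _ _).trans (sum_le_sum fun r hr => ?_)
    rw [mem_range] at hr
    rw [← mul_sub, abs_mul, abs_pow, abs_neg, abs_one, one_pow, one_mul]
    exact hs r hr.le
  have e2 : |∑ r ∈ range R, (-1 : ℝ) ^ r * ((N.choose r) * (ρ * G (k + r))) - ρ * θ ^ k * ∑ r ∈ range R, (-1 : ℝ) ^ r * (N.choose r) * θ ^ r| ≤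
      ρ * θ ^ k * (δ * ∑ r ∈ range R, (N.choose r) * θ ^ r) := by
    rw [mul_sum, mul_sum, mul_sum, ← sum_sub_distrib]
    refine (abs_sum_le_sum_abs _ _).trans (sum_le_sum fun r hr => ?_)
    rw [mem_range] at hr
    have h1 : (-1 : ℝ) ^ r * ((N.choose r) * (ρ * G (k + r))) - ρ * θ ^ k * ((-1 : ℝ) ^ r * (N.choose r) * θ ^ r) =
        (-1 : ℝ) ^ r * ((N.choose r) * ρ * (G (k + r) - θ ^ (k + r))) := by
      rw [pow_add]
      ring
    rw [h1, abs_mul, abs_pow, abs_neg, abs_one, one_pow, one_mul, abs_mul, abs_of_nonneg (by positivity)]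
    have h2 := mul_le_mul_of_nonneg_left (hGb (k + r) (by omega)).2.2 (show 0 ≤ (N.choose r : ℝ) * ρ by positivity)
    refine h2.trans (le_of_eq ?_)
    rw [pow_add]
    ring
  have e3 : |ρ * θ ^ k * ∑ r ∈ range R, (-1 : ℝ) ^ r * (N.choose r) * θ ^ r - ρ * (θ ^ k * (1 - θ) ^ N)| ≤ ρ * θ ^ k * ((N.choose R) * θ ^ R) := by
    have h1 : ρ * θ ^ k * ∑ r ∈ range R, (-1 : ℝ) ^ r * (N.choose r) * θ ^ r - ρ * (θ ^ k * (1 - θ) ^ N) =
        ρ * θ ^ k * (∑ r ∈ range R, (-1 : ℝ) ^ r * (N.choose r) * θ ^ r - (1 - θ) ^ N) := by ring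
    rw [h1, abs_mul, abs_of_nonneg (by positivity)]
    exact mul_le_mul_of_nonneg_left (bonf_real hth0.le hth1 N R) (by positivity)
  have e4 : ∑ U ∈ powersetCard R J, F U ≤ (N.choose R) * (2 * (ρ * θ ^ (k + R)) + Z) := by
    have h1 := (abs_le.1 (hs R le_rfl)).2
    have h2 := (hGb (k + R) le_rfl).2.1
    have h3 : (N.choose R : ℝ) * (ρ * G (k + R)) ≤ (N.choose R) * (ρ * θ ^ (k + R)) :=
      mul_le_mul_of_nonneg_left (mul_le_mul_of_nonneg_left h2 hρ) (by positivity)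
    have h4 : (N.choose R : ℝ) * (β * (ρ * θ ^ (k + R))) ≤ (N.choose R) * (ρ * θ ^ (k + R)) :=
      mul_le_mul_of_nonneg_left (by nlinarith [show 0 ≤ ρ * θ ^ (k + R) by positivity]) (by positivity)
    nlinarith
  have e5 : ∑ r ∈ range R, (N.choose r) * (β * (ρ * θ ^ (k + r)) + Z) = ρ * θ ^ k * (β * ∑ r ∈ range R, (N.choose r) * θ ^ r) + Z * ∑ r ∈ range R, (N.choose r : ℝ) := by
    rw [mul_sum, mul_sum, mul_sum, ← sum_add_distrib]
    refine sum_congr rfl fun r _ => ?_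
    rw [pow_add]
    ring
  have e6 : Z * ∑ r ∈ range R, (N.choose r : ℝ) + Z * (N.choose R) ≤ Z * 2 ^ N := by
    rw [← mul_add, ← sum_range_succ]
    exact mul_le_mul_of_nonneg_left (sum_choose_two N R) hZ
  have e7 := choose_le hth0.le N R
  have e8 := sum_choose_le hth0.le N R
  have e9 : ρ * θ ^ k * (3 * ((N.choose R) * θ ^ R)) ≤ ρ * θ ^ k * (3 * ((θ * N) ^ R / R.factorial)) :=
    mul_le_mul_of_nonneg_left (by linarith) (by positivity)
  have e10 : ρ * θ ^ k * ((δ + β) * ∑ r ∈ range R, (N.choose r) * θ ^ r) ≤ ρ * θ ^ k * ((δ + β) * Real.exp (θ * N)) :=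
    mul_le_mul_of_nonneg_left (mul_le_mul_of_nonneg_left e8 (by positivity)) (by positivity)
  have e11 : (N.choose R : ℝ) * (2 * (ρ * θ ^ (k + R)) + Z) = ρ * θ ^ k * (2 * ((N.choose R) * θ ^ R)) + Z * (N.choose R) := by
    rw [pow_add]
    ring
  have t1 := abs_le.1 hB'
  have t2 := abs_le.1 e1
  have t3 := abs_le.1 e2
  have t4 := abs_le.1 e3
  rw [abs_le]
  constructor
  · nlinarith [t1.1, t1.2, t2.1, t2.2, t3.1, t3.2, t4.1, t4.2]
  · nlinarith [t1.1, t1.2, t2.1, t2.2, t3.1, t3.2, t4.1, t4.2]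

end Pool.Agent.H38.TO
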