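import Pool.Agent.H38.TO.F
import Pool.Agent.H38.TO.G
import Pool.Agent.H38.RC.I

/-!
# Runs of rough integers: the count in an interval
-/

set_option autoImplicit false

namespace Pool.Agent.H38.TO

open Finset Filter Pool.Agent.Q120.MG Pool.Agent.Q120.CL Pool.Agent.H38.LR Pool.Agent.H38.RC

/-- no prime of `[w, z)` divides `n + e` -/
def Pp (w z n e : ℕ) : Prop := ∀ p ∈ Sp w z, ¬ p ∣ n + e

/-- the offsets of the progression -/
def Kd (k d : ℕ) : Finset ℕ := (range k).image (fun i => i * d)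

theorem mem_Kd {k d e : ℕ} : e ∈ Kd k d ↔ ∃ i < k, e = i * d := by
  unfold Kd
  rw [mem_image]
  constructor
  · rintro ⟨i, hi, rfl⟩
    exact ⟨i, mem_range.1 hi, rfl⟩
  · rintro ⟨i, hi, rfl⟩
    exact ⟨i, mem_range.2 hi, rfl⟩

theorem card_Kd {k d : ℕ} (hd : 1 ≤ d) : (Kd k d).card = k := by
  unfold Kd
  rw [card_image_of_injective, card_range]
  intro a b h
  exact Nat.eq_of_mul_eq_mul_right hd h

theorem Kd_le {k d e : ℕ} (he : e ∈ Kd k d) : e ≤ (k - 1) * d := by
  obtain ⟨i, hi, rfl⟩ := mem_Kd.1 he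
  exact Nat.mul_le_mul_right _ (by omega)

open Classical in
/-- the offsets of the other integers without prime factors below `w` -/
noncomputable def Jd (w k d a : ℕ) : Finset ℕ := (range ((k - 1) * d + 1)).filter (fun e => e ∉ Kd k d ∧ Rough w (a + e))

theorem rough_split {w z m : ℕ} (h : w ≤ z) : Rough z m ↔ Rough w m ∧ ∀ p ∈ Sp w z, ¬ p ∣ m := by
  constructor
  · intro h1
    refine ⟨fun p hp hpw => h1 p hp (by omega), fun p hp => ?_⟩
    rw [mem_Sp] at hp
    exact h1 p hp.2.2 hp.2.1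
  · rintro ⟨h1, h2⟩ p hp hpz
    by_cases hpw : p < w
    · exact h1 p hp hpw
    · exact h2 p (mem_Sp.2 ⟨by omega, hpz, hp⟩)

theorem rough_mod (w n e : ℕ) : Rough w (n % PQ w + e) ↔ Rough w (n + e) := by
  unfold Rough
  refine forall_congr' fun p => forall_congr' fun hp => forall_congr' fun hpw => not_congr ?_
  have h1 : p ∣ PQ w := dvd_prod_of_mem (fun p => p) (mem_filter.2 ⟨mem_range.2 hpw, hp⟩)
  rw [← Nat.modEq_zero_iff_dvd, ← Nat.modEq_zero_iff_dvd]
  have h2 : n % PQ w + e ≡ n + e [MOD p] := Nat.ModEq.add_right e ((Nat.mod_modEq n (PQ w)).of_dvd h1)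
  exact ⟨fun h => h2.symm.trans h, fun h => h2.trans h⟩

/-- The condition on `n` in terms of the class of `n` modulo the small primes. -/
theorem run_iff {w z k : ℕ} (h : w ≤ z) (hk : 1 ≤ k) (d n : ℕ) :
    Run {m | Rough z m} n k d ↔ RP w k d (n % PQ w) ∧ (∀ e ∈ Kd k d, Pp w z n e) ∧ ∀ e ∈ Jd w k d (n % PQ w), ¬ Pp w z n e := by
  classical
  have hr : ∀ e, Rough z (n + e) ↔ Rough w (n % PQ w + e) ∧ Pp w z n e := by
    intro e
    rw [rough_split h, rough_mod]
    rfl
  constructor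
  · intro h1
    have h2 : ∀ e ∈ Kd k d, Rough z (n + e) := by
      intro e he
      have h3 := Kd_le he
      obtain ⟨i, hi, h4⟩ := mem_Kd.1 he
      exact (h1 (n + e) (by omega) (by omega)).2 ⟨i, hi, by omega⟩
    refine ⟨fun i hi => ((hr _).1 (h2 (i * d) (mem_Kd.2 ⟨i, hi, rfl⟩))).1, fun e he => ((hr _).1 (h2 e he)).2, fun e he hP => ?_⟩
    unfold Jd at he
    rw [mem_filter, mem_range] at he
    have h3 : n + e ∈ {m | Rough z m} := (hr e).2 ⟨he.2.2, hP⟩
    obtain ⟨i, hi, h4⟩ := (h1 (n + e) (by omega) (by omega)).1 h3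
    exact he.2.1 (mem_Kd.2 ⟨i, hi, by omega⟩)
  · rintro ⟨h1, h2, h3⟩ m hm1 hm2
    obtain ⟨e, rfl⟩ := Nat.exists_eq_add_of_le hm1
    constructor
    · intro hm
      have h4 := (hr e).1 hm
      by_contra hcon
      refine h3 e ?_ h4.2
      unfold Jd
      rw [mem_filter, mem_range]
      refine ⟨by omega, fun he => ?_, h4.1⟩
      obtain ⟨i, hi, h5⟩ := mem_Kd.1 he
      exact hcon ⟨i, hi, by omega⟩
    · rintro ⟨i, hi, h4⟩
      have h5 : e = i * d := by omega
      have h6 : e ∈ Kd k d := mem_Kd.2 ⟨i, hi, h5⟩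
      refine (hr e).2 ⟨?_, h2 e h6⟩
      rw [h5]
      exact h1 i hi

/-- the number of the other integers without small prime factors -/
theorem card_Jd {w k d a : ℕ} (hk : 1 ≤ k) (hd : 1 ≤ d) (hRP : RP w k d a) :
    ((Jd w k d a).card + k : ℕ) = Wf w (a + (PQ w - 1)) ((k - 1) * d + 1) := by
  classical
  have h1 : Wf w (a + (PQ w - 1)) ((k - 1) * d + 1) = ((range ((k - 1) * d + 1)).filter (fun e => Rough w (a + e))).card := by
    unfold Wf
    symm
    have hP := PQ_pos w
    refine card_bij (fun e _ => e + (a + PQ w)) ?_ ?_ ?_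
    · intro e he
      rw [mem_filter, mem_range] at he
      rw [mem_filter, mem_Ioc]
      refine ⟨by omega, ?_⟩
      have h2 : e + (a + PQ w) = (a + e) + PQ w := by ring
      rw [h2, rough_add]
      exact he.2
    · intro e _ e' _ h
      exact Nat.add_right_cancel h
    · intro m hm
      rw [mem_filter, mem_Ioc] at hm
      refine ⟨m - (a + PQ w), ?_, by omega⟩
      rw [mem_filter, mem_range]
      refine ⟨by omega, ?_⟩
      have h2 : a + (m - (a + PQ w)) + PQ w = m := by omega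
      unfold Rough
      rw [← rough_add, h2]
      exact hm.2
  rw [h1]
  have h2 : (range ((k - 1) * d + 1)).filter (fun e => Rough w (a + e)) = Jd w k d a ∪ Kd k d := by
    ext e
    unfold Jd
    rw [mem_union, mem_filter, mem_filter, mem_range]
    constructor
    · rintro ⟨h3, h4⟩
      by_cases h5 : e ∈ Kd k d
      · exact Or.inr h5
      · exact Or.inl ⟨h3, h5, h4⟩
    · rintro (⟨h3, _, h4⟩ | h3)
      · exact ⟨h3, h4⟩
      · have h4 := Kd_le h3
        obtain ⟨i, hi, rfl⟩ := mem_Kd.1 h3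
        exact ⟨by omega, hRP i hi⟩
  rw [h2, card_union_of_disjoint, card_Kd hd]
  rw [Finset.disjoint_left]
  intro e he
  unfold Jd at he
  exact (mem_filter.1 he).2.1

open Classical in
/-- the number of the runs in an interval -/
noncomputable def cnt (z k d A X : ℕ) : ℕ := ((Ioc A (A + X)).filter (fun n => Run {m | Rough z m} n k d)).card

open Classical in
/-- the number in a class -/
noncomputable def Nc (w z k d A X a : ℕ) : ℕ :=
  (((Ioc A (A + X)).filter (fun n => n % PQ w = a)).filter (fun n => (∀ e ∈ Kd k d, Pp w z n e) ∧ ∀ e ∈ Jd w k d a, ¬ Pp w z n e)).card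

open Classical in
theorem cnt_eq {w z k : ℕ} (h : w ≤ z) (hk : 1 ≤ k) (d A X : ℕ) :
    cnt z k d A X = ∑ a ∈ (range (PQ w)).filter (fun a => RP w k d a), Nc w z k d A X a := by
  unfold cnt
  rw [card_eq_sum_card_fiberwise (f := fun n => n % PQ w) (t := (range (PQ w)).filter (fun a => RP w k d a))]
  · refine sum_congr rfl fun a ha => ?_
    rw [mem_filter] at ha
    unfold Nc
    congr 1
    ext n
    simp only [mem_filter]
    constructor
    · rintro ⟨⟨h1, h2⟩, h3⟩
      have h4 := (run_iff h hk d n).1 h2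
      rw [h3] at h4
      exact ⟨⟨h1, h3⟩, h4.2⟩
    · rintro ⟨⟨h1, h3⟩, h4⟩
      refine ⟨⟨h1, (run_iff h hk d n).2 ?_⟩, h3⟩
      rw [h3]
      exact ⟨ha.2, h4⟩
  · intro n hn
    rw [mem_coe, mem_filter] at hn
    rw [mem_coe, mem_filter, mem_range]
    exact ⟨Nat.mod_lt _ (PQ_pos w), ((run_iff h hk d n).1 hn.2).1⟩

end Pool.Agent.H38.TO
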