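import Pool.Agent.H38.TO.H

/-!
# Runs of rough integers: the main inequality
-/

set_option autoImplicit false

namespace Pool.Agent.H38.TO

open Finset Filter Pool.Agent.Q120.MG Pool.Agent.Q120.CL Pool.Agent.H38.LR Pool.Agent.H38.RC

theorem th_Vf {w z : ℕ} (h : w ≤ z) : th (Sp w z) * Vf w = Vf z := by
  unfold th Vf Sp
  rw [← prod_union]
  · congr 1
    ext p
    rw [mem_union, mem_filter, mem_filter, mem_filter, mem_Ico, mem_range, mem_range]
    constructor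
    · rintro (⟨h1, h2⟩ | ⟨h1, h2⟩)
      · exact ⟨h1.2, h2⟩
      · exact ⟨by omega, h2⟩
    · rintro ⟨h1, h2⟩
      by_cases h3 : p < w
      · exact Or.inr ⟨h3, h2⟩
      · exact Or.inl ⟨⟨by omega, h1⟩, h2⟩
  · rw [Finset.disjoint_left]
    intro p hp hp'
    rw [mem_filter, mem_Ico] at hp
    rw [mem_filter, mem_range] at hp'
    omega

theorem not_dvd_PQ {w p : ℕ} (hp : p.Prime) (h : w ≤ p) : ¬ p ∣ PQ w := by
  intro hd
  unfold PQ at hd
  obtain ⟨q, hq, h1⟩ := (Nat.Prime.prime hp).exists_mem_finset_dvd hd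
  rw [mem_filter, mem_range] at hq
  have h2 := (Nat.prime_dvd_prime_iff_eq hp hq.2).1 h1
  omega

/-- the exceptional classes -/
noncomputable def bad (w H : ℕ) : Finset ℕ := (range (PQ w)).filter (fun a => 2 * (Vf w * H) < Wf w (a + (PQ w - 1)) H)

theorem card_bad {w H : ℕ} (hH : 1 ≤ H) : ((bad w H).card : ℝ) ≤ PQ w * (3 / (Vf w * H)) := by
  have hP : (0 : ℝ) < PQ w := by exact_mod_cast PQ_pos w
  have hV := Vf_pos w
  have hH' : (1 : ℝ) ≤ H := by exact_mod_cast hH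
  have h1 := vari w H
  have h2 : ∑ a ∈ range (PQ w), ((Wf w (a + (PQ w - 1)) H : ℝ) - Vf w * H) ^ 2 = ∑ a ∈ range (PQ w), ((Wf w a H : ℝ) - Vf w * H) ^ 2 :=
    sum_shift' (g := fun a => ((Wf w a H : ℝ) - Vf w * H) ^ 2) (PQ_pos w) (fun n => by simp only [Wf_period]) (PQ w - 1)
  rw [← h2, div_le_iff₀ hP] at h1
  have h3 : ((bad w H).card : ℝ) * (Vf w * H) ^ 2 ≤ ∑ a ∈ range (PQ w), ((Wf w (a + (PQ w - 1)) H : ℝ) - Vf w * H) ^ 2 := by
    rw [← nsmul_eq_mul, ← sum_const]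
    refine (sum_le_sum (g := fun a => ((Wf w (a + (PQ w - 1)) H : ℝ) - Vf w * H) ^ 2) fun a ha => ?_).trans
      (sum_le_sum_of_subset_of_nonneg (filter_subset _ _) fun _ _ _ => sq_nonneg _)
    unfold bad at ha
    rw [mem_filter] at ha
    have h4 : 0 ≤ Vf w * H := by positivity
    have h5 := ha.2
    nlinarith
  have h4 := h3.trans h1
  have h5 : 0 < Vf w * H := by positivity
  rw [show (PQ w : ℝ) * (3 / (Vf w * H)) = (PQ w * 3) / (Vf w * H) by ring, le_div_iff₀ h5]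
  have h6 : ((bad w H).card : ℝ) * (Vf w * H) ^ 2 = (((bad w H).card : ℝ) * (Vf w * H)) * (Vf w * H) := by ring
  rw [h6] at h4
  have h7 : (3 * (H : ℝ) * Vf w * PQ w) = (PQ w * 3) * (Vf w * H) := by ring
  rw [h7] at h4
  exact le_of_mul_le_mul_right h4 h5

/-- `3 B ^ R / R! + (2 (k + R) ^ 2 / w + 2 ^ (-b)) e ^ B` -/
noncomputable def QQ (k R b w : ℕ) (B : ℝ) : ℝ :=
  3 * (B ^ R / R.factorial) + (2 * ((k : ℝ) + R) ^ 2 / w + (1 / 2 : ℝ) ^ b) * Real.exp B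

theorem QQ_nonneg (k R b w : ℕ) {B : ℝ} (hB : 0 ≤ B) : 0 ≤ QQ k R b w B := by
  unfold QQ
  positivity

theorem QQ_mono (k R b w : ℕ) {B B' : ℝ} (hB : 0 ≤ B) (h : B ≤ B') : QQ k R b w B ≤ QQ k R b w B' := by
  unfold QQ
  have h1 : B ^ R / R.factorial ≤ B' ^ R / R.factorial :=
    div_le_div_of_nonneg_right (pow_le_pow_left₀ hB h R) (Nat.cast_nonneg _)
  have h2 := mul_le_mul_of_nonneg_left (Real.exp_le_exp.2 h) (show 0 ≤ 2 * ((k : ℝ) + R) ^ 2 / w + (1 / 2 : ℝ) ^ b by positivity)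
  linarith

open Classical in
/-- the estimate in a class -/
theorem Nc_est : ∃ C : ℕ, 1 ≤ C ∧ ∀ k R b w z D : ℕ, 1 ≤ k → C * (k + R + 1) ≤ b → C * (k + R + 1) < w → k + R ≤ w → w ≤ z → 2 ≤ w →
    (k - 1) * D + 1 ≤ w → ∀ A X d a : ℕ, 1 ≤ d → d ≤ D → a < PQ w → RP w k d a →
      |(Nc w z k d A X a : ℝ) - (X : ℝ) / PQ w * (th (Sp w z) ^ k * (1 - th (Sp w z)) ^ (Jd w k d a).card)| ≤
        (X : ℝ) / PQ w * th (Sp w z) ^ k * (QQ k R b w (2 * (Vf z * ((k - 1) * D + 1 : ℕ))) +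
          (if a ∈ bad w ((k - 1) * D + 1) then 2 else 0)) + (z : ℝ) ^ (2 * C * b) * 2 ^ w := by
  obtain ⟨C, hC, hF⟩ := flE
  refine ⟨C, hC, ?_⟩
  intro k R b w z D hk hb hw hkR hwz hw2 hD A X d a hd hdD ha hRP
  have hP : (0 : ℝ) < PQ w := by exact_mod_cast PQ_pos w
  have hV := Vf_pos w
  have hdle : (k - 1) * d ≤ (k - 1) * D := Nat.mul_le_mul_left _ hdD
  have hS : ∀ p ∈ Sp w z, w ≤ p := fun p hp => (mem_Sp.1 hp).1
  have hth0 := th_pos (S := Sp w z) fun p hp => by have := hS p hp; omega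
  have hth1 := th_le_one (S := Sp w z) fun p hp => by have := hS p hp; omega
  obtain ⟨θ, hθ⟩ : ∃ θ, θ = th (Sp w z) := ⟨_, rfl⟩
  obtain ⟨ρ, hρ⟩ : ∃ ρ, ρ = (X : ℝ) / PQ w := ⟨_, rfl⟩
  have hρ0 : 0 ≤ ρ := by rw [hρ]; positivity
  obtain ⟨Z, hZ⟩ : ∃ Z : ℝ, Z = (z : ℝ) ^ (2 * C * b) := ⟨_, rfl⟩
  have hZ0 : 0 ≤ Z := by rw [hZ]; positivity
  obtain ⟨cls, hcls⟩ : ∃ cls, cls = (Ioc A (A + X)).filter (fun n => n % PQ w = a) := ⟨_, rfl⟩
  have hJlt : ∀ e ∈ Jd w k d a, e < w := by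
    intro e he
    unfold Jd at he
    rw [mem_filter, mem_range] at he
    omega
  have hJcard : (Jd w k d a).card ≤ w := by
    calc (Jd w k d a).card ≤ (range ((k - 1) * d + 1)).card := card_le_card (filter_subset _ _)
      _ = (k - 1) * d + 1 := card_range _
      _ ≤ w := by omega
  -- the fundamental lemma
  have hFU : ∀ U ⊆ Jd w k d a, U.card ≤ R → |((cls.filter (fun n => ∀ e ∈ Kd k d ∪ U, Pp w z n e)).card : ℝ) -
      ρ * ∏ p ∈ Sp w z, (1 - ((k + U.card : ℕ) : ℝ) / p)| ≤ (1 / 2 : ℝ) ^ b * (ρ * ∏ p ∈ Sp w z, (1 - ((k + U.card : ℕ) : ℝ) / p)) + Z := by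
    intro U hU hUR
    have hdis : Disjoint (Kd k d) U := by
      rw [Finset.disjoint_right]
      intro e he
      have := hU he
      unfold Jd at this
      exact (mem_filter.1 this).2.1
    have hcard : (Kd k d ∪ U).card = k + U.card := by
      rw [card_union_of_disjoint hdis, card_Kd hd]
    have h := hF (k + R) b w z hb hw hwz (by omega) (Kd k d ∪ U) (by
      intro e he
      rcases mem_union.1 he with h1 | h1
      · have := Kd_le h1
        omega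
      · exact hJlt e (hU h1)) (by omega) (PQ w) a A X (PQ_pos w) (fun p hp hwp => not_dvd_PQ hp hwp)
    rw [hcard, ← hρ, ← hZ] at h
    have h2 : (Ioc A (A + X)).filter (fun n => n % PQ w = a % PQ w ∧ ∀ e ∈ Kd k d ∪ U, ∀ p ∈ Sp w z, ¬ p ∣ n + e) =
        cls.filter (fun n => ∀ e ∈ Kd k d ∪ U, Pp w z n e) := by
      rw [hcls, filter_filter, Nat.mod_eq_of_lt ha]
      exact filter_congr fun n _ => Iff.rfl
    rw [← h2]
    convert h
  have hNc : Nc w z k d A X a = (cls.filter (fun n => (∀ e ∈ Kd k d, Pp w z n e) ∧ ∀ e ∈ Jd w k d a, ¬ Pp w z n e)).card := by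
    rw [hcls]
    rfl
  have hβ1 : (1 / 2 : ℝ) ^ b ≤ 1 := pow_le_one₀ (by norm_num) (by norm_num)
  have h2w : (1 : ℝ) ≤ 2 ^ w := one_le_pow₀ (by norm_num)
  have hB0 : 0 ≤ 2 * (Vf z * ((k - 1) * D + 1 : ℕ)) := by
    have := Vf_pos z
    positivity
  have hQ0 := QQ_nonneg k R b w hB0
  rw [← hθ, ← hρ, ← hZ]
  by_cases hbad : a ∈ bad w ((k - 1) * D + 1)
  · rw [if_pos hbad]
    have h1 := hFU ∅ (empty_subset _) (by simp)
    rw [card_empty, add_zero, union_empty] at h1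
    obtain ⟨_, g2⟩ := G_bound hw2 hS (m := k) (by omega)
    have g1 : 0 ≤ ∏ p ∈ Sp w z, (1 - (k : ℝ) / p) := by
      refine prod_nonneg fun p hp => ?_
      have h1 := hS p hp
      have h2 : (0 : ℝ) < p := by
        have : 0 < p := by omega
        exact_mod_cast this
      rw [sub_nonneg, div_le_one h2]
      have : k ≤ p := by omega
      exact_mod_cast this
    rw [← hθ] at g2
    have h3 := (abs_le.1 h1).2
    have h4 : (Nc w z k d A X a : ℝ) ≤ ((cls.filter (fun n => ∀ e ∈ Kd k d, Pp w z n e)).card : ℝ) := by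
      rw [hNc]
      have : (cls.filter (fun n => (∀ e ∈ Kd k d, Pp w z n e) ∧ ∀ e ∈ Jd w k d a, ¬ Pp w z n e)).card ≤
          (cls.filter (fun n => ∀ e ∈ Kd k d, Pp w z n e)).card := by
        refine card_le_card fun n hn => ?_
        rw [mem_filter] at hn ⊢
        exact ⟨hn.1, hn.2.1⟩
      exact_mod_cast this
    have h5 : ρ * ∏ p ∈ Sp w z, (1 - (k : ℝ) / p) ≤ ρ * θ ^ k := mul_le_mul_of_nonneg_left g2 hρ0
    have h6 : 0 ≤ ρ * ∏ p ∈ Sp w z, (1 - (k : ℝ) / p) := mul_nonneg hρ0 g1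
    have h7 : (1 / 2 : ℝ) ^ b * (ρ * ∏ p ∈ Sp w z, (1 - (k : ℝ) / p)) ≤ ρ * θ ^ k := by nlinarith
    have hθk : 0 ≤ θ ^ k := by rw [hθ]; positivity
    have h8 : 0 ≤ ρ * (θ ^ k * (1 - θ) ^ (Jd w k d a).card) :=
      mul_nonneg hρ0 (mul_nonneg hθk (pow_nonneg (by linarith) _))
    have h9 : ρ * (θ ^ k * (1 - θ) ^ (Jd w k d a).card) ≤ ρ * θ ^ k := by
      refine mul_le_mul_of_nonneg_left ?_ hρ0
      have h10 : (1 - θ) ^ (Jd w k d a).card ≤ 1 := pow_le_one₀ (by linarith) (by linarith)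
      have h11 : 0 ≤ θ ^ k := by rw [hθ]; positivity
      nlinarith
    have h10 : Z ≤ Z * 2 ^ w := by nlinarith
    have h11 : 0 ≤ ρ * θ ^ k * QQ k R b w (2 * (Vf z * ((k - 1) * D + 1 : ℕ))) :=
      mul_nonneg (mul_nonneg hρ0 (by rw [hθ]; positivity)) hQ0
    have h12 : (0 : ℝ) ≤ Nc w z k d A X a := Nat.cast_nonneg _
    have h13 : 0 ≤ ρ * θ ^ k := by rw [hθ]; positivity
    rw [abs_le]
    constructor
    · nlinarith
    · nlinarith
  · rw [if_neg hbad, add_zero]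
    have h1 := loc_est (S := Sp w z) hw2 hS hkR (cls := cls) (P := Pp w z) (K := Kd k d) (J := Jd w k d a) (k := k) hρ0
      (show (0 : ℝ) ≤ (1 / 2 : ℝ) ^ b by positivity) hβ1 hZ0 hFU
    rw [← hθ, ← hNc] at h1
    refine h1.trans (add_le_add ?_ ?_)
    · refine mul_le_mul_of_nonneg_left ?_ (by rw [hθ]; positivity)
      have h2 := QQ_mono k R b w (B := θ * (Jd w k d a).card) (B' := 2 * (Vf z * ((k - 1) * D + 1 : ℕ))) (by rw [hθ]; positivity) (by
        have h3 := card_Jd (w := w) hk hd hRP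
        have h4 : (Jd w k d a).card ≤ Wf w (a + (PQ w - 1)) ((k - 1) * D + 1) := by
          have h5 : Wf w (a + (PQ w - 1)) ((k - 1) * d + 1) ≤ Wf w (a + (PQ w - 1)) ((k - 1) * D + 1) := Wf_mono w _ (by omega)
          omega
        have h5 : (Wf w (a + (PQ w - 1)) ((k - 1) * D + 1) : ℝ) ≤ 2 * (Vf w * ((k - 1) * D + 1 : ℕ)) := by
          by_contra hcon
          push Not at hcon
          refine hbad ?_
          unfold bad
          rw [mem_filter, mem_range]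
          exact ⟨ha, hcon⟩
        have h6 : ((Jd w k d a).card : ℝ) ≤ Wf w (a + (PQ w - 1)) ((k - 1) * D + 1) := by exact_mod_cast h4
        have h7 := mul_le_mul_of_nonneg_left (h6.trans h5) (show 0 ≤ θ by rw [hθ]; exact hth0.le)
        refine h7.trans (le_of_eq ?_)
        rw [← th_Vf hwz, ← hθ]
        ring)
      exact h2
    · refine mul_le_mul_of_nonneg_left ?_ hZ0
      exact pow_le_pow_right₀ (by norm_num) hJcard

end Pool.Agent.H38.TO
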