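import Pool.Agent.H38.TO.K
import Pool.Agent.H38.RC.D

/-!
# Runs of rough integers: the sum over the classes and the differences
-/

set_option autoImplicit false

namespace Pool.Agent.H38.TO

open Finset Filter Pool.Agent.Q120.MG Pool.Agent.Q120.CL Pool.Agent.H38.LR Pool.Agent.H38.RC

open Classical in
/-- the main term -/
theorem main_term {w k d : ℕ} {θ : ℝ} (h0 : 0 < θ) (h1 : θ < 1) (hk : 1 ≤ k) (hd : 1 ≤ d) (X : ℝ) :
    ∑ a ∈ (range (PQ w)).filter (fun a => RP w k d a), X / PQ w * (θ ^ k * (1 - θ) ^ (Jd w k d a).card) =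
      X * ((θ / (1 - θ)) ^ k * Fw w k d (-Real.log (1 - θ))) := by
  have h2 : 0 < 1 - θ := by linarith
  have h3 : ∀ a ∈ (range (PQ w)).filter (fun a => RP w k d a), X / PQ w * (θ ^ k * (1 - θ) ^ (Jd w k d a).card) =
      X / PQ w * (θ / (1 - θ)) ^ k * gw w k d (-Real.log (1 - θ)) a := by
    intro a ha
    rw [mem_filter] at ha
    have h4 := card_Jd (w := w) hk hd ha.2
    unfold gw
    rw [if_pos ha.2]
    unfold Wn
    rw [← h4]
    have h5 : Real.exp (-(-Real.log (1 - θ) * (((Jd w k d a).card + k : ℕ) : ℝ))) = (1 - θ) ^ ((Jd w k d a).card + k) := by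
      rw [neg_mul, neg_neg, mul_comm, Real.exp_nat_mul, Real.exp_log h2]
    rw [h5, pow_add, div_pow]
    field_simp
  rw [sum_congr rfl h3, ← mul_sum]
  unfold Fw
  have h4 : ∑ a ∈ (range (PQ w)).filter (fun a => RP w k d a), gw w k d (-Real.log (1 - θ)) a =
      ∑ a ∈ range (PQ w), gw w k d (-Real.log (1 - θ)) a := by
    rw [sum_filter]
    refine sum_congr rfl fun a _ => ?_
    unfold gw
    split_ifs <;> rfl
  rw [h4]
  ring

open Classical in
/-- **The main inequality.** -/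
theorem main_ineq : ∃ C : ℕ, 1 ≤ C ∧ ∀ k R b w z D : ℕ, 1 ≤ k → C * (k + R + 1) ≤ b → C * (k + R + 1) < w → k + R ≤ w → w ≤ z → 2 ≤ w →
    (k - 1) * D + 1 ≤ w → th (Sp w z) < 1 → ∀ A X : ℕ,
      |∑ d ∈ Icc 1 D, (cnt z k d A X : ℝ) - X * ((th (Sp w z) / (1 - th (Sp w z))) ^ k * ∑ d ∈ Icc 1 D, Fw w k d (-Real.log (1 - th (Sp w z))))| ≤
        X * (th (Sp w z) ^ k * (QQ k R b w (2 * (Vf z * ((k - 1) * D + 1 : ℕ))) * ∑ d ∈ Icc 1 D, (rho w k d : ℝ) / PQ w +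
          6 * D / (Vf w * ((k - 1) * D + 1 : ℕ)))) + D * (PQ w * ((z : ℝ) ^ (2 * C * b) * 2 ^ w)) := by
  obtain ⟨C, hC, hE⟩ := Nc_est
  refine ⟨C, hC, ?_⟩
  intro k R b w z D hk hb hw hkR hwz hw2 hD hth1 A X
  have hP : (0 : ℝ) < PQ w := by exact_mod_cast PQ_pos w
  have hV := Vf_pos w
  have hth0 := th_pos (S := Sp w z) fun p hp => by have := (mem_Sp.1 hp).1; omega
  obtain ⟨θ, hθ⟩ : ∃ θ, θ = th (Sp w z) := ⟨_, rfl⟩
  obtain ⟨H, hH⟩ : ∃ H : ℕ, H = (k - 1) * D + 1 := ⟨_, rfl⟩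
  have hH1 : 1 ≤ H := by omega
  obtain ⟨Q, hQ⟩ : ∃ Q, Q = QQ k R b w (2 * (Vf z * (H : ℕ))) := ⟨_, rfl⟩
  have hQ0 : 0 ≤ Q := by
    rw [hQ]
    have := Vf_pos z
    exact QQ_nonneg _ _ _ _ (by positivity)
  obtain ⟨ZZ, hZZ⟩ : ∃ ZZ : ℝ, ZZ = (z : ℝ) ^ (2 * C * b) * 2 ^ w := ⟨_, rfl⟩
  have hZZ0 : 0 ≤ ZZ := by rw [hZZ]; positivity
  rw [← hθ] at hth0 hth1 ⊢
  rw [← hH, ← hQ, ← hZZ]
  have hper : ∀ d ∈ Icc 1 D, |(cnt z k d A X : ℝ) - X * ((θ / (1 - θ)) ^ k * Fw w k d (-Real.log (1 - θ)))| ≤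
      X * (θ ^ k * (Q * ((rho w k d : ℝ) / PQ w))) + X * (θ ^ k * (6 / (Vf w * H))) + PQ w * ZZ := by
    intro d hd
    rw [mem_Icc] at hd
    rw [cnt_eq hwz hk, Nat.cast_sum, ← main_term hth0 hth1 hk hd.1 (X : ℝ), ← sum_sub_distrib]
    have h1 : ∀ a ∈ (range (PQ w)).filter (fun a => RP w k d a), |(Nc w z k d A X a : ℝ) - (X : ℝ) / PQ w * (θ ^ k * (1 - θ) ^ (Jd w k d a).card)| ≤
        (X : ℝ) / PQ w * θ ^ k * (Q + (if a ∈ bad w H then 2 else 0)) + ZZ := by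
      intro a ha
      rw [mem_filter, mem_range] at ha
      have h := hE k R b w z D hk hb hw hkR hwz hw2 hD A X d a hd.1 hd.2 ha.1 ha.2
      rw [← hθ, ← hH, ← hQ, ← hZZ] at h
      exact h
    refine (abs_sum_le_sum_abs _ _).trans ((sum_le_sum h1).trans ?_)
    rw [sum_add_distrib, ← mul_sum, sum_add_distrib, sum_const, sum_const, nsmul_eq_mul, nsmul_eq_mul]
    have h2 : (((range (PQ w)).filter (fun a => RP w k d a)).card : ℝ) = rho w k d := by
      unfold rho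
      rfl
    have h3 : (rho w k d : ℝ) ≤ PQ w := by exact_mod_cast rho_le w k d
    rw [h2]
    have h4 : ∑ a ∈ (range (PQ w)).filter (fun a => RP w k d a), (if a ∈ bad w H then (2 : ℝ) else 0) ≤ 2 * (PQ w * (3 / (Vf w * H))) := by
      calc ∑ a ∈ (range (PQ w)).filter (fun a => RP w k d a), (if a ∈ bad w H then (2 : ℝ) else 0)
          ≤ ∑ a ∈ range (PQ w), (if a ∈ bad w H then (2 : ℝ) else 0) :=
            sum_le_sum_of_subset_of_nonneg (filter_subset _ _) fun a _ _ => by split_ifs <;> norm_num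
        _ = 2 * ((bad w H).card : ℝ) := by
            rw [← sum_filter, sum_const, nsmul_eq_mul, mul_comm]
            congr 3
            ext a
            rw [mem_filter]
            unfold bad
            rw [mem_filter]
            tauto
        _ ≤ 2 * (PQ w * (3 / (Vf w * H))) := mul_le_mul_of_nonneg_left (card_bad hH1) (by norm_num)
    have h5 : (rho w k d : ℝ) * ZZ ≤ PQ w * ZZ := mul_le_mul_of_nonneg_right h3 hZZ0
    have h6 : (X : ℝ) / PQ w * θ ^ k * ∑ a ∈ (range (PQ w)).filter (fun a => RP w k d a), (if a ∈ bad w H then (2 : ℝ) else 0) ≤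
        (X : ℝ) / PQ w * θ ^ k * (2 * (PQ w * (3 / (Vf w * H)))) := mul_le_mul_of_nonneg_left h4 (by positivity)
    have h7 : (X : ℝ) / PQ w * θ ^ k * (2 * (PQ w * (3 / (Vf w * H)))) = X * (θ ^ k * (6 / (Vf w * H))) := by
      field_simp
      ring
    rw [h7] at h6
    have h8 : (X : ℝ) / PQ w * θ ^ k * (rho w k d * Q) = X * (θ ^ k * (Q * ((rho w k d : ℝ) / PQ w))) := by ring
    rw [mul_add, h8]
    linarith
  have h1 : ∑ d ∈ Icc 1 D, (cnt z k d A X : ℝ) - X * ((θ / (1 - θ)) ^ k * ∑ d ∈ Icc 1 D, Fw w k d (-Real.log (1 - θ))) =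
      ∑ d ∈ Icc 1 D, ((cnt z k d A X : ℝ) - X * ((θ / (1 - θ)) ^ k * Fw w k d (-Real.log (1 - θ)))) := by
    rw [sum_sub_distrib, ← mul_sum, ← mul_sum]
  rw [h1]
  refine (abs_sum_le_sum_abs _ _).trans ((sum_le_sum hper).trans (le_of_eq ?_))
  rw [sum_add_distrib, sum_add_distrib, ← mul_sum, ← mul_sum, ← mul_sum, sum_const, sum_const, Nat.card_Icc, Nat.add_sub_cancel,
    nsmul_eq_mul, nsmul_eq_mul]
  ring

open Classical in
/-- the runs with different differences begin at different integers -/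
theorem union_cnt {k : ℕ} (hk : 2 ≤ k) (z D A X : ℕ) :
    ((Ioc A (A + X)).filter (fun n => ∃ d, 1 ≤ d ∧ d ≤ D ∧ Run {m | Rough z m} n k d)).card = ∑ d ∈ Icc 1 D, cnt z k d A X := by
  have h1 : (Ioc A (A + X)).filter (fun n => ∃ d, 1 ≤ d ∧ d ≤ D ∧ Run {m | Rough z m} n k d) =
      (Icc 1 D).biUnion (fun d => (Ioc A (A + X)).filter (fun n => Run {m | Rough z m} n k d)) := by
    ext n
    rw [mem_filter, mem_biUnion]
    constructor
    · rintro ⟨h1, d, h2, h3, h4⟩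
      exact ⟨d, mem_Icc.2 ⟨h2, h3⟩, mem_filter.2 ⟨h1, h4⟩⟩
    · rintro ⟨d, hd, hn⟩
      rw [mem_filter] at hn
      rw [mem_Icc] at hd
      exact ⟨hn.1, d, hd.1, hd.2, hn.2⟩
  rw [h1, card_biUnion]
  · rfl
  · intro d hd d' hd' hne
    rw [Function.onFun, Finset.disjoint_left]
    intro n hn hn'
    rw [mem_filter] at hn hn'
    rw [mem_coe, mem_Icc] at hd hd'
    exact hne (run_unique hk hd.1 hd'.1 hn.2 hn'.2)

end Pool.Agent.H38.TO
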