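import Pool.Agent.H38.TO.M

/-!
# Runs of rough integers: the parameters
-/

set_option autoImplicit false

namespace Pool.Agent.H38.TO

open Finset Filter Pool.Agent.Q120.MG Pool.Agent.Q120.CL Pool.Agent.H38.LR Pool.Agent.H38.RC
open scoped Topology

theorem log_top : Tendsto (fun z : ℕ => Real.log z) atTop atTop := Real.tendsto_log_atTop.comp tendsto_natCast_atTop_atTop

/-- the constant of Mertens -/
theorem V_bounds : ∃ g : ℝ, 0 < g ∧ ∀ᶠ z : ℕ in atTop, g ≤ Vf z * Real.log z ∧ Vf z * Real.log z ≤ 4 * g := by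
  refine ⟨Real.exp (-Real.eulerMascheroniConstant) / 2, by positivity, ?_⟩
  have h := Vf_lim
  have h0 : 0 < Real.exp (-Real.eulerMascheroniConstant) := Real.exp_pos _
  filter_upwards [h.eventually (lt_mem_nhds (show Real.exp (-Real.eulerMascheroniConstant) / 2 < Real.exp (-Real.eulerMascheroniConstant) by linarith)),
    h.eventually (gt_mem_nhds (show Real.exp (-Real.eulerMascheroniConstant) < 2 * Real.exp (-Real.eulerMascheroniConstant) by linarith))] with z h1 h2
  exact ⟨h1.le, by linarith⟩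

theorem V_zero : Tendsto (fun z : ℕ => Vf z) atTop (𝓝 0) := by
  have h := Vf_lim.div_atTop log_top
  refine h.congr' ?_
  filter_upwards [log_top.eventually_ge_atTop 1] with z hz
  have : Real.log (z : ℝ) ≠ 0 := by linarith
  field_simp

/-- the largest difference -/
noncomputable def Dz (u : ℝ) (z : ℕ) : ℕ := ⌊u / Vf z⌋₊

/-- the small primes -/
noncomputable def wz (k : ℕ) (u : ℝ) (z : ℕ) : ℕ := (k - 1) * Dz u z + 1

variable {k : ℕ} {u : ℝ}

theorem DV_lim (hu : 0 < u) : Tendsto (fun z => (Dz u z : ℝ) * Vf z) atTop (𝓝 u) := by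
  have h1 : Tendsto (fun z : ℕ => u - Vf z) atTop (𝓝 u) := by simpa using V_zero.const_sub u
  refine tendsto_of_tendsto_of_tendsto_of_le_of_le h1 tendsto_const_nhds (fun z => ?_) (fun z => ?_)
  · have hV := Vf_pos z
    have h2 := Nat.lt_floor_add_one (u / Vf z)
    have h3 : u / Vf z * Vf z = u := by field_simp
    have h4 : u / Vf z * Vf z ≤ ((Dz u z : ℝ) + 1) * Vf z := mul_le_mul_of_nonneg_right h2.le hV.le
    simp only
    linarith
  · have hV := Vf_pos z
    have h2 := Nat.floor_le (show 0 ≤ u / Vf z by positivity)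
    have h3 : u / Vf z * Vf z = u := by field_simp
    have h4 : (Dz u z : ℝ) * Vf z ≤ u / Vf z * Vf z := mul_le_mul_of_nonneg_right h2 hV.le
    simp only
    linarith

theorem DV_le (hu : 0 < u) (z : ℕ) : (Dz u z : ℝ) * Vf z ≤ u := by
  have hV := Vf_pos z
  have h2 := Nat.floor_le (show 0 ≤ u / Vf z by positivity)
  have h3 : u / Vf z * Vf z = u := by field_simp
  have h4 : (Dz u z : ℝ) * Vf z ≤ u / Vf z * Vf z := mul_le_mul_of_nonneg_right h2 hV.le
  linarith

theorem wz_cast (hk : 1 ≤ k) (z : ℕ) : (wz k u z : ℝ) = ((k : ℝ) - 1) * Dz u z + 1 := by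
  unfold wz
  push_cast [Nat.cast_sub hk]
  ring

theorem wV_le (hk : 1 ≤ k) (hu : 0 < u) (z : ℕ) : Vf z * wz k u z ≤ ((k : ℝ) - 1) * u + 1 := by
  rw [wz_cast hk]
  have hk' : (1 : ℝ) ≤ k := by exact_mod_cast hk
  have h1 := mul_le_mul_of_nonneg_left (DV_le hu z) (show 0 ≤ (k : ℝ) - 1 by linarith)
  have h2 := Vf_le_one z
  nlinarith

theorem Dz_top (hu : 0 < u) : Tendsto (fun z => Dz u z) atTop atTop := by
  have h1 : Tendsto (fun z : ℕ => u / Vf z) atTop atTop := by
    have h2 : Tendsto (fun z : ℕ => (Vf z)⁻¹) atTop atTop :=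
      (tendsto_nhdsWithin_iff.2 ⟨V_zero, Eventually.of_forall fun z => Vf_pos z⟩).inv_tendsto_nhdsGT_zero
    have h3 := h2.const_mul_atTop hu
    exact h3.congr fun z => by rw [div_eq_mul_inv]
  exact tendsto_nat_floor_atTop.comp h1

theorem wz_top (hk : 2 ≤ k) (hu : 0 < u) : Tendsto (fun z => wz k u z) atTop atTop := by
  refine tendsto_atTop_mono (fun z => ?_) (Dz_top hu)
  unfold wz
  have : 1 * Dz u z ≤ (k - 1) * Dz u z := Nat.mul_le_mul_right _ (by omega)
  omega

theorem wz_le_log (hk : 1 ≤ k) (hu : 0 < u) : ∃ C : ℝ, 1 ≤ C ∧ ∀ᶠ z : ℕ in atTop, (wz k u z : ℝ) ≤ C * Real.log z := by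
  obtain ⟨g, hg, h⟩ := V_bounds
  have hk' : (1 : ℝ) ≤ k := by exact_mod_cast hk
  refine ⟨((((k : ℝ) - 1) * u + 1) / g) + 1, ?_, ?_⟩
  · have : 0 ≤ (((k : ℝ) - 1) * u + 1) / g := by
      have : 0 ≤ (k : ℝ) - 1 := by linarith
      positivity
    linarith
  filter_upwards [h, log_top.eventually_ge_atTop 1] with z hz hq
  have hV := Vf_pos z
  have h1 := wV_le hk hu z
  have h2 : g * (wz k u z) ≤ (((k : ℝ) - 1) * u + 1) * Real.log z := by
    calc g * (wz k u z) ≤ (Vf z * Real.log z) * wz k u z := mul_le_mul_of_nonneg_right hz.1 (Nat.cast_nonneg _)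
      _ = (Vf z * wz k u z) * Real.log z := by ring
      _ ≤ _ := mul_le_mul_of_nonneg_right h1 (by linarith)
  have h3 : (wz k u z : ℝ) ≤ (((k : ℝ) - 1) * u + 1) / g * Real.log z := by
    rw [div_mul_eq_mul_div, le_div_iff₀ hg]
    linarith
  linarith

theorem wz_le (hk : 1 ≤ k) (hu : 0 < u) : ∀ᶠ z : ℕ in atTop, wz k u z ≤ z := by
  obtain ⟨C, hC, h⟩ := wz_le_log hk hu
  filter_upwards [h, log_ev (show 0 < 1 / C by positivity)] with z h1 h2
  have h3 : C * Real.log z ≤ C * (1 / C * z) := mul_le_mul_of_nonneg_left h2 (by linarith)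
  have h4 : C * (1 / C * z) = z := by field_simp
  have h5 : (wz k u z : ℝ) ≤ z := by linarith
  exact_mod_cast h5

/-- powers of `log w` are negligible -/
theorem logw_lim (hk : 2 ≤ k) (hu : 0 < u) (m : ℕ) :
    Tendsto (fun z : ℕ => Real.log (wz k u z) ^ m / Real.sqrt (Real.log z)) atTop (𝓝 0) := by
  obtain ⟨C, hC, h⟩ := wz_le_log (k := k) (by omega) hu
  have h1 : Tendsto (fun y : ℝ => Real.log y ^ m / Real.sqrt y) atTop (𝓝 0) := by
    have h2 := (isLittleO_log_rpow_rpow_atTop (m : ℝ) (show (0 : ℝ) < 1 / 2 by norm_num)).tendsto_div_nhds_zero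
    refine h2.congr fun y => ?_
    rw [Real.rpow_natCast, Real.sqrt_eq_rpow]
  have h2 : Tendsto (fun z : ℕ => C * Real.log z) atTop atTop := log_top.const_mul_atTop (by linarith)
  have h3 := (h1.comp h2).const_mul (Real.sqrt C)
  rw [mul_zero] at h3
  refine tendsto_of_tendsto_of_tendsto_of_le_of_le' tendsto_const_nhds h3 ?_ ?_
  · filter_upwards with z
    have : 0 ≤ Real.log (wz k u z : ℝ) := Real.log_natCast_nonneg _
    positivity
  · filter_upwards [h, log_top.eventually_ge_atTop 1] with z h4 h5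
    have hw : (1 : ℝ) ≤ wz k u z := by
      have : 1 ≤ wz k u z := by unfold wz; omega
      exact_mod_cast this
    have h6 : Real.log (wz k u z) ≤ Real.log (C * Real.log z) := Real.log_le_log (by linarith) h4
    have h7 : 0 ≤ Real.log (wz k u z : ℝ) := Real.log_natCast_nonneg _
    have h8 := pow_le_pow_left₀ h7 h6 m
    simp only [Function.comp]
    have hC0 : 0 < Real.sqrt C := Real.sqrt_pos.2 (by linarith)
    have hz0 : 0 < Real.sqrt (Real.log z) := Real.sqrt_pos.2 (by linarith)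
    rw [Real.sqrt_mul (by linarith)]
    have h9 : Real.sqrt C * (Real.log (C * Real.log z) ^ m / (Real.sqrt C * Real.sqrt (Real.log z))) = Real.log (C * Real.log z) ^ m / Real.sqrt (Real.log z) := by
      field_simp
    rw [h9]
    exact div_le_div_of_nonneg_right h8 hz0.le

/-- `1 / V (w)` is at most a multiple of `log w` -/
theorem ell_le (hk : 2 ≤ k) (hu : 0 < u) : ∃ C : ℝ, 1 ≤ C ∧ ∀ᶠ z : ℕ in atTop, 1 / Vf (wz k u z) ≤ C * Real.log (wz k u z) := by
  obtain ⟨C, hC, h⟩ := Vf_ge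
  refine ⟨C + 1, by linarith, ?_⟩
  filter_upwards [(wz_top hk hu).eventually h] with z hz
  have h1 := hz (wz k u z) le_rfl
  have h2 : 0 ≤ Real.log (wz k u z : ℝ) := Real.log_natCast_nonneg _
  linarith

/-- a power of `1 / V (w)` times `V (z)` tends to zero, with a root of the logarithm to spare -/
theorem Vl_lim (hk : 2 ≤ k) (hu : 0 < u) (m : ℕ) :
    Tendsto (fun z : ℕ => Vf z * (1 / Vf (wz k u z)) ^ m * Real.sqrt (Real.log z)) atTop (𝓝 0) := by
  obtain ⟨C, hC, h⟩ := ell_le hk hu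
  obtain ⟨g, hg, hV⟩ := V_bounds
  have h1 := (logw_lim hk hu m).const_mul (4 * g * C ^ m)
  rw [mul_zero] at h1
  refine tendsto_of_tendsto_of_tendsto_of_le_of_le' tendsto_const_nhds h1 ?_ ?_
  · filter_upwards with z
    have := Vf_pos z
    have := Vf_pos (wz k u z)
    positivity
  · filter_upwards [h, hV, log_top.eventually_ge_atTop 1] with z h2 h3 h4
    have hVz := Vf_pos z
    have hVw := Vf_pos (wz k u z)
    have h5 := pow_le_pow_left₀ (show 0 ≤ 1 / Vf (wz k u z) by positivity) h2 m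
    rw [mul_pow] at h5
    have hs : 0 < Real.sqrt (Real.log z) := Real.sqrt_pos.2 (by linarith)
    have hss : Real.sqrt (Real.log z) * Real.sqrt (Real.log z) = Real.log z := Real.mul_self_sqrt (by linarith)
    have h6 : Vf z * Real.sqrt (Real.log z) ≤ 4 * g / Real.sqrt (Real.log z) := by
      rw [le_div_iff₀ hs, mul_assoc, hss]
      exact h3.2
    have h7 : 0 ≤ Real.log (wz k u z : ℝ) := Real.log_natCast_nonneg _
    calc Vf z * (1 / Vf (wz k u z)) ^ m * Real.sqrt (Real.log z) = (Vf z * Real.sqrt (Real.log z)) * (1 / Vf (wz k u z)) ^ m := by ring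
      _ ≤ (4 * g / Real.sqrt (Real.log z)) * (C ^ m * Real.log (wz k u z) ^ m) := mul_le_mul h6 h5 (by positivity) (by positivity)
      _ = _ := by ring

theorem Vl_lim' (hk : 2 ≤ k) (hu : 0 < u) (m : ℕ) : Tendsto (fun z : ℕ => Vf z * (1 / Vf (wz k u z)) ^ m) atTop (𝓝 0) := by
  refine tendsto_of_tendsto_of_tendsto_of_le_of_le' tendsto_const_nhds (Vl_lim hk hu m) ?_ ?_
  · filter_upwards with z
    have := Vf_pos z
    have := Vf_pos (wz k u z)
    positivity
  · filter_upwards [log_top.eventually_ge_atTop 1] with z h4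
    have hVz := Vf_pos z
    have hVw := Vf_pos (wz k u z)
    have hs : 1 ≤ Real.sqrt (Real.log z) := Real.one_le_sqrt.2 h4
    have : 0 ≤ Vf z * (1 / Vf (wz k u z)) ^ m := by positivity
    nlinarith

theorem th_eq {w z : ℕ} (h : w ≤ z) : th (Sp w z) = Vf z / Vf w := by
  rw [eq_div_iff (Vf_pos w).ne']
  exact th_Vf h

/-- the density of the integers without prime factors in `[w, z)` -/
theorem th_lim (hk : 2 ≤ k) (hu : 0 < u) : Tendsto (fun z : ℕ => th (Sp (wz k u z) z)) atTop (𝓝 0) := by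
  refine (Vl_lim' hk hu 1).congr' ?_
  filter_upwards [wz_le (k := k) (by omega) hu] with z hz
  rw [th_eq hz]
  ring

end Pool.Agent.H38.TO
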