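import Pool.Agent.H38.TO.N

/-!
# Runs of rough integers: the limit of the main term
-/

set_option autoImplicit false

namespace Pool.Agent.H38.TO

open Finset Filter Pool.Agent.Q120.MG Pool.Agent.Q120.CL Pool.Agent.H38.LR Pool.Agent.H38.RC
open scoped Topology

variable {k : ℕ} {u : ℝ}

/-- `- log (1 - θ)` -/
noncomputable def bz (k : ℕ) (u : ℝ) (z : ℕ) : ℝ := -Real.log (1 - th (Sp (wz k u z) z))

theorem th_small (hk : 2 ≤ k) (hu : 0 < u) : ∀ᶠ z : ℕ in atTop, 0 < th (Sp (wz k u z) z) ∧ th (Sp (wz k u z) z) ≤ 1 / 2 := by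
  filter_upwards [(th_lim hk hu).eventually (gt_mem_nhds (show (0 : ℝ) < 1 / 2 by norm_num)), (wz_top hk hu).eventually_ge_atTop 2] with z h1 h2
  exact ⟨th_pos fun p hp => by have := (mem_Sp.1 hp).1; omega, h1.le⟩

theorem bz_zero (hk : 2 ≤ k) (hu : 0 < u) : Tendsto (fun z => bz k u z) atTop (𝓝 0) := by
  have h1 : Tendsto (fun z : ℕ => 1 - th (Sp (wz k u z) z)) atTop (𝓝 1) := by simpa using (th_lim hk hu).const_sub 1
  have h2 := ((Real.continuousAt_log (x := 1) (by norm_num)).tendsto.comp h1).neg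
  rw [Real.log_one, neg_zero] at h2
  exact h2

theorem bz_pos (hk : 2 ≤ k) (hu : 0 < u) : ∀ᶠ z in atTop, 0 < bz k u z := by
  filter_upwards [th_small hk hu] with z hz
  have := Real.log_neg (show 0 < 1 - th (Sp (wz k u z) z) by linarith) (by linarith)
  unfold bz
  linarith

theorem bz_ratio (hk : 2 ≤ k) (hu : 0 < u) : Tendsto (fun z => bz k u z / th (Sp (wz k u z) z)) atTop (𝓝 1) := by
  refine (frac_lim (bz_pos hk hu) (bz_zero hk hu)).congr' ?_
  filter_upwards [th_small hk hu] with z hz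
  have h1 : Real.exp (-(bz k u z)) = 1 - th (Sp (wz k u z) z) := by
    unfold bz
    rw [neg_neg, Real.exp_log (by linarith)]
  rw [h1, sub_sub_cancel]

/-- the length `Y` -/
noncomputable def Yz (k : ℕ) (u : ℝ) (z : ℕ) : ℝ := 1 / (Vf (wz k u z) * bz k u z)

theorem Yz_pos (hk : 2 ≤ k) (hu : 0 < u) : ∀ᶠ z in atTop, 0 < Yz k u z := by
  filter_upwards [bz_pos hk hu] with z hz
  have := Vf_pos (wz k u z)
  unfold Yz
  positivity

theorem Yz_b (hk : 2 ≤ k) (hu : 0 < u) : ∀ᶠ z in atTop, 1 / (Vf (wz k u z) * Yz k u z) = bz k u z := by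
  filter_upwards [bz_pos hk hu] with z hz
  have := Vf_pos (wz k u z)
  unfold Yz
  field_simp

/-- `Y V → 1` -/
theorem YV_lim (hk : 2 ≤ k) (hu : 0 < u) : Tendsto (fun z => 1 / (Yz k u z * Vf z)) atTop (𝓝 1) := by
  refine (bz_ratio hk hu).congr' ?_
  filter_upwards [bz_pos hk hu, wz_le (k := k) (by omega) hu] with z hz hw
  have := Vf_pos (wz k u z)
  have := Vf_pos z
  rw [th_eq hw]
  unfold Yz
  field_simp

theorem Yinv_lim (hk : 2 ≤ k) (hu : 0 < u) : Tendsto (fun z => 1 / Yz k u z) atTop (𝓝 0) := by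
  have h1 := (YV_lim hk hu).mul V_zero
  rw [mul_zero] at h1
  refine h1.congr' ?_
  filter_upwards [Yz_pos hk hu] with z hz
  have := Vf_pos z
  field_simp

/-- the main part -/
theorem main_part (hk : 2 ≤ k) (hu : 0 < u) {γ : ℝ} (hγ : Tendsto (fun z => gam z k) atTop (𝓝 γ)) :
    Tendsto (fun z : ℕ => 1 / Vf z ^ (k - 1) * ((th (Sp (wz k u z) z) / (1 - th (Sp (wz k u z) z))) ^ k *
      (Real.exp (-(1 / Yz k u z)) * ((R2 (wz k u z) k : ℝ) / (PQ (wz k u z) : ℝ) ^ 2 * SS (((k : ℝ) - 1) / Yz k u z) (Dz u z)))))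
      atTop (𝓝 (γ * ((1 - Real.exp (-(((k : ℝ) - 1) * u))) / ((k : ℝ) - 1)))) := by
  have hk' : (2 : ℝ) ≤ k := by exact_mod_cast hk
  have hs : (0 : ℝ) < (k : ℝ) - 1 := by linarith
  have hg : Tendsto (fun z : ℕ => gam (wz k u z) k) atTop (𝓝 γ) := hγ.comp (wz_top hk hu)
  -- the geometric sum
  have hGG := GG_lim (a := fun z => ((k : ℝ) - 1) / Yz k u z) (X := fun z => 1 / Vf z) (P := fun _ => 1) (M := fun z => Dz u z)
    (D := fun z => Dz u z) (s := (k : ℝ) - 1) (w := Real.exp (-(((k : ℝ) - 1) * u))) hs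
    (by filter_upwards [Yz_pos hk hu] with z hz; positivity)
    (by filter_upwards with z; have := Vf_pos z; positivity)
    (fun _ => one_pos)
    (by
      have h1 := (YV_lim hk hu).const_mul ((k : ℝ) - 1)
      rw [mul_one] at h1
      refine h1.congr' ?_
      filter_upwards [Yz_pos hk hu] with z hz
      have := Vf_pos z
      field_simp)
    (by
      refine V_zero.congr fun z => ?_
      have := Vf_pos z
      simp)
    (by filter_upwards with z; simp)
    (by filter_upwards with z; simp)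
    (by
      have h1 := (DV_lim hu).const_mul ((k : ℝ) - 1)
      have h2 := (Real.continuous_exp.tendsto _).comp h1.neg
      refine h2.congr fun z => ?_
      have := Vf_pos z
      simp only [Function.comp]
      congr 1
      field_simp)
  have hth1 : Tendsto (fun z : ℕ => 1 / (1 - th (Sp (wz k u z) z)) ^ k) atTop (𝓝 1) := by
    have h1 : Tendsto (fun z : ℕ => 1 - th (Sp (wz k u z) z)) atTop (𝓝 1) := by simpa using (th_lim hk hu).const_sub 1
    have h2 := (tendsto_const_nhds (x := (1 : ℝ)) (f := (atTop : Filter ℕ))).div (h1.pow k) (by norm_num)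
    rw [one_pow, div_one] at h2
    exact h2
  have he1 : Tendsto (fun z : ℕ => Real.exp (-(1 / Yz k u z))) atTop (𝓝 1) := by
    have h1 := (Real.continuous_exp.tendsto _).comp (Yinv_lim hk hu).neg
    rw [neg_zero, Real.exp_zero] at h1
    exact h1
  have he2 : Tendsto (fun z : ℕ => Real.exp (-(((k : ℝ) - 1) / Yz k u z))) atTop (𝓝 1) := by
    have h1 := (Real.continuous_exp.tendsto _).comp ((Yinv_lim hk hu).const_mul ((k : ℝ) - 1)).neg
    rw [mul_zero, neg_zero, Real.exp_zero] at h1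
    refine h1.congr fun z => ?_
    simp only [Function.comp]
    congr 2
    ring
  have h := ((((hth1.mul he1).mul hg).mul he2).mul hGG)
  rw [one_mul, one_mul, mul_one] at h
  refine h.congr' ?_
  filter_upwards [wz_le (k := k) (by omega) hu, th_small hk hu] with z hw hth
  have hVz := Vf_pos z
  have hVw := Vf_pos (wz k u z)
  have hP : (0 : ℝ) < PQ (wz k u z) := by exact_mod_cast PQ_pos (wz k u z)
  rw [R2_gam (by omega : 1 ≤ k), SS_GG, div_pow]
  have h1 : th (Sp (wz k u z) z) ^ k = Vf z ^ k / Vf (wz k u z) ^ k := by rw [th_eq hw, div_pow]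
  have h2 : Vf z ^ k = Vf z ^ (k - 1) * Vf z := by rw [← pow_succ]; congr 1; omega
  have h3 : (0 : ℝ) < (1 - th (Sp (wz k u z) z)) ^ k := pow_pos (by linarith) k
  obtain ⟨T, hT⟩ : ∃ T, T = (1 - th (Sp (wz k u z) z)) ^ k := ⟨_, rfl⟩
  rw [← hT] at h3 ⊢
  rw [h1, h2]
  simp only [Nat.cast_one]
  field_simp

/-- the error -/
theorem err_part (hk : 2 ≤ k) (hu : 0 < u) :
    Tendsto (fun z : ℕ => 1 / Vf z ^ (k - 1) * ((th (Sp (wz k u z) z) / (1 - th (Sp (wz k u z) z))) ^ k *
      (12 * (1 + Real.log (Dz u z)) / Vf (wz k u z) + 24 * Real.sqrt (Real.log z) / Vf (wz k u z) +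
        Yz k u z / Real.sqrt (Real.log z) + Vf (wz k u z)))) atTop (𝓝 0) := by
  have hk' : (2 : ℝ) ≤ k := by exact_mod_cast hk
  obtain ⟨g, hg, hV⟩ := V_bounds
  -- the bound
  have hl1 : Tendsto (fun z : ℕ => Vf z * (1 / Vf (wz k u z)) ^ (k + 1) * Real.sqrt (Real.log z)) atTop (𝓝 0) := Vl_lim hk hu (k + 1)
  obtain ⟨C, hC, hell⟩ := ell_le hk hu
  have hl2 : Tendsto (fun z : ℕ => 4 * g * C ^ (k + 1) * (Real.log (wz k u z) ^ (k + 2) / Real.sqrt (Real.log z))) atTop (𝓝 0) := by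
    have := (logw_lim hk hu (k + 2)).const_mul (4 * g * C ^ (k + 1))
    rwa [mul_zero] at this
  have hb : Tendsto (fun z : ℕ => 2 ^ k * ((12 * (Vf z * (1 / Vf (wz k u z)) ^ (k + 1) * Real.sqrt (Real.log z)) +
      12 * (4 * g * C ^ (k + 1) * (Real.log (wz k u z) ^ (k + 2) / Real.sqrt (Real.log z)))) +
      24 * (Vf z * (1 / Vf (wz k u z)) ^ (k + 1) * Real.sqrt (Real.log z)) +
      2 / g * (Vf z * (1 / Vf (wz k u z)) ^ (k + 1) * Real.sqrt (Real.log z)) +
      (Vf z * (1 / Vf (wz k u z)) ^ (k + 1) * Real.sqrt (Real.log z)))) atTop (𝓝 0) := by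
    have h1 := (((((hl1.const_mul 12).add (hl2.const_mul 12)).add (hl1.const_mul 24)).add (hl1.const_mul (2 / g))).add hl1).const_mul (2 ^ k)
    simpa using h1
  refine tendsto_of_tendsto_of_tendsto_of_le_of_le' tendsto_const_nhds hb ?_ ?_
  · filter_upwards [th_small hk hu, Yz_pos hk hu, Dz_top hu |>.eventually_ge_atTop 1] with z hth hY hD
    have hVz := Vf_pos z
    have hVw := Vf_pos (wz k u z)
    have h1 : 0 ≤ Real.log (Dz u z : ℝ) := Real.log_natCast_nonneg _
    have h2 : 0 ≤ th (Sp (wz k u z) z) / (1 - th (Sp (wz k u z) z)) := div_nonneg hth.1.le (by linarith)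
    positivity
  · filter_upwards [th_small hk hu, Yz_pos hk hu, wz_le (k := k) (by omega) hu, hV, hell, log_top.eventually_ge_atTop 1,
      ((Real.tendsto_log_atTop.comp tendsto_natCast_atTop_atTop).comp (wz_top hk hu)).eventually_ge_atTop 1, bz_ratio hk hu |>.eventually (lt_mem_nhds (show (1 / 2 : ℝ) < 1 by norm_num)),
      Dz_top hu |>.eventually_ge_atTop 1] with
      z hth hY hw hVb hl hq hlw hbr hD
    have hVz := Vf_pos z
    have hVw := Vf_pos (wz k u z)
    have hVw1 := Vf_le_one (wz k u z)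
    simp only [Function.comp] at hlw
    obtain ⟨q, hqd⟩ : ∃ q, q = Real.log (z : ℝ) := ⟨_, rfl⟩
    obtain ⟨s, hs⟩ : ∃ s, s = Real.sqrt (Real.log z) := ⟨_, rfl⟩
    obtain ⟨l, hld⟩ : ∃ l, l = 1 / Vf (wz k u z) := ⟨_, rfl⟩
    obtain ⟨v, hv⟩ : ∃ v, v = Vf z := ⟨_, rfl⟩
    obtain ⟨W, hW⟩ : ∃ W, W = Real.log (wz k u z : ℝ) := ⟨_, rfl⟩
    have hss : s * s = q := by rw [hs, hqd]; exact Real.mul_self_sqrt (by linarith)
    have hs1 : 1 ≤ s := by rw [hs]; exact Real.one_le_sqrt.2 hq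
    have hl1 : 1 ≤ l := by rw [hld, le_div_iff₀ hVw]; linarith
    have hv0 : 0 < v := by rw [hv]; exact hVz
    -- the factor
    have e1 : 1 / Vf z ^ (k - 1) * (th (Sp (wz k u z) z) / (1 - th (Sp (wz k u z) z))) ^ k ≤ 2 ^ k * (v * l ^ k) := by
      have h1 : th (Sp (wz k u z) z) / (1 - th (Sp (wz k u z) z)) ≤ 2 * (Vf z / Vf (wz k u z)) := by
        rw [← th_eq hw, div_le_iff₀ (by linarith)]
        nlinarith [hth.1, hth.2]
      have h2 := pow_le_pow_left₀ (div_nonneg hth.1.le (by linarith)) h1 k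
      have h3 : Vf z ^ k = Vf z ^ (k - 1) * Vf z := by rw [← pow_succ]; congr 1; omega
      calc 1 / Vf z ^ (k - 1) * (th (Sp (wz k u z) z) / (1 - th (Sp (wz k u z) z))) ^ k
          ≤ 1 / Vf z ^ (k - 1) * (2 * (Vf z / Vf (wz k u z))) ^ k := mul_le_mul_of_nonneg_left h2 (by positivity)
        _ = 2 ^ k * (v * l ^ k) := by
            rw [mul_pow, div_pow, h3, hld, hv, one_div_pow]
            field_simp
    have e2 : Real.log (Dz u z : ℝ) ≤ W := by
      rw [hW]
      refine Real.log_le_log (by exact_mod_cast hD) ?_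
      have : Dz u z ≤ wz k u z := by
        unfold wz
        have : 1 * Dz u z ≤ (k - 1) * Dz u z := Nat.mul_le_mul_right _ (by omega)
        omega
      exact_mod_cast this
    have e3 : Yz k u z ≤ 2 / v := by
      have hb := hbr
      rw [lt_div_iff₀ hth.1] at hb
      unfold Yz
      rw [hv, div_le_div_iff₀ (by nlinarith) hVz]
      have h4 : th (Sp (wz k u z) z) * Vf (wz k u z) = Vf z := th_Vf hw
      nlinarith
    have e4 : 1 / v ≤ s * s / g := by
      rw [hss, div_le_div_iff₀ hv0 hg, hv, hqd]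
      nlinarith [hVb.1]
    have e5 : 12 * (1 + Real.log (Dz u z)) / Vf (wz k u z) ≤ 12 * l * s + 12 * (l * W) := by
      have h1 : 12 * (1 + Real.log (Dz u z)) / Vf (wz k u z) = 12 * (1 + Real.log (Dz u z)) * l := by rw [hld]; ring
      rw [h1]
      have h2 : 12 * (1 + Real.log (Dz u z)) * l ≤ 12 * (1 + W) * l := mul_le_mul_of_nonneg_right (by linarith) (by linarith)
      nlinarith
    have e6 : 24 * Real.sqrt (Real.log z) / Vf (wz k u z) = 24 * (l * s) := by rw [hld, ← hs]; ring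
    have e7 : Yz k u z / Real.sqrt (Real.log z) ≤ 2 / g * (l * s) := by
      rw [← hs, div_le_iff₀ (by linarith)]
      have h1 : 2 / v ≤ 2 * (s * s / g) := by
        have : 2 / v = 2 * (1 / v) := by ring
        rw [this]
        linarith
      have h2 : 2 * (s * s / g) ≤ 2 / g * (l * s) * s := by
        have h3 : 2 / g * (l * s) * s = 2 * (s * s / g) * l := by ring
        rw [h3]
        have : 0 ≤ 2 * (s * s / g) := by positivity
        nlinarith
      linarith
    have e8 : Vf (wz k u z) ≤ l * s := by nlinarith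
    have e9 : 0 ≤ 2 ^ k * (v * l ^ k) := by positivity
    have e10 : 0 ≤ 12 * (1 + Real.log (Dz u z)) / Vf (wz k u z) + 24 * Real.sqrt (Real.log z) / Vf (wz k u z) +
        Yz k u z / Real.sqrt (Real.log z) + Vf (wz k u z) := by
      have : 0 ≤ Real.log (Dz u z : ℝ) := Real.log_natCast_nonneg _
      positivity
    have e11 : v * l ^ k * (l * W) ≤ 4 * g * C ^ (k + 1) * (W ^ (k + 2) / s) := by
      have hl' : l ≤ C * W := by rw [hld, hW]; exact hl
      have hW1 : 1 ≤ W := by rw [hW]; exact hlw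
      have h1 := pow_le_pow_left₀ (by linarith : 0 ≤ l) hl' (k + 1)
      rw [mul_pow] at h1
      have h2 : v * (s * s) ≤ 4 * g := by rw [hss, hv, hqd]; exact hVb.2
      have h3 : v ≤ 4 * g / s := by
        rw [le_div_iff₀ (by linarith)]
        nlinarith
      calc v * l ^ k * (l * W) = v * (l ^ (k + 1) * W) := by ring
        _ ≤ (4 * g / s) * ((C ^ (k + 1) * W ^ (k + 1)) * W) :=
            mul_le_mul h3 (mul_le_mul_of_nonneg_right h1 (by linarith)) (by positivity) (by positivity)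
        _ = _ := by ring
    rw [← mul_assoc]
    refine (mul_le_mul e1 (add_le_add (add_le_add (add_le_add e5 e6.le) e7) e8) e10 e9).trans ?_
    rw [← hv, ← hld, ← hs, ← hW]
    have e12 : 2 ^ k * (v * l ^ k) * (12 * l * s + 12 * (l * W) + 24 * (l * s) + 2 / g * (l * s) + l * s) =
        2 ^ k * (12 * (v * l ^ (k + 1) * s) + 12 * (v * l ^ k * (l * W)) + 24 * (v * l ^ (k + 1) * s) + 2 / g * (v * l ^ (k + 1) * s) + (v * l ^ (k + 1) * s)) := by ring
    rw [e12]
    refine mul_le_mul_of_nonneg_left ?_ (by positivity)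
    linarith

/-- **The limit of the main term.** -/
theorem main_lim (hk : 2 ≤ k) (hu : 0 < u) {γ : ℝ} (hγ : Tendsto (fun z => gam z k) atTop (𝓝 γ)) :
    Tendsto (fun z : ℕ => 1 / Vf z ^ (k - 1) * ((th (Sp (wz k u z) z) / (1 - th (Sp (wz k u z) z))) ^ k *
      ∑ d ∈ Icc 1 (Dz u z), Fw (wz k u z) k d (bz k u z)))
      atTop (𝓝 (γ * ((1 - Real.exp (-(((k : ℝ) - 1) * u))) / ((k : ℝ) - 1)))) := by
  have h1 := main_part hk hu hγ
  have h2 := err_part (k := k) hk hu
  have h3 := h1.sub h2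
  have h4 := h1.add h2
  rw [sub_zero] at h3
  rw [add_zero] at h4
  refine tendsto_of_tendsto_of_tendsto_of_le_of_le' h3 h4 ?_ ?_
  all_goals
    filter_upwards [Yz_pos hk hu, Yz_b hk hu, log_top.eventually_ge_atTop 1, th_small hk hu] with z hY hYb hq hth
    have hs : 0 < Real.sqrt (Real.log z) := Real.sqrt_pos.2 (by linarith)
    have hF := Fw_sum (wz k u z) (Dz u z) hk hY hs
    rw [hYb] at hF
    have hVz := Vf_pos z
    have hT : 0 ≤ 1 / Vf z ^ (k - 1) * (th (Sp (wz k u z) z) / (1 - th (Sp (wz k u z) z))) ^ k :=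
      mul_nonneg (by positivity) (pow_nonneg (div_nonneg hth.1.le (by linarith)) _)
    rw [abs_le] at hF
  · have h5 := mul_le_mul_of_nonneg_left hF.1 hT
    nlinarith
  · have h5 := mul_le_mul_of_nonneg_left hF.2 hT
    nlinarith

end Pool.Agent.H38.TO
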