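import Pool.Agent.H38.TO.O

/-!
# Runs of rough integers: the theorem
-/

set_option autoImplicit false

namespace Pool.Agent.H38.TO

open Finset Filter Pool.Agent.Q120.MG Pool.Agent.Q120.CL Pool.Agent.H38.LR Pool.Agent.H38.RC
open scoped Topology

variable {k : ℕ} {u : ℝ}

/-- the sum of the local densities -/
theorem rho_part (hk : 2 ≤ k) (hu : 0 < u) {γ : ℝ} (hγ : Tendsto (fun z => gam z k) atTop (𝓝 γ)) :
    ∀ᶠ z : ℕ in atTop, th (Sp (wz k u z) z) ^ k * ∑ d ∈ Icc 1 (Dz u z), (rho (wz k u z) k d : ℝ) / PQ (wz k u z) ≤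
      (u * γ + 1) * Vf z ^ (k - 1) := by
  have hg : Tendsto (fun z : ℕ => gam (wz k u z) k) atTop (𝓝 γ) := hγ.comp (wz_top hk hu)
  have h1 := (hg.const_mul u).add (Vl_lim' hk hu (k - 1))
  rw [add_zero] at h1
  filter_upwards [h1.eventually (gt_mem_nhds (show u * γ < u * γ + 1 by linarith)), wz_le (k := k) (by omega) hu] with z hz hw
  have hVz := Vf_pos z
  have hVw := Vf_pos (wz k u z)
  have hP : (0 : ℝ) < PQ (wz k u z) := by exact_mod_cast PQ_pos (wz k u z)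
  have h2 := (abs_le.1 (avg (wz k u z) (k := k) (by omega) (Dz u z))).2
  rw [R2_gam (by omega : 1 ≤ k)] at h2
  have h3 : gam (wz k u z) k * (PQ (wz k u z) : ℝ) ^ 2 * Vf (wz k u z) ^ k / (PQ (wz k u z) : ℝ) ^ 2 = gam (wz k u z) k * Vf (wz k u z) ^ k := by
    field_simp
  rw [h3] at h2
  have h4 : th (Sp (wz k u z) z) ^ k = Vf z ^ (k - 1) * Vf z / Vf (wz k u z) ^ k := by
    rw [th_eq hw, div_pow]
    congr 1
    rw [← pow_succ]
    congr 1
    omega
  have h5 : Vf (wz k u z) ^ k = Vf (wz k u z) ^ (k - 1) * Vf (wz k u z) := by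
    rw [← pow_succ]
    congr 1
    omega
  have h6 : 0 < th (Sp (wz k u z) z) ^ k := by rw [h4]; positivity
  have hγz := gam_pos (wz k u z) k
  calc th (Sp (wz k u z) z) ^ k * ∑ d ∈ Icc 1 (Dz u z), (rho (wz k u z) k d : ℝ) / PQ (wz k u z)
      ≤ th (Sp (wz k u z) z) ^ k * ((Dz u z : ℝ) * (gam (wz k u z) k * Vf (wz k u z) ^ k) + Vf (wz k u z)) :=
        mul_le_mul_of_nonneg_left (by linarith) h6.le
    _ = (((Dz u z : ℝ) * Vf z) * gam (wz k u z) k + Vf z * (1 / Vf (wz k u z)) ^ (k - 1)) * Vf z ^ (k - 1) := by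
        rw [h4, h5, one_div_pow]
        field_simp
    _ ≤ (u * gam (wz k u z) k + Vf z * (1 / Vf (wz k u z)) ^ (k - 1)) * Vf z ^ (k - 1) := by
        refine mul_le_mul_of_nonneg_right ?_ (by positivity)
        have := mul_le_mul_of_nonneg_right (DV_le hu z) hγz.le
        linarith
    _ ≤ _ := mul_le_mul_of_nonneg_right hz.le (by positivity)

/-- the exceptional classes -/
theorem bad_part (hk : 2 ≤ k) (hu : 0 < u) {ε : ℝ} (hε : 0 < ε) :
    ∀ᶠ z : ℕ in atTop, th (Sp (wz k u z) z) ^ k * (6 * Dz u z / (Vf (wz k u z) * (wz k u z : ℕ))) ≤ ε * Vf z ^ (k - 1) := by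
  have h1 := Vl_lim' hk hu (k + 1)
  filter_upwards [h1.eventually (gt_mem_nhds (show 0 < ε / 6 by positivity)), wz_le (k := k) (by omega) hu] with z hz hw
  have hVz := Vf_pos z
  have hVw := Vf_pos (wz k u z)
  have hwpos : 0 < (wz k u z : ℝ) := by
    have : 0 < wz k u z := by unfold wz; omega
    exact_mod_cast this
  have hDw : (Dz u z : ℝ) ≤ wz k u z := by
    have : Dz u z ≤ wz k u z := by
      unfold wz
      have : 1 * Dz u z ≤ (k - 1) * Dz u z := Nat.mul_le_mul_right _ (by omega)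
      omega
    exact_mod_cast this
  have h4 : th (Sp (wz k u z) z) ^ k = Vf z ^ (k - 1) * Vf z / Vf (wz k u z) ^ k := by
    rw [th_eq hw, div_pow]
    congr 1
    rw [← pow_succ]
    congr 1
    omega
  calc th (Sp (wz k u z) z) ^ k * (6 * Dz u z / (Vf (wz k u z) * (wz k u z : ℕ)))
      = 6 * (Vf z * (1 / Vf (wz k u z)) ^ (k + 1)) * Vf z ^ (k - 1) * ((Dz u z : ℝ) / wz k u z) := by
        rw [h4, one_div_pow, pow_succ (Vf (wz k u z))]
        field_simp
    _ ≤ 6 * (Vf z * (1 / Vf (wz k u z)) ^ (k + 1)) * Vf z ^ (k - 1) * 1 := by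
        refine mul_le_mul_of_nonneg_left ?_ (by positivity)
        rw [div_le_one hwpos]
        exact hDw
    _ ≤ ε * Vf z ^ (k - 1) := by
        rw [mul_one]
        refine mul_le_mul_of_nonneg_right ?_ (by positivity)
        linarith

/-- the absolute error -/
theorem abs_part (hk : 2 ≤ k) (hu : 0 < u) (c : ℕ) {ε : ℝ} (hε : 0 < ε) :
    ∃ c' : ℕ, ∀ᶠ z : ℕ in atTop, ∀ X : ℕ, z ^ c' ≤ X →
      Dz u z * (PQ (wz k u z) * ((z : ℝ) ^ c * 2 ^ wz k u z)) ≤ ε * (X * Vf z ^ (k - 1)) := by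
  obtain ⟨C, hC, hw⟩ := wz_le_log (k := k) (by omega) hu
  obtain ⟨g, hg, hV⟩ := V_bounds
  obtain ⟨m, hm⟩ : ∃ m : ℕ, 3 * C ≤ m := exists_nat_ge (3 * C)
  refine ⟨m + c + 2, ?_⟩
  have hlogk : ∀ᶠ z : ℕ in atTop, (1 / g * Real.log z) ^ (k - 1) ≤ z := by
    have h2 := (isLittleO_log_rpow_rpow_atTop ((k - 1 : ℕ) : ℝ) (show (0 : ℝ) < 1 by norm_num)).tendsto_div_nhds_zero
    have h3 := (h2.comp (tendsto_natCast_atTop_atTop (R := ℝ)))
    filter_upwards [h3.eventually (gt_mem_nhds (show (0 : ℝ) < g ^ (k - 1) by positivity)), eventually_ge_atTop 1] with z h4 h5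
    have hz : (0 : ℝ) < z := by exact_mod_cast h5
    simp only [Function.comp, Real.rpow_natCast, Real.rpow_one] at h4
    rw [div_lt_iff₀ hz] at h4
    rw [mul_pow, one_div_pow, one_div_mul_eq_div, div_le_iff₀ (by positivity)]
    linarith
  filter_upwards [hw, hV, hlogk, log_top.eventually_ge_atTop 1, tendsto_natCast_atTop_atTop (R := ℝ) |>.eventually_ge_atTop (1 / ε)] with z h1 h2 h3 h4 h5 X hX
  have hVz := Vf_pos z
  have hz1 : (1 : ℝ) ≤ z := by
    by_contra hcon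
    push Not at hcon
    have : Real.log z ≤ 0 := Real.log_nonpos (Nat.cast_nonneg _) hcon.le
    linarith
  have hz0 : (0 : ℝ) < z := by linarith
  -- the factors
  have e1 : (Dz u z : ℝ) ≤ 2 ^ wz k u z := by
    have : Dz u z ≤ 2 ^ wz k u z := by
      have h6 : Dz u z ≤ wz k u z := by
        unfold wz
        have : 1 * Dz u z ≤ (k - 1) * Dz u z := Nat.mul_le_mul_right _ (by omega)
        omega
      exact h6.trans (Nat.lt_two_pow_self).le
    exact_mod_cast this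
  have e2 : (PQ (wz k u z) : ℝ) ≤ 4 ^ wz k u z := by
    have : PQ (wz k u z) ≤ 4 ^ wz k u z := (PQ_dvd_primorial _).trans (primorial_le_four_pow _)
    exact_mod_cast this
  have e3 : (16 : ℝ) ^ wz k u z ≤ (z : ℝ) ^ m := by
    have h6 : Real.log 16 ≤ 3 := by
      have h7 : (16 : ℝ) = 2 ^ 4 := by norm_num
      rw [h7, Real.log_pow]
      have := Real.log_two_lt_d9
      push_cast
      linarith
    have h7 : (16 : ℝ) ^ wz k u z = Real.exp (wz k u z * Real.log 16) := by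
      rw [Real.exp_nat_mul, Real.exp_log (by norm_num)]
    have h8 : (z : ℝ) ^ m = Real.exp (m * Real.log z) := by
      rw [Real.exp_nat_mul, Real.exp_log hz0]
    rw [h7, h8, Real.exp_le_exp]
    calc (wz k u z : ℝ) * Real.log 16 ≤ wz k u z * 3 := mul_le_mul_of_nonneg_left h6 (Nat.cast_nonneg _)
      _ ≤ (C * Real.log z) * 3 := mul_le_mul_of_nonneg_right h1 (by norm_num)
      _ = (3 * C) * Real.log z := by ring
      _ ≤ m * Real.log z := mul_le_mul_of_nonneg_right hm (by linarith)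
  have e4 : (Dz u z : ℝ) * (PQ (wz k u z) * ((z : ℝ) ^ c * 2 ^ wz k u z)) ≤ (z : ℝ) ^ (m + c) := by
    calc (Dz u z : ℝ) * (PQ (wz k u z) * ((z : ℝ) ^ c * 2 ^ wz k u z))
        ≤ 2 ^ wz k u z * (4 ^ wz k u z * ((z : ℝ) ^ c * 2 ^ wz k u z)) :=
          mul_le_mul e1 (mul_le_mul_of_nonneg_right e2 (by positivity)) (by positivity) (by positivity)
      _ = 16 ^ wz k u z * (z : ℝ) ^ c := by
          have : (16 : ℝ) = 2 * 4 * 2 := by norm_num
          rw [this, mul_pow, mul_pow]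
          ring
      _ ≤ (z : ℝ) ^ m * (z : ℝ) ^ c := mul_le_mul_of_nonneg_right e3 (by positivity)
      _ = _ := by rw [pow_add]
  -- the lower bound for the main term
  have e5 : 1 / (z : ℝ) ≤ Vf z ^ (k - 1) := by
    have h6 : g / Real.log z ≤ Vf z := by
      rw [div_le_iff₀ (by linarith)]
      exact h2.1
    have h7 := pow_le_pow_left₀ (by positivity) h6 (k - 1)
    refine le_trans ?_ h7
    have h8 : (g / Real.log z) ^ (k - 1) = 1 / (1 / g * Real.log z) ^ (k - 1) := by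
      rw [one_div_mul_eq_div, div_pow, div_pow, one_div_div]
    rw [h8]
    exact one_div_le_one_div_of_le (by positivity) h3
  have e6 : (z : ℝ) ^ (m + c + 2) ≤ X := by exact_mod_cast hX
  have e7 : 1 ≤ ε * z := by
    rw [div_le_iff₀ hε] at h5
    linarith
  calc (Dz u z : ℝ) * (PQ (wz k u z) * ((z : ℝ) ^ c * 2 ^ wz k u z)) ≤ (z : ℝ) ^ (m + c) := e4
    _ ≤ (ε * z) * (z : ℝ) ^ (m + c) := by
        have : 0 ≤ (z : ℝ) ^ (m + c) := by positivity
        nlinarith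
    _ = ε * ((z : ℝ) ^ (m + c + 2) * (1 / z)) := by
        rw [pow_add _ (m + c) 2]
        field_simp
    _ ≤ ε * (X * Vf z ^ (k - 1)) := by
        refine mul_le_mul_of_nonneg_left ?_ hε.le
        exact mul_le_mul e6 e5 (by positivity) (by positivity)

/-- **The number of the runs of consecutive integers without small prime factors.** -/
theorem final (hk : 2 ≤ k) (hu : 0 < u) {γ : ℝ} (hγ : Tendsto (fun z => gam z k) atTop (𝓝 γ)) {ε : ℝ} (hε : 0 < ε) :
    ∃ c : ℕ, ∀ᶠ z : ℕ in atTop, ∀ A X : ℕ, z ^ c ≤ X →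
      |∑ d ∈ Icc 1 (Dz u z), (cnt z k d A X : ℝ) - X * Vf z ^ (k - 1) * (γ * ((1 - Real.exp (-(((k : ℝ) - 1) * u))) / ((k : ℝ) - 1)))| ≤
        ε * (X * Vf z ^ (k - 1)) := by
  obtain ⟨C, hC, hM⟩ := main_ineq
  have hγ0 : 0 ≤ γ := ge_of_tendsto' hγ fun z => (gam_pos z k).le
  obtain ⟨c4, hc4⟩ : ∃ c4, c4 = u * γ + 1 := ⟨_, rfl⟩
  have hc40 : 1 ≤ c4 := by rw [hc4]; nlinarith
  have hk' : (2 : ℝ) ≤ k := by exact_mod_cast hk
  obtain ⟨B, hB⟩ : ∃ B, B = 2 * (((k : ℝ) - 1) * u + 1) := ⟨_, rfl⟩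
  have hB0 : 0 < B := by
    rw [hB]
    have : 0 < ((k : ℝ) - 1) * u := mul_pos (by linarith) hu
    linarith
  -- the choice of `R`
  obtain ⟨R, hR⟩ : ∃ R : ℕ, B ^ R / R.factorial < ε / (24 * c4) :=
    ((FloorSemiring.tendsto_pow_div_factorial_atTop B).eventually (gt_mem_nhds (show 0 < ε / (24 * c4) by positivity))).exists
  -- the choice of `b`
  obtain ⟨b, hb1, hb2⟩ : ∃ b : ℕ, C * (k + R + 1) ≤ b ∧ (1 / 2 : ℝ) ^ b < ε / (8 * c4 * Real.exp B) := by
    have h1 := (tendsto_pow_atTop_nhds_zero_of_lt_one (show (0 : ℝ) ≤ 1 / 2 by norm_num) (by norm_num)).eventually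
      (gt_mem_nhds (show 0 < ε / (8 * c4 * Real.exp B) by positivity))
    obtain ⟨b, h2, h3⟩ := ((eventually_ge_atTop (C * (k + R + 1))).and h1).exists
    exact ⟨b, h2, h3⟩
  obtain ⟨c', hc'⟩ := abs_part hk hu (2 * C * b) (show 0 < ε / 8 by positivity)
  refine ⟨c', ?_⟩
  have hwR := (tendsto_natCast_atTop_atTop (R := ℝ)).comp (wz_top hk hu)
  have hmain := main_lim hk hu hγ
  rw [Metric.tendsto_nhds] at hmain
  filter_upwards [hc', hmain (ε / 8) (by positivity), rho_part hk hu hγ, bad_part hk hu (show 0 < ε / 8 by positivity),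
    th_small hk hu, wz_le (k := k) (by omega) hu, (wz_top hk hu).eventually_gt_atTop (C * (k + R + 1)),
    (wz_top hk hu).eventually_ge_atTop (k + R + 2),
    hwR.eventually_ge_atTop (2 * ((k : ℝ) + R) ^ 2 * (8 * c4 * Real.exp B) / ε)] with z h1 h2 h3 h4 h5 h6 h7 h8 h9 A X hX
  have hVz := Vf_pos z
  have hVw := Vf_pos (wz k u z)
  have hw0 : (0 : ℝ) < wz k u z := by
    have : 0 < wz k u z := by omega
    exact_mod_cast this
  have hM1 := hM k R b (wz k u z) z (Dz u z) (by omega) hb1 h7 (by omega) h6 (by omega) le_rfl (by linarith) A X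
  rw [Real.dist_eq] at h2
  have hX0 : (0 : ℝ) ≤ X := Nat.cast_nonneg _
  obtain ⟨v, hv⟩ : ∃ v, v = Vf z ^ (k - 1) := ⟨_, rfl⟩
  have hv0 : 0 < v := by rw [hv]; positivity
  obtain ⟨T, hT⟩ : ∃ T, T = γ * ((1 - Real.exp (-(((k : ℝ) - 1) * u))) / ((k : ℝ) - 1)) := ⟨_, rfl⟩
  obtain ⟨m, hm⟩ : ∃ m, m = (th (Sp (wz k u z) z) / (1 - th (Sp (wz k u z) z))) ^ k * ∑ d ∈ Icc 1 (Dz u z), Fw (wz k u z) k d (-Real.log (1 - th (Sp (wz k u z) z))) := ⟨_, rfl⟩
  have h2' : |1 / v * m - T| < ε / 8 := by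
    rw [hv, hm, hT]
    exact h2
  rw [← hm] at hM1
  rw [← hT, ← hv]
  -- the main term
  have f1 : |X * m - X * v * T| ≤ ε / 8 * (X * v) := by
    have e1 : X * m - X * v * T = X * v * (1 / v * m - T) := by field_simp
    rw [e1, abs_mul, abs_of_nonneg (by positivity)]
    have := mul_le_mul_of_nonneg_left h2'.le (show 0 ≤ (X : ℝ) * v by positivity)
    linarith
  -- the errors
  have f2 : QQ k R b (wz k u z) (2 * (Vf z * ((k - 1) * Dz u z + 1 : ℕ))) ≤ 3 * ε / (8 * c4) := by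
    have e1 : 2 * (Vf z * ((k - 1) * Dz u z + 1 : ℕ)) ≤ B := by
      rw [hB]
      exact mul_le_mul_of_nonneg_left (wV_le (by omega) hu z) (by norm_num)
    refine (QQ_mono k R b (wz k u z) (by positivity) e1).trans ?_
    unfold QQ
    have e2 : 3 * (B ^ R / R.factorial) ≤ ε / (8 * c4) := by
      have : 3 * (ε / (24 * c4)) = ε / (8 * c4) := by ring
      linarith
    have e3 : 2 * ((k : ℝ) + R) ^ 2 / (wz k u z : ℕ) ≤ ε / (8 * c4 * Real.exp B) := by
      have h9' : 2 * ((k : ℝ) + R) ^ 2 * (8 * c4 * Real.exp B) / ε ≤ (wz k u z : ℝ) := h9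
      rw [div_le_iff₀ hε] at h9'
      rw [div_le_div_iff₀ hw0 (by positivity)]
      linarith
    have e4 : (2 * ((k : ℝ) + R) ^ 2 / (wz k u z : ℕ) + (1 / 2 : ℝ) ^ b) * Real.exp B ≤ (2 * (ε / (8 * c4 * Real.exp B))) * Real.exp B :=
      mul_le_mul_of_nonneg_right (by linarith) (Real.exp_pos _).le
    have e5 : (2 * (ε / (8 * c4 * Real.exp B))) * Real.exp B = 2 * (ε / (8 * c4)) := by
      have := Real.exp_pos B
      field_simp
    have e6 : 3 * ε / (8 * c4) = ε / (8 * c4) + 2 * (ε / (8 * c4)) := by ring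
    linarith
  have f3 : th (Sp (wz k u z) z) ^ k * (QQ k R b (wz k u z) (2 * (Vf z * ((k - 1) * Dz u z + 1 : ℕ))) * ∑ d ∈ Icc 1 (Dz u z), (rho (wz k u z) k d : ℝ) / PQ (wz k u z)) ≤
      3 * ε / 8 * v := by
    have e1 : 0 ≤ th (Sp (wz k u z) z) ^ k * ∑ d ∈ Icc 1 (Dz u z), (rho (wz k u z) k d : ℝ) / PQ (wz k u z) :=
      mul_nonneg (pow_nonneg h5.1.le _) (sum_nonneg fun _ _ => by positivity)
    have e2 := mul_le_mul f2 h3 e1 (by positivity)
    calc th (Sp (wz k u z) z) ^ k * (QQ k R b (wz k u z) (2 * (Vf z * ((k - 1) * Dz u z + 1 : ℕ))) * ∑ d ∈ Icc 1 (Dz u z), (rho (wz k u z) k d : ℝ) / PQ (wz k u z))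
        = QQ k R b (wz k u z) (2 * (Vf z * ((k - 1) * Dz u z + 1 : ℕ))) * (th (Sp (wz k u z) z) ^ k * ∑ d ∈ Icc 1 (Dz u z), (rho (wz k u z) k d : ℝ) / PQ (wz k u z)) := by ring
      _ ≤ 3 * ε / (8 * c4) * ((u * γ + 1) * Vf z ^ (k - 1)) := e2
      _ = 3 * ε / 8 * v := by
          rw [← hc4, ← hv]
          have : c4 ≠ 0 := by linarith
          field_simp
  have f4 : (X : ℝ) * (th (Sp (wz k u z) z) ^ k * (QQ k R b (wz k u z) (2 * (Vf z * ((k - 1) * Dz u z + 1 : ℕ))) * ∑ d ∈ Icc 1 (Dz u z), (rho (wz k u z) k d : ℝ) / PQ (wz k u z) +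
      6 * Dz u z / (Vf (wz k u z) * ((k - 1) * Dz u z + 1 : ℕ)))) ≤ X * (3 * ε / 8 * v + ε / 8 * v) := by
    refine mul_le_mul_of_nonneg_left ?_ hX0
    rw [mul_add]
    refine add_le_add f3 ?_
    rw [hv]
    exact h4
  have f5 := h1 X hX
  rw [← hv] at f5
  have g1 := abs_le.1 hM1
  have g2 := abs_le.1 f1
  have hXv : 0 ≤ (X : ℝ) * v := by positivity
  have hεXv : 0 ≤ ε * (X * v) := by positivity
  rw [abs_le]
  constructor
  · nlinarith [g1.1, g2.1, f4, f5]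
  · nlinarith [g1.2, g2.2, f4, f5]

end Pool.Agent.H38.TO
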