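import Pool.Agent.H38.TO.P

/-!
# Runs of rough integers: almost primes in short intervals
-/

set_option autoImplicit false

namespace Pool.Agent.H38.TO

open Finset Filter Pool.Agent.Q120.MG Pool.Agent.Q120.CL Pool.Agent.H38.LR Pool.Agent.H38.RC
open scoped Topology

variable {k : ℕ} {u : ℝ}

open Classical in
/-- the theorem for the number of the first terms -/
theorem part1 (hk : 2 ≤ k) (hu : 0 < u) {γ : ℝ} (hγ : Tendsto (fun z => gam z k) atTop (𝓝 γ)) {ε : ℝ} (hε : 0 < ε) :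
    ∃ c : ℕ, ∀ᶠ z : ℕ in atTop, ∀ A X : ℕ, z ^ c ≤ X →
      |(((Ioc A (A + X)).filter (fun n => ∃ d : ℕ, 1 ≤ d ∧ (d : ℝ) * Vf z ≤ u ∧ Run {m | Rough z m} n k d)).card : ℝ) -
        γ / ((k : ℝ) - 1) * (1 - Real.exp (-(((k : ℝ) - 1) * u))) * (X * Vf z ^ (k - 1))| ≤ ε * (X * Vf z ^ (k - 1)) := by
  obtain ⟨c, hc⟩ := final hk hu hγ hε
  refine ⟨c, ?_⟩
  filter_upwards [hc] with z hz A X hX
  have hV := Vf_pos z
  have h1 := hz A X hX
  have h2 := union_cnt hk z (Dz u z) A X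
  have h3 : (Ioc A (A + X)).filter (fun n => ∃ d : ℕ, 1 ≤ d ∧ (d : ℝ) * Vf z ≤ u ∧ Run {m | Rough z m} n k d) =
      (Ioc A (A + X)).filter (fun n => ∃ d, 1 ≤ d ∧ d ≤ Dz u z ∧ Run {m | Rough z m} n k d) := by
    refine filter_congr fun n _ => exists_congr fun d => and_congr_right fun _ => and_congr_left fun _ => ?_
    unfold Dz
    rw [Nat.le_floor_iff (by positivity), le_div_iff₀ hV]
  rw [h3, h2]
  push_cast
  have h4 : γ / ((k : ℝ) - 1) * (1 - Real.exp (-(((k : ℝ) - 1) * u))) * (X * Vf z ^ (k - 1)) =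
      X * Vf z ^ (k - 1) * (γ * ((1 - Real.exp (-(((k : ℝ) - 1) * u))) / ((k : ℝ) - 1))) := by ring
  rw [h4]
  exact h1

theorem prod_ge {y : ℝ} (hy : 0 ≤ y) (l : List ℕ) (h : ∀ p ∈ l, y ≤ p) : y ^ l.length ≤ (l.prod : ℕ) := by
  induction l with
  | nil => simp
  | cons a l ih =>
    rw [List.length_cons, List.prod_cons, pow_succ, mul_comm, Nat.cast_mul]
    exact mul_le_mul (h a (by simp)) (ih fun p hp => h p (by simp [hp])) (by positivity) (Nat.cast_nonneg _)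

open Classical in
/-- the almost primes in short intervals -/
theorem part2 (hk : 2 ≤ k) {θ : ℝ} (hθ : 0 < θ) (hθ1 : θ ≤ 1) : ∃ r : ℕ, ∃ δ : ℝ, 0 < δ ∧ ∀ᶠ N : ℕ in atTop,
    δ * ((N : ℝ) ^ θ / Real.log N ^ (k - 1)) ≤
      (((Ioc N (N + ⌊(N : ℝ) ^ θ⌋₊)).filter (fun n => ∃ d : ℕ, 1 ≤ d ∧ (d : ℝ) ≤ r * Real.log N ∧
        (∀ i < k, ArithmeticFunction.cardFactors (n + i * d) ≤ r) ∧
        Run {m | ∀ p : ℕ, p.Prime → (p : ℝ) < (N : ℝ) ^ (1 / (r : ℝ)) → ¬ p ∣ m} n k d)).card : ℝ) := by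
  obtain ⟨γ, hγ0, hγ⟩ := gam_lim (k := k) (by omega)
  have hk' : (2 : ℝ) ≤ k := by exact_mod_cast hk
  obtain ⟨T, hT⟩ : ∃ T, T = γ / ((k : ℝ) - 1) * (1 - Real.exp (-(((k : ℝ) - 1) * 1))) := ⟨_, rfl⟩
  have hT0 : 0 < T := by
    rw [hT]
    have h1 : Real.exp (-(((k : ℝ) - 1) * 1)) < 1 := by
      rw [Real.exp_lt_one_iff]
      linarith
    have h2 : 0 < (k : ℝ) - 1 := by linarith
    have h3 : 0 < 1 - Real.exp (-(((k : ℝ) - 1) * 1)) := by linarith
    positivity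
  obtain ⟨c, hc⟩ := part1 (u := 1) hk one_pos hγ (show 0 < T / 2 by positivity)
  rw [← hT] at hc
  obtain ⟨g, hg, hV⟩ := V_bounds
  obtain ⟨r, hr⟩ : ∃ r : ℕ, max (((c : ℝ) + 1) / θ) (max (1 / g) 1) ≤ r := exists_nat_ge _
  have hr1 : ((c : ℝ) + 1) / θ ≤ r := (le_max_left _ _).trans hr
  have hr2 : 1 / g ≤ r := ((le_max_left _ _).trans (le_max_right _ _)).trans hr
  have hr3 : (1 : ℝ) ≤ r := ((le_max_right _ _).trans (le_max_right _ _)).trans hr
  have hr0 : (0 : ℝ) < 1 / (r : ℝ) := by positivity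
  refine ⟨r, T / 4 * g ^ (k - 1), by positivity, ?_⟩
  have hy : Tendsto (fun N : ℕ => (N : ℝ) ^ (1 / (r : ℝ))) atTop atTop := (tendsto_rpow_atTop hr0).comp tendsto_natCast_atTop_atTop
  have hz : Tendsto (fun N : ℕ => ⌈(N : ℝ) ^ (1 / (r : ℝ))⌉₊) atTop atTop := tendsto_nat_ceil_atTop.comp hy
  have hcs : 0 < θ / ((c : ℝ) + 1) := by positivity
  filter_upwards [hz.eventually hc, hz.eventually hV, hy.eventually_ge_atTop 4, eventually_ge_atTop 2,
    ((tendsto_rpow_atTop hcs).comp (tendsto_natCast_atTop_atTop (R := ℝ))).eventually_ge_atTop (2 ^ (c + 1)),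
    ((tendsto_rpow_atTop hθ).comp (tendsto_natCast_atTop_atTop (R := ℝ))).eventually_ge_atTop 2,
    log_ev (show (0 : ℝ) < 1 / (k * r) by positivity), (hz.eventually (log_top.eventually_ge_atTop 1))] with N h1 h2 h3 h4 h5 h6 h7 h8
  obtain ⟨y, hyd⟩ : ∃ y, y = (N : ℝ) ^ (1 / (r : ℝ)) := ⟨_, rfl⟩
  obtain ⟨z, hzd⟩ : ∃ z, z = ⌈(N : ℝ) ^ (1 / (r : ℝ))⌉₊ := ⟨_, rfl⟩
  obtain ⟨X, hX⟩ : ∃ X, X = ⌊(N : ℝ) ^ θ⌋₊ := ⟨_, rfl⟩
  rw [← hzd] at h1 h2 h8
  rw [← hX, ← hyd]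
  rw [← hyd] at h3
  simp only [Function.comp] at h5 h6
  have hN1 : (1 : ℝ) ≤ N := by
    have : 1 ≤ N := by omega
    exact_mod_cast this
  have hN0 : (0 : ℝ) < N := by linarith
  have hzy : (z : ℝ) ≤ 2 * y := by
    have := Nat.ceil_lt_add_one (show 0 ≤ (N : ℝ) ^ (1 / (r : ℝ)) by positivity)
    rw [← hzd, ← hyd] at this
    linarith
  have hyN : y ≤ N := by
    rw [hyd]
    calc (N : ℝ) ^ (1 / (r : ℝ)) ≤ (N : ℝ) ^ (1 : ℝ) := Real.rpow_le_rpow_of_exponent_le hN1 (by rw [div_le_one (by linarith)]; exact hr3)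
      _ = N := Real.rpow_one _
  have hzN : (z : ℝ) ≤ N := by
    have : z ≤ N := by
      rw [hzd]
      refine Nat.ceil_le.2 ?_
      rw [← hyd]
      exact hyN
    exact_mod_cast this
  have hXlo : (N : ℝ) ^ θ / 2 ≤ X := by
    have := Nat.lt_floor_add_one ((N : ℝ) ^ θ)
    rw [← hX] at this
    linarith
  have hXhi : (X : ℝ) ≤ N := by
    have h9 := Nat.floor_le (show 0 ≤ (N : ℝ) ^ θ by positivity)
    rw [← hX] at h9
    refine h9.trans ?_
    calc (N : ℝ) ^ θ ≤ (N : ℝ) ^ (1 : ℝ) := Real.rpow_le_rpow_of_exponent_le hN1 hθ1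
      _ = N := Real.rpow_one _
  -- the length is large enough
  have hzX : z ^ c ≤ X := by
    have h9 : ((z ^ c : ℕ) : ℝ) ≤ X := by
      push_cast
      have e1 : (z : ℝ) ^ c ≤ (2 * y) ^ c := pow_le_pow_left₀ (Nat.cast_nonneg _) hzy c
      have e2 : y ^ c = (N : ℝ) ^ ((c : ℝ) / r) := by
        rw [hyd, ← Real.rpow_natCast, ← Real.rpow_mul hN0.le]
        congr 1
        ring
      have e3 : (N : ℝ) ^ ((c : ℝ) / r) ≤ (N : ℝ) ^ (θ - θ / ((c : ℝ) + 1)) := by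
        refine Real.rpow_le_rpow_of_exponent_le hN1 ?_
        have hc0 : (0 : ℝ) < (c : ℝ) + 1 := by positivity
        rw [div_le_iff₀ hθ] at hr1
        rw [div_le_iff₀ (by linarith)]
        have e4 : θ - θ / ((c : ℝ) + 1) = θ * c / (c + 1) := by field_simp; ring
        rw [e4, div_mul_eq_mul_div, le_div_iff₀ hc0]
        nlinarith [show (0 : ℝ) ≤ c by positivity]
      have e4 : (N : ℝ) ^ (θ - θ / ((c : ℝ) + 1)) * (N : ℝ) ^ (θ / ((c : ℝ) + 1)) = (N : ℝ) ^ θ := by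
        rw [← Real.rpow_add hN0]
        congr 1
        ring
      calc (z : ℝ) ^ c ≤ (2 * y) ^ c := e1
        _ = 2 ^ c * (N : ℝ) ^ ((c : ℝ) / r) := by rw [mul_pow, e2]
        _ ≤ 2 ^ c * (N : ℝ) ^ (θ - θ / ((c : ℝ) + 1)) := mul_le_mul_of_nonneg_left e3 (by positivity)
        _ = (2 ^ (c + 1) * (N : ℝ) ^ (θ - θ / ((c : ℝ) + 1))) / 2 := by rw [pow_succ]; ring
        _ ≤ ((N : ℝ) ^ (θ / ((c : ℝ) + 1)) * (N : ℝ) ^ (θ - θ / ((c : ℝ) + 1))) / 2 := by
            refine div_le_div_of_nonneg_right ?_ (by norm_num)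
            exact mul_le_mul_of_nonneg_right h5 (by positivity)
        _ = (N : ℝ) ^ θ / 2 := by rw [mul_comm, e4]
        _ ≤ X := hXlo
    exact_mod_cast h9
  have hVz := Vf_pos z
  have h9 := (abs_le.1 (h1 N X hzX)).1
  -- the lower bound for the main term
  have hlogz : Real.log z ≤ Real.log N := Real.log_le_log (by
    by_contra hcon
    push Not at hcon
    have : Real.log (z : ℝ) ≤ 0 := Real.log_nonpos (Nat.cast_nonneg _) (by linarith)
    linarith) hzN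
  have hVg : g / Real.log N ≤ Vf z := by
    rw [div_le_iff₀ (by linarith)]
    calc g ≤ Vf z * Real.log z := h2.1
      _ ≤ Vf z * Real.log N := mul_le_mul_of_nonneg_left hlogz hVz.le
  have h10 : T / 4 * g ^ (k - 1) * ((N : ℝ) ^ θ / Real.log N ^ (k - 1)) ≤ T / 2 * (X * Vf z ^ (k - 1)) := by
    have e1 := pow_le_pow_left₀ (div_nonneg hg.le (by linarith)) hVg (k - 1)
    rw [div_pow] at e1
    have e2 : ((N : ℝ) ^ θ / 2) * (g ^ (k - 1) / Real.log N ^ (k - 1)) ≤ X * Vf z ^ (k - 1) :=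
      mul_le_mul hXlo e1 (by have : 0 < Real.log (N : ℝ) := by linarith
                             positivity) (by positivity)
    have e3 : T / 4 * g ^ (k - 1) * ((N : ℝ) ^ θ / Real.log N ^ (k - 1)) = T / 2 * (((N : ℝ) ^ θ / 2) * (g ^ (k - 1) / Real.log N ^ (k - 1))) := by ring
    rw [e3]
    exact mul_le_mul_of_nonneg_left e2 (by positivity)
  refine h10.trans ((show T / 2 * (X * Vf z ^ (k - 1)) ≤ _ by linarith).trans (?_ : (((Ioc N (N + X)).filter (fun n => ∃ d : ℕ, 1 ≤ d ∧ (d : ℝ) * Vf z ≤ 1 ∧ Run {m | Rough z m} n k d)).card : ℝ) ≤ _))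
  have hset : {m : ℕ | Rough z m} = {m | ∀ p : ℕ, p.Prime → (p : ℝ) < y → ¬ p ∣ m} := by
    ext m
    show Rough z m ↔ _
    unfold Rough
    refine forall_congr' fun p => forall_congr' fun _ => ?_
    rw [hzd, Nat.lt_ceil, ← hyd]
  refine Nat.cast_le.2 (card_le_card fun n hn => ?_)
  rw [mem_filter] at hn ⊢
  obtain ⟨hn1, d, hd1, hd2, hd3⟩ := hn
  have hdl : (d : ℝ) ≤ r * Real.log N := by
    have e1 : (d : ℝ) ≤ 1 / Vf z := by rw [le_div_iff₀ hVz]; exact hd2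
    have e2 : 1 / Vf z ≤ 1 / g * Real.log N := by
      rw [div_le_iff₀ hVz]
      have e3 : g ≤ Vf z * Real.log N := h2.1.trans (mul_le_mul_of_nonneg_left hlogz hVz.le)
      have e4 : 1 / g * Real.log N * Vf z = (Vf z * Real.log N) / g := by ring
      rw [e4, le_div_iff₀ hg]
      linarith
    have e3 : 1 / g * Real.log N ≤ r * Real.log N := mul_le_mul_of_nonneg_right hr2 (by linarith)
    linarith
  refine ⟨hn1, d, hd1, hdl, ?_, by rw [← hset]; exact hd3⟩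
  intro i hi
  -- the number of the prime factors
  have hmem : n + i * d ∈ {m | Rough z m} := by
    have e1 : i * d ≤ (k - 1) * d := Nat.mul_le_mul_right _ (by omega)
    exact (hd3 (n + i * d) (by omega) (by omega)).2 ⟨i, hi, rfl⟩
  rw [hset] at hmem
  rw [mem_Ioc] at hn1
  have hm0 : n + i * d ≠ 0 := by omega
  rw [ArithmeticFunction.cardFactors_apply]
  by_contra hcon
  push Not at hcon
  have e1 := prod_ge (y := y) (by linarith) (n + i * d).primeFactorsList (by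
    intro p hp
    by_contra hlt
    push Not at hlt
    exact hmem p (Nat.prime_of_mem_primeFactorsList hp) hlt (Nat.dvd_of_mem_primeFactorsList hp))
  rw [Nat.prod_primeFactorsList hm0] at e1
  have e2 : y ^ (r + 1) ≤ y ^ (n + i * d).primeFactorsList.length := pow_le_pow_right₀ (by linarith) hcon
  have e3 : y ^ r = N := by
    rw [hyd, ← Real.rpow_natCast, ← Real.rpow_mul hN0.le, one_div_mul_cancel (by linarith), Real.rpow_one]
  have e4 : ((n + i * d : ℕ) : ℝ) ≤ 3 * N := by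
    push_cast
    have t1 : (n : ℝ) ≤ N + X := by exact_mod_cast hn1.2
    have t2 : (i : ℝ) * d ≤ k * (r * Real.log N) := by
      refine mul_le_mul ?_ hdl (Nat.cast_nonneg _) (Nat.cast_nonneg _)
      exact_mod_cast hi.le
    have t3 : (k : ℝ) * (r * Real.log N) ≤ N := by
      have t4 := mul_le_mul_of_nonneg_left h7 (show (0 : ℝ) ≤ k * r by positivity)
      have t5 : (k : ℝ) * r * (1 / (k * r) * N) = N := by
        have : (k : ℝ) ≠ 0 := by linarith
        have : (r : ℝ) ≠ 0 := by linarith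
        field_simp
      linarith
    linarith
  rw [pow_succ, e3] at e2
  nlinarith

end Pool.Agent.H38.TO
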