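import Pool.Agent.H38.TO.G

/-!
# Runs of rough integers: upper bounds for the inclusion-exclusion sums
-/

set_option autoImplicit false

namespace Pool.Agent.H38.TO

open Finset

/-- the local densities -/
noncomputable def Gp (S : Finset ℕ) (m : ℕ) : ℝ := ∏ p ∈ S, (1 - (m : ℝ) / p)

theorem Gp_nonneg {S : Finset ℕ} {m : ℕ} (hS : ∀ p ∈ S, m ≤ p ∧ 0 < p) : 0 ≤ Gp S m := by
  refine prod_nonneg fun p hp => ?_
  have h2 : (0 : ℝ) < p := by exact_mod_cast (hS p hp).2
  rw [sub_nonneg, div_le_one h2]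
  exact_mod_cast (hS p hp).1

theorem Qf_zero (S : Finset ℕ) (k : ℕ) : Qf S k 0 = Gp S k := by
  unfold Qf Gp
  simp

theorem Qf_succ (S : Finset ℕ) (k N : ℕ) : Qf S k (N + 1) = Qf S k N - Qf S (k + 1) N := by
  unfold Qf
  rw [Finset.sum_range_succ', Finset.sum_range_succ' (fun r => (-1 : ℝ) ^ r * (N.choose r) * ∏ p ∈ S, (1 - ((k + r : ℕ) : ℝ) / p)) N]
  have h1 : ∑ r ∈ range (N + 1), (-1 : ℝ) ^ (r + 1) * ((N + 1).choose (r + 1)) * ∏ p ∈ S, (1 - ((k + (r + 1) : ℕ) : ℝ) / p) =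
      ∑ r ∈ range (N + 1), (-1 : ℝ) ^ (r + 1) * (N.choose (r + 1)) * ∏ p ∈ S, (1 - ((k + (r + 1) : ℕ) : ℝ) / p) -
        ∑ r ∈ range (N + 1), (-1 : ℝ) ^ r * (N.choose r) * ∏ p ∈ S, (1 - ((k + 1 + r : ℕ) : ℝ) / p) := by
    rw [← sum_sub_distrib]
    refine sum_congr rfl fun r _ => ?_
    have h2 : k + (r + 1) = k + 1 + r := by ring
    rw [h2, Nat.choose_succ_succ]
    push_cast
    ring
  rw [h1, Finset.sum_range_succ (fun r => (-1 : ℝ) ^ (r + 1) * (N.choose (r + 1)) * ∏ p ∈ S, (1 - ((k + (r + 1) : ℕ) : ℝ) / p)) N,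
    Nat.choose_succ_self]
  simp
  ring

/-- Bonferroni's inequalities for the exact sums. -/
theorem bonf_Qf {S : Finset ℕ} {N : ℕ} : ∀ (k R : ℕ), (∀ p ∈ S, k + N ≤ p ∧ 0 < p) → (∀ p ∈ S, k + R ≤ p) →
    |∑ r ∈ range R, (-1 : ℝ) ^ r * (N.choose r) * Gp S (k + r) - Qf S k N| ≤ (N.choose R) * Gp S (k + R) := by
  induction N with
  | zero =>
    intro k R hS hR
    rw [Qf_zero]
    cases R with
    | zero =>
      have := Gp_nonneg (S := S) (m := k) fun p hp => ⟨by have := (hS p hp).1; omega, (hS p hp).2⟩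
      simp [abs_of_nonneg this]
    | succ R =>
      rw [Finset.sum_range_succ']
      simp
  | succ N ih =>
    intro k R hS hR
    cases R with
    | zero =>
      have h1 := Qf_nonneg (S := S) (k := k) (N := N + 1) fun p hp => hS p hp
      have h2 := Qf_anti (S := S) (k := k) (N := 0) (M := N + 1) (Nat.zero_le _) fun p hp => hS p hp
      rw [Qf_zero] at h2
      rw [range_zero, sum_empty, zero_sub, abs_neg, abs_of_nonneg h1, Nat.choose_zero_right, Nat.cast_one, one_mul, add_zero]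
      exact h2
    | succ R =>
      have h1 := ih k (R + 1) (fun p hp => ⟨by have := (hS p hp).1; omega, (hS p hp).2⟩) hR
      have h2 := ih (k + 1) R (fun p hp => ⟨by have := (hS p hp).1; omega, (hS p hp).2⟩) (fun p hp => by have := hR p hp; omega)
      have e1 : ∑ r ∈ range (R + 1), (-1 : ℝ) ^ r * ((N + 1).choose r) * Gp S (k + r) =
          ∑ r ∈ range (R + 1), (-1 : ℝ) ^ r * (N.choose r) * Gp S (k + r) - ∑ r ∈ range R, (-1 : ℝ) ^ r * (N.choose r) * Gp S (k + 1 + r) := by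
        rw [Finset.sum_range_succ', Finset.sum_range_succ' _ R]
        have e2 : ∑ r ∈ range R, (-1 : ℝ) ^ (r + 1) * ((N + 1).choose (r + 1)) * Gp S (k + (r + 1)) =
            ∑ r ∈ range R, (-1 : ℝ) ^ (r + 1) * (N.choose (r + 1)) * Gp S (k + (r + 1)) - ∑ r ∈ range R, (-1 : ℝ) ^ r * (N.choose r) * Gp S (k + 1 + r) := by
          rw [← sum_sub_distrib]
          refine sum_congr rfl fun r _ => ?_
          have h3 : k + (r + 1) = k + 1 + r := by ring
          rw [h3, Nat.choose_succ_succ]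
          push_cast
          ring
        rw [e2]
        simp
        ring
      rw [e1, Qf_succ]
      have e2 : ((N + 1).choose (R + 1) : ℝ) * Gp S (k + (R + 1)) = (N.choose (R + 1)) * Gp S (k + (R + 1)) + (N.choose R) * Gp S (k + 1 + R) := by
        have h3 : k + (R + 1) = k + 1 + R := by ring
        rw [Nat.choose_succ_succ, h3]
        push_cast
        ring
      rw [e2]
      have e3 : ∑ r ∈ range (R + 1), (-1 : ℝ) ^ r * (N.choose r) * Gp S (k + r) - ∑ r ∈ range R, (-1 : ℝ) ^ r * (N.choose r) * Gp S (k + 1 + r) -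
          (Qf S k N - Qf S (k + 1) N) = (∑ r ∈ range (R + 1), (-1 : ℝ) ^ r * (N.choose r) * Gp S (k + r) - Qf S k N) -
            (∑ r ∈ range R, (-1 : ℝ) ^ r * (N.choose r) * Gp S (k + 1 + r) - Qf S (k + 1) N) := by ring
      rw [e3]
      exact (abs_sub _ _).trans (add_le_add h1 h2)

/-- the density if `k` classes are excluded -/
noncomputable def thk (S : Finset ℕ) (k : ℕ) : ℝ := ∏ p ∈ S, (1 - 1 / ((p : ℝ) - k))

theorem two_terms {a b : ℝ} (ha : 0 ≤ a) (hb : 0 ≤ b) (n : ℕ) : a ^ (n + 1) + ((n + 1 : ℕ) : ℝ) * a ^ n * b ≤ (a + b) ^ (n + 1) := by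
  induction n with
  | zero => simp
  | succ n ih =>
    have h1 := mul_le_mul_of_nonneg_left ih (show 0 ≤ a + b by linarith)
    have h2 : (a + b) ^ (n + 1 + 1) = (a + b) * (a + b) ^ (n + 1) := by ring
    rw [h2]
    refine le_trans ?_ h1
    have h3 : (a + b) * (a ^ (n + 1) + ((n + 1 : ℕ) : ℝ) * a ^ n * b) =
        a ^ (n + 1 + 1) + ((n + 1 + 1 : ℕ) : ℝ) * a ^ (n + 1) * b + ((n + 1 : ℕ) : ℝ) * a ^ n * b ^ 2 := by
      push_cast
      ring
    rw [h3]
    have : 0 ≤ ((n + 1 : ℕ) : ℝ) * a ^ n * b ^ 2 := by positivity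
    linarith

/-- **Negative correlation.** -/
theorem Qf_le {S : Finset ℕ} {k : ℕ} : ∀ N : ℕ, (∀ p ∈ S, k + N ≤ p ∧ k + 2 ≤ p) → Qf S k N ≤ Gp S k * (1 - thk S k) ^ N := by
  classical
  induction S using Finset.induction_on with
  | empty =>
    intro N _
    rw [Qf_empty]
    unfold Gp thk
    rw [prod_empty, prod_empty, sub_self, one_mul]
    split_ifs with h
    · rw [h, pow_zero]
    · rw [zero_pow h]
  | insert p S hp ih =>
    intro N hN
    have hp1 := hN p (mem_insert_self _ _)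
    have hp0 : 0 < p := by omega
    have hp' : (0 : ℝ) < p := by exact_mod_cast hp0
    have hpk : (2 : ℝ) ≤ (p : ℝ) - k := by
      have : ((k + 2 : ℕ) : ℝ) ≤ p := by exact_mod_cast hp1.2
      push_cast at this
      linarith
    have hkN : ((k + N : ℕ) : ℝ) ≤ p := by exact_mod_cast hp1.1
    have hG : 0 ≤ Gp S k := Gp_nonneg fun q hq => by
      have := hN q (mem_insert_of_mem hq)
      exact ⟨by omega, by omega⟩
    have hs1 : thk S k ≤ 1 := by
      unfold thk
      refine prod_le_one (fun q hq => ?_) (fun q hq => ?_)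
      · have h1 := hN q (mem_insert_of_mem hq)
        have h2 : (2 : ℝ) ≤ (q : ℝ) - k := by
          have : ((k + 2 : ℕ) : ℝ) ≤ q := by exact_mod_cast h1.2
          push_cast at this
          linarith
        rw [sub_nonneg, div_le_one (by linarith)]
        linarith
      · have h1 := hN q (mem_insert_of_mem hq)
        have h2 : (2 : ℝ) ≤ (q : ℝ) - k := by
          have : ((k + 2 : ℕ) : ℝ) ≤ q := by exact_mod_cast h1.2
          push_cast at this
          linarith
        have : 0 ≤ 1 / ((q : ℝ) - k) := by positivity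
        linarith
    have hs0 : 0 ≤ thk S k := by
      unfold thk
      refine prod_nonneg (fun q hq => ?_)
      have h1 := hN q (mem_insert_of_mem hq)
      have h2 : (2 : ℝ) ≤ (q : ℝ) - k := by
        have : ((k + 2 : ℕ) : ℝ) ≤ q := by exact_mod_cast h1.2
        push_cast at this
        linarith
      rw [sub_nonneg, div_le_one (by linarith)]
      linarith
    obtain ⟨s, hs⟩ : ∃ s, s = 1 - thk S k := ⟨_, rfl⟩
    have hs0' : 0 ≤ s := by rw [hs]; linarith
    have hs1' : s ≤ 1 := by rw [hs]; linarith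
    have hGi : Gp (insert p S) k = (1 - (k : ℝ) / p) * Gp S k := by
      unfold Gp
      rw [prod_insert hp]
    have hti : 1 - thk (insert p S) k = s + (1 - s) / ((p : ℝ) - k) := by
      unfold thk at hs ⊢
      rw [prod_insert hp]
      have : ∏ q ∈ S, (1 - 1 / ((q : ℝ) - k)) = 1 - s := by rw [hs]; ring
      rw [this]
      field_simp
      ring
    rw [Qf_insert hp hp0, hGi, hti]
    cases N with
    | zero =>
      rw [Qf_zero]
      simp
    | succ N =>
      rw [Nat.add_sub_cancel]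
      have h1 := ih (N + 1) fun q hq => hN q (mem_insert_of_mem hq)
      have h2 := ih N fun q hq => ⟨by have := (hN q (mem_insert_of_mem hq)).1; omega, (hN q (mem_insert_of_mem hq)).2⟩
      rw [← hs] at h1 h2
      have h3 : 0 ≤ 1 - ((k + (N + 1) : ℕ) : ℝ) / p := by
        rw [sub_nonneg, div_le_one hp']
        exact hkN
      have h4 : 0 ≤ ((N + 1 : ℕ) : ℝ) / p := by positivity
      have h5 := mul_le_mul_of_nonneg_left h1 h3
      have h6 := mul_le_mul_of_nonneg_left h2 h4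
      -- the binomial inequality
      have h7 : s ^ (N + 1) + ((N + 1 : ℕ) : ℝ) * s ^ N * ((1 - s) / ((p : ℝ) - k)) ≤ (s + (1 - s) / ((p : ℝ) - k)) ^ (N + 1) := by
        have hx : 0 ≤ (1 - s) / ((p : ℝ) - k) := div_nonneg (by linarith) (by linarith)
        exact two_terms hs0' hx N
      have h8 : 0 ≤ 1 - (k : ℝ) / p := by
        rw [sub_nonneg, div_le_one hp']
        linarith
      have h9 := mul_le_mul_of_nonneg_left h7 (mul_nonneg h8 hG)
      have h10 : (1 - (k : ℝ) / p) * Gp S k * (s ^ (N + 1) + ((N + 1 : ℕ) : ℝ) * s ^ N * ((1 - s) / ((p : ℝ) - k))) =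
          (1 - ((k + (N + 1) : ℕ) : ℝ) / p) * (Gp S k * s ^ (N + 1)) + ((N + 1 : ℕ) : ℝ) / p * (Gp S k * s ^ N) := by
        have : (p : ℝ) - k ≠ 0 := by linarith
        push_cast
        field_simp
        ring
      linarith

/-- the two densities are comparable -/
theorem thk_ge {S : Finset ℕ} {w k : ℕ} (hw : 2 ≤ w) (hS : ∀ p ∈ S, w ≤ p) (hk : 16 * k ≤ w) : th S / 2 ≤ thk S k := by
  have hw' : (2 : ℝ) ≤ w := by exact_mod_cast hw
  have hk' : (16 : ℝ) * k ≤ w := by exact_mod_cast hk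
  have hp : ∀ p ∈ S, (w : ℝ) ≤ p := fun p hp => by exact_mod_cast hS p hp
  have hth := th_pos (S := S) fun p hp => by have := hS p hp; omega
  have h1 : ∏ p ∈ S, ((1 - 1 / (p : ℝ)) * (1 - 4 * k / (p : ℝ) ^ 2)) ≤ thk S k := by
    unfold thk
    refine prod_le_prod (fun p hp' => ?_) (fun p hp' => ?_)
    · have e2 := hp p hp'
      have e3 : 0 ≤ 1 - 1 / (p : ℝ) := by
        rw [sub_nonneg, div_le_one (by linarith)]
        linarith
      have e4 : 0 ≤ 1 - 4 * k / (p : ℝ) ^ 2 := by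
        rw [sub_nonneg, div_le_one (by nlinarith)]
        nlinarith
      positivity
    · have e2 := hp p hp'
      have hk0 : (0 : ℝ) ≤ k := Nat.cast_nonneg _
      have hp0 : (0 : ℝ) < p := by linarith
      have hpk : (0 : ℝ) < (p : ℝ) - k := by linarith
      have e3 : 1 / ((p : ℝ) - k) ≤ 1 / p + 2 * k / (p : ℝ) ^ 2 := by
        have e4 : 1 / (p : ℝ) + 2 * k / (p : ℝ) ^ 2 = (p + 2 * k) / (p : ℝ) ^ 2 := by field_simp
        rw [e4, div_le_div_iff₀ hpk (by positivity)]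
        nlinarith
      have e5 : (1 - 1 / (p : ℝ)) * (1 - 4 * k / (p : ℝ) ^ 2) ≤ 1 - (1 / p + 2 * k / (p : ℝ) ^ 2) := by
        have e6 : (1 - 1 / (p : ℝ)) * (1 - 4 * k / (p : ℝ) ^ 2) = 1 - (1 / p + 2 * k / (p : ℝ) ^ 2) - 2 * k / (p : ℝ) ^ 2 * (1 - 2 / p) := by
          field_simp
          ring
        rw [e6]
        have e7 : 0 ≤ 1 - 2 / (p : ℝ) := by
          rw [sub_nonneg, div_le_one hp0]
          linarith
        have e8 : 0 ≤ 2 * k / (p : ℝ) ^ 2 := by positivity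
        have := mul_nonneg e8 e7
        linarith
      linarith
  refine le_trans ?_ h1
  rw [prod_mul_distrib]
  have h2 : 1 - ∑ p ∈ S, 4 * (k : ℝ) / (p : ℝ) ^ 2 ≤ ∏ p ∈ S, (1 - 4 * k / (p : ℝ) ^ 2) :=
    one_sub_sum_le S (f := fun p => 4 * (k : ℝ) / (p : ℝ) ^ 2) (fun p _ => by positivity) (fun p hp' => by
      have e2 := hp p hp'
      rw [div_le_one (by nlinarith)]
      nlinarith)
  have h3 : ∑ p ∈ S, 4 * (k : ℝ) / (p : ℝ) ^ 2 ≤ 1 / 2 := by
    have e1 : ∑ p ∈ S, 4 * (k : ℝ) / (p : ℝ) ^ 2 = 4 * (k : ℝ) * ∑ p ∈ S, 1 / (p : ℝ) ^ 2 := by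
      rw [mul_sum]
      refine sum_congr rfl fun p _ => ?_
      ring
    rw [e1]
    have e2 := mul_le_mul_of_nonneg_left (sum_sq hw hS) (show (0 : ℝ) ≤ 4 * k by positivity)
    have e3 : 4 * (k : ℝ) * (2 / w) ≤ 1 / 2 := by
      rw [mul_div_assoc', div_le_div_iff₀ (by linarith) (by norm_num)]
      linarith
    linarith
  have h4 := mul_le_mul_of_nonneg_left (show (1 / 2 : ℝ) ≤ ∏ p ∈ S, (1 - 4 * k / (p : ℝ) ^ 2) by linarith) hth.le
  unfold th at h4 ⊢
  linarith

end Pool.Agent.H38.TO
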