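import Pool.Agent.H38.TO.R1

/-!
# Runs of rough integers: the upper bound in a class
-/

set_option autoImplicit false

namespace Pool.Agent.H38.TO

open Finset

theorem exp_one_le : Real.exp 1 ≤ 3 := by linarith [Real.exp_one_lt_d9]

theorem fact_bound (B : ℕ) : (B : ℝ) ^ (8 * B) / (8 * B).factorial ≤ Real.exp (-(B : ℝ)) := by
  have h1 := Real.pow_div_factorial_le_exp ((8 * B : ℕ) : ℝ) (Nat.cast_nonneg _) (8 * B)
  have h2 : ((8 * B : ℕ) : ℝ) ^ (8 * B) = 8 ^ (8 * B) * (B : ℝ) ^ (8 * B) := by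
    push_cast
    rw [mul_pow]
  rw [h2, mul_div_assoc] at h1
  have h3 : (0 : ℝ) < 8 ^ (8 * B) := by positivity
  have h4 : (B : ℝ) ^ (8 * B) / (8 * B).factorial ≤ Real.exp ((8 * B : ℕ) : ℝ) / 8 ^ (8 * B) := by
    rw [le_div_iff₀ h3]
    linarith
  refine h4.trans ?_
  rw [div_le_iff₀ h3, Real.exp_neg, ← div_eq_inv_mul, le_div_iff₀ (Real.exp_pos _), ← Real.exp_add]
  have h5 : ((8 * B : ℕ) : ℝ) + (B : ℝ) = ((9 * B : ℕ) : ℝ) * 1 := by push_cast; ring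
  rw [h5, Real.exp_nat_mul, pow_mul, pow_mul]
  refine pow_le_pow_left₀ (by positivity) ?_ B
  calc Real.exp 1 ^ 9 ≤ 3 ^ 9 := pow_le_pow_left₀ (Real.exp_pos _).le exp_one_le 9
    _ ≤ 8 ^ 8 := by norm_num

theorem half_bound (B : ℕ) : (1 / 2 : ℝ) ^ (8 * B) * Real.exp B ≤ Real.exp (-(B : ℝ)) := by
  rw [Real.exp_neg, ← one_div, le_div_iff₀ (Real.exp_pos _), mul_assoc, ← Real.exp_add]
  have h5 : (B : ℝ) + (B : ℝ) = ((2 * B : ℕ) : ℝ) * 1 := by push_cast; ring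
  rw [h5, Real.exp_nat_mul, pow_mul, pow_mul, ← mul_pow]
  refine pow_le_one₀ (by positivity) ?_
  have : Real.exp 1 ^ 2 ≤ 3 ^ 2 := pow_le_pow_left₀ (Real.exp_pos _).le exp_one_le 2
  nlinarith

open Classical in
/-- the upper bound if `J` is small -/
theorem loc_up1 {S : Finset ℕ} {w k B : ℕ} (hw : 2 ≤ w) (hS : ∀ p ∈ S, w ≤ p) (hk16 : 16 * k + 2 ≤ w) (hkR : k + 8 * B ≤ w)
    {cls : Finset ℕ} {P : ℕ → ℕ → Prop} {K J : Finset ℕ} {ρ β Z : ℝ} (hρ : 0 ≤ ρ) (hβ0 : 0 ≤ β) (hβ : β ≤ (1 / 2) ^ (8 * B)) (hZ : 0 ≤ Z)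
    (hJw : k + J.card ≤ w) (hJB : th S * J.card ≤ B)
    (hF : ∀ U ⊆ J, U.card ≤ 8 * B → |((cls.filter (fun n => ∀ e ∈ K ∪ U, P n e)).card : ℝ) -
      ρ * ∏ p ∈ S, (1 - ((k + U.card : ℕ) : ℝ) / p)| ≤ β * (ρ * ∏ p ∈ S, (1 - ((k + U.card : ℕ) : ℝ) / p)) + Z) :
    ((cls.filter (fun n => (∀ e ∈ K, P n e) ∧ ∀ e ∈ J, ¬ P n e)).card : ℝ) ≤
      ρ * th S ^ k * (Real.exp (-(th S * J.card / 2)) + 3 * Real.exp (-(B : ℝ))) + Z * 2 ^ J.card := by
  have hth0 := th_pos (S := S) fun p hp => by have := hS p hp; omega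
  have hth1 := th_le_one (S := S) fun p hp => by have := hS p hp; omega
  obtain ⟨R, hR⟩ : ∃ R, R = 8 * B := ⟨_, rfl⟩
  obtain ⟨θ, hθ⟩ : ∃ θ, θ = th S := ⟨_, rfl⟩
  obtain ⟨N, hN⟩ : ∃ N, N = J.card := ⟨_, rfl⟩
  obtain ⟨F, hFd⟩ : ∃ F : Finset ℕ → ℝ, F = fun U => ((cls.filter (fun n => ∀ e ∈ K ∪ U, P n e)).card : ℝ) := ⟨_, rfl⟩
  rw [← hθ] at hth0 hth1
  have hGb : ∀ m ≤ k + R, 0 ≤ Gp S m ∧ Gp S m ≤ θ ^ m := by
    intro m hm
    obtain ⟨g1, g2⟩ := G_bound hw hS (m := m) (by omega)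
    rw [← hθ] at g2
    exact ⟨Gp_nonneg fun p hp => by have := hS p hp; exact ⟨by omega, by omega⟩, g2⟩
  have hFb : ∀ r ≤ R, ∀ U ∈ powersetCard r J, |F U - ρ * Gp S (k + r)| ≤ β * (ρ * θ ^ (k + r)) + Z := by
    intro r hr U hU
    rw [mem_powersetCard] at hU
    have h1 := hF U hU.1 (by omega)
    rw [hU.2] at h1
    have h2 := (hGb (k + r) (by omega)).2
    have h3 : Gp S (k + r) = ∏ p ∈ S, (1 - ((k + r : ℕ) : ℝ) / p) := rfl
    rw [← h3] at h1
    have h4 : F U = ((cls.filter (fun n => ∀ e ∈ K ∪ U, P n e)).card : ℝ) := by rw [hFd]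
    rw [← h4] at h1
    refine h1.trans (add_le_add_left ?_ _)
    exact mul_le_mul_of_nonneg_left (mul_le_mul_of_nonneg_left h2 hρ) hβ0
  have hB := bonf cls P K J R
  obtain ⟨A, hA⟩ : ∃ A : ℝ, A = ((cls.filter (fun n => (∀ e ∈ K, P n e) ∧ ∀ e ∈ J, ¬ P n e)).card : ℝ) := ⟨_, rfl⟩
  have hB' : |A - ∑ r ∈ range R, (-1 : ℝ) ^ r * ∑ U ∈ powersetCard r J, F U| ≤ ∑ U ∈ powersetCard R J, F U := by
    rw [hA, hFd]
    exact hB
  clear hB
  rw [← hA, ← hθ, ← hN]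
  have hs : ∀ r ≤ R, |∑ U ∈ powersetCard r J, F U - (N.choose r) * (ρ * Gp S (k + r))| ≤ (N.choose r) * (β * (ρ * θ ^ (k + r)) + Z) := by
    intro r hr
    have h1 : ∑ U ∈ powersetCard r J, F U - (N.choose r) * (ρ * Gp S (k + r)) = ∑ U ∈ powersetCard r J, (F U - ρ * Gp S (k + r)) := by
      rw [sum_sub_distrib, sum_const, card_powersetCard, nsmul_eq_mul, hN]
    rw [h1]
    refine (abs_sum_le_sum_abs _ _).trans ((sum_le_sum (hFb r hr)).trans (le_of_eq ?_))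
    rw [sum_const, card_powersetCard, nsmul_eq_mul, hN]
  have e1 : |∑ r ∈ range R, (-1 : ℝ) ^ r * ∑ U ∈ powersetCard r J, F U - ρ * ∑ r ∈ range R, (-1 : ℝ) ^ r * (N.choose r) * Gp S (k + r)| ≤
      ∑ r ∈ range R, (N.choose r) * (β * (ρ * θ ^ (k + r)) + Z) := by
    rw [mul_sum, ← sum_sub_distrib]
    refine (abs_sum_le_sum_abs _ _).trans (sum_le_sum fun r hr => ?_)
    rw [mem_range] at hr
    have h1 : (-1 : ℝ) ^ r * ∑ U ∈ powersetCard r J, F U - ρ * ((-1 : ℝ) ^ r * (N.choose r) * Gp S (k + r)) =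
        (-1 : ℝ) ^ r * (∑ U ∈ powersetCard r J, F U - (N.choose r) * (ρ * Gp S (k + r))) := by ring
    rw [h1, abs_mul, abs_pow, abs_neg, abs_one, one_pow, one_mul]
    exact hs r hr.le
  have e2 := bonf_Qf (S := S) (N := N) k R (fun p hp => by have := hS p hp; exact ⟨by omega, by omega⟩) (fun p hp => by have := hS p hp; omega)
  have e3 := Qf_le (S := S) (k := k) N (fun p hp => by have := hS p hp; exact ⟨by omega, by omega⟩)
  have e4 : ∑ U ∈ powersetCard R J, F U ≤ (N.choose R) * (ρ * θ ^ (k + R)) + (N.choose R) * (β * (ρ * θ ^ (k + R)) + Z) := by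
    have h1 := (abs_le.1 (hs R le_rfl)).2
    have h2 := (hGb (k + R) le_rfl).2
    have h3 : (N.choose R : ℝ) * (ρ * Gp S (k + R)) ≤ (N.choose R) * (ρ * θ ^ (k + R)) :=
      mul_le_mul_of_nonneg_left (mul_le_mul_of_nonneg_left h2 hρ) (by positivity)
    linarith
  have e5 : ∑ r ∈ range R, (N.choose r) * (β * (ρ * θ ^ (k + r)) + Z) + (N.choose R) * (β * (ρ * θ ^ (k + R)) + Z) =
      ρ * θ ^ k * (β * ∑ r ∈ range (R + 1), (N.choose r) * θ ^ r) + Z * ∑ r ∈ range (R + 1), (N.choose r : ℝ) := by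
    rw [← sum_range_succ (fun r => (N.choose r : ℝ) * (β * (ρ * θ ^ (k + r)) + Z)), mul_sum, mul_sum, mul_sum, ← sum_add_distrib]
    refine sum_congr rfl fun r _ => ?_
    rw [pow_add]
    ring
  have e6 : Z * ∑ r ∈ range (R + 1), (N.choose r : ℝ) ≤ Z * 2 ^ N := mul_le_mul_of_nonneg_left (sum_choose_two N R) hZ
  have hNB : θ * N ≤ B := by rw [hθ, hN]; exact hJB
  have e7 : (N.choose R) * θ ^ R ≤ Real.exp (-(B : ℝ)) := by
    refine (choose_le hth0.le N R).trans (le_trans ?_ (fact_bound B))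
    rw [hR]
    exact div_le_div_of_nonneg_right (pow_le_pow_left₀ (by positivity) hNB _) (Nat.cast_nonneg _)
  have e8 : β * ∑ r ∈ range (R + 1), (N.choose r) * θ ^ r ≤ Real.exp (-(B : ℝ)) := by
    refine le_trans ?_ (half_bound B)
    refine mul_le_mul hβ ((sum_choose_le hth0.le N (R + 1)).trans (Real.exp_le_exp.2 hNB)) ?_ (by positivity)
    exact sum_nonneg fun r _ => by positivity
  -- the exact part
  have e9 : Qf S k N ≤ θ ^ k * Real.exp (-(θ * N / 2)) := by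
    have h1 := thk_ge (S := S) (k := k) hw hS (by omega)
    rw [← hθ] at h1
    have h2 : 0 ≤ 1 - thk S k := by
      have : thk S k ≤ 1 := by
        unfold thk
        refine prod_le_one (fun q hq => ?_) (fun q hq => ?_)
        · have h1 := hS q hq
          have h2 : (2 : ℝ) ≤ (q : ℝ) - k := by
            have : ((k + 2 : ℕ) : ℝ) ≤ q := by exact_mod_cast (show k + 2 ≤ q by omega)
            push_cast at this
            linarith
          rw [sub_nonneg, div_le_one (by linarith)]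
          linarith
        · have h1 := hS q hq
          have h2 : (2 : ℝ) ≤ (q : ℝ) - k := by
            have : ((k + 2 : ℕ) : ℝ) ≤ q := by exact_mod_cast (show k + 2 ≤ q by omega)
            push_cast at this
            linarith
          have : 0 ≤ 1 / ((q : ℝ) - k) := by positivity
          linarith
      linarith
    have h3 : (1 - thk S k) ^ N ≤ Real.exp (-(θ * N / 2)) := by
      have h4 : 1 - thk S k ≤ Real.exp (-(θ / 2)) := by
        have := Real.one_sub_le_exp_neg (θ / 2)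
        linarith
      refine (pow_le_pow_left₀ h2 h4 N).trans (le_of_eq ?_)
      rw [← Real.exp_nat_mul]
      congr 1
      ring
    exact e3.trans (mul_le_mul (hGb k (by omega)).2 h3 (pow_nonneg h2 _) (by positivity))
  have t1 := (abs_le.1 hB').2
  have t2 := (abs_le.1 e1).2
  have t3 := mul_le_mul_of_nonneg_left (abs_le.1 e2).2 hρ
  have t4 := mul_le_mul_of_nonneg_left e9 hρ
  have t5 : ρ * ((N.choose R) * Gp S (k + R)) ≤ ρ * θ ^ k * ((N.choose R) * θ ^ R) := by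
    have h1 := mul_le_mul_of_nonneg_left (hGb (k + R) le_rfl).2 (show 0 ≤ ρ * (N.choose R : ℝ) by positivity)
    have h2 : ρ * (N.choose R : ℝ) * θ ^ (k + R) = ρ * θ ^ k * ((N.choose R) * θ ^ R) := by rw [pow_add]; ring
    rw [h2] at h1
    linarith
  have t6 := mul_le_mul_of_nonneg_left e7 (show 0 ≤ ρ * θ ^ k by positivity)
  have t7 := mul_le_mul_of_nonneg_left e8 (show 0 ≤ ρ * θ ^ k by positivity)
  have t8 : (N.choose R : ℝ) * (ρ * θ ^ (k + R)) = ρ * θ ^ k * ((N.choose R) * θ ^ R) := by rw [pow_add]; ring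
  rw [mul_sub] at t3
  nlinarith

open Classical in
/-- **The upper bound in a class.** -/
theorem loc_up {S : Finset ℕ} {w k B : ℕ} (hw : 2 ≤ w) (hS : ∀ p ∈ S, w ≤ p) (hk16 : 16 * k + 2 ≤ w) (hkR : k + 8 * B ≤ w)
    {cls : Finset ℕ} {P : ℕ → ℕ → Prop} {K J : Finset ℕ} {ρ β Z : ℝ} (hρ : 0 ≤ ρ) (hβ0 : 0 ≤ β) (hβ : β ≤ (1 / 2) ^ (8 * B)) (hZ : 0 ≤ Z)
    (hJw : k + J.card ≤ w)
    (hF : ∀ U ⊆ J, U.card ≤ 8 * B → |((cls.filter (fun n => ∀ e ∈ K ∪ U, P n e)).card : ℝ) -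
      ρ * ∏ p ∈ S, (1 - ((k + U.card : ℕ) : ℝ) / p)| ≤ β * (ρ * ∏ p ∈ S, (1 - ((k + U.card : ℕ) : ℝ) / p)) + Z) :
    ((cls.filter (fun n => (∀ e ∈ K, P n e) ∧ ∀ e ∈ J, ¬ P n e)).card : ℝ) ≤
      ρ * th S ^ k * (Real.exp (-(th S * J.card / 2)) + 5 * Real.exp (-((B : ℝ) / 2))) + Z * 2 ^ J.card := by
  have hth0 := th_pos (S := S) fun p hp => by have := hS p hp; omega
  have hth1 := th_le_one (S := S) fun p hp => by have := hS p hp; omega
  have hB0 : (0 : ℝ) ≤ B := Nat.cast_nonneg _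
  have hBB : Real.exp (-(B : ℝ)) ≤ Real.exp (-((B : ℝ) / 2)) := Real.exp_le_exp.2 (by linarith)
  have hρθ : 0 ≤ ρ * th S ^ k := by positivity
  rcases le_or_gt (th S * J.card) B with h | h
  · have h1 := loc_up1 hw hS hk16 hkR hρ hβ0 hβ hZ hJw h hF
    refine h1.trans (add_le_add_left (mul_le_mul_of_nonneg_left ?_ hρθ) _)
    have := Real.exp_pos (-((B : ℝ) / 2))
    linarith
  · obtain ⟨N, hN⟩ : ∃ N, N = ⌊(B : ℝ) / th S⌋₊ := ⟨_, rfl⟩
    have h1 : (N : ℝ) ≤ B / th S := by rw [hN]; exact Nat.floor_le (by positivity)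
    have h2 : (B : ℝ) / th S < N + 1 := by rw [hN]; exact Nat.lt_floor_add_one _
    rw [le_div_iff₀ hth0] at h1
    rw [div_lt_iff₀ hth0] at h2
    have hNJ : N ≤ J.card := by
      by_contra hcon
      push Not at hcon
      have h3 : (J.card : ℝ) ≤ N := by exact_mod_cast hcon.le
      have := mul_le_mul_of_nonneg_right h3 hth0.le
      linarith
    obtain ⟨J', hJ', hJ'c⟩ := exists_subset_card_eq hNJ
    have h3 := loc_up1 hw hS hk16 hkR (cls := cls) (P := P) (K := K) (J := J') hρ hβ0 hβ hZ (by omega) (by rw [hJ'c]; linarith)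
      (fun U hU hUc => hF U (hU.trans hJ') hUc)
    have h4 : ((cls.filter (fun n => (∀ e ∈ K, P n e) ∧ ∀ e ∈ J, ¬ P n e)).card : ℝ) ≤
        ((cls.filter (fun n => (∀ e ∈ K, P n e) ∧ ∀ e ∈ J', ¬ P n e)).card : ℝ) := by
      refine Nat.cast_le.2 (card_le_card fun n hn => ?_)
      rw [mem_filter] at hn ⊢
      exact ⟨hn.1, hn.2.1, fun e he => hn.2.2 e (hJ' he)⟩
    rw [hJ'c] at h3
    have h5 : Real.exp (-(th S * N / 2)) ≤ 2 * Real.exp (-((B : ℝ) / 2)) := by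
      have e1 : Real.exp (-(th S * N / 2)) ≤ Real.exp (1 / 2 + -((B : ℝ) / 2)) := Real.exp_le_exp.2 (by nlinarith)
      rw [Real.exp_add] at e1
      have e2 : Real.exp (1 / 2) ≤ 2 := by
        have e3 : Real.exp (1 / 2) ^ 2 = Real.exp 1 := by
          rw [← Real.exp_nat_mul]
          congr 1
          norm_num
        have e4 := exp_one_le
        nlinarith [Real.exp_pos (1 / 2)]
      have := mul_le_mul_of_nonneg_right e2 (Real.exp_pos (-((B : ℝ) / 2))).le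
      linarith
    have h6 : Z * 2 ^ N ≤ Z * 2 ^ J.card := mul_le_mul_of_nonneg_left (pow_le_pow_right₀ (by norm_num) hNJ) hZ
    have h7 := Real.exp_pos (-(th S * J.card / 2))
    refine h4.trans (h3.trans (add_le_add (mul_le_mul_of_nonneg_left ?_ hρθ) h6))
    linarith

end Pool.Agent.H38.TO
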