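import Pool.Agent.H38.TO.K

/-!
# Runs of rough integers: the exponential moment of the number of rough integers in a short interval
-/

set_option autoImplicit false

namespace Pool.Agent.H38.TO

open Finset Filter Pool.Agent.Q120.MG Pool.Agent.Q120.CL Pool.Agent.H38.LR Pool.Agent.H38.RC

/-- Sums over a product of two coprime moduli. -/
theorem sum_crt2 {m n : ℕ} (hm : 0 < m) (hn : 0 < n) (h : Nat.Coprime m n) (F : ℕ → ℕ → ℝ) :
    ∑ x ∈ range (m * n), F (x % m) (x % n) = ∑ a ∈ range m, ∑ b ∈ range n, F a b := by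
  rw [← sum_product']
  have hinj : Set.InjOn (fun x => (x % m, x % n)) (range (m * n) : Finset ℕ) := by
    intro x hx y hy hxy
    simp only [Prod.mk.injEq] at hxy
    rw [mem_coe, mem_range] at hx hy
    have h1 : x ≡ y [MOD m * n] := (Nat.modEq_and_modEq_iff_modEq_mul h).1 ⟨hxy.1, hxy.2⟩
    have h2 : x % (m * n) = y % (m * n) := h1
    rwa [Nat.mod_eq_of_lt hx, Nat.mod_eq_of_lt hy] at h2
  have himg : (range (m * n)).image (fun x => (x % m, x % n)) = range m ×ˢ range n := by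
    refine eq_of_subset_of_card_le ?_ ?_
    · intro y hy
      obtain ⟨x, _, rfl⟩ := mem_image.1 hy
      rw [mem_product, mem_range, mem_range]
      exact ⟨Nat.mod_lt _ hm, Nat.mod_lt _ hn⟩
    · rw [card_product, card_range, card_range, card_image_of_injOn hinj, card_range]
  rw [← himg, sum_image hinj]

theorem card_one {p : ℕ} (hp : 0 < p) (e : ℕ) : ((range p).filter (fun r => p ∣ r + e)).card = 1 := by
  rw [card_eq_one]
  refine ⟨(p - e % p) % p, ?_⟩
  ext r
  rw [mem_filter, mem_range, mem_singleton]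
  have he : e % p < p := Nat.mod_lt _ hp
  have key : p ∣ r + e ↔ p ∣ r + e % p := by
    rw [Nat.dvd_iff_mod_eq_zero, Nat.dvd_iff_mod_eq_zero, Nat.add_mod_mod]
  rw [key]
  constructor
  · rintro ⟨hr, t, ht⟩
    have ht2 : t < 2 := by
      by_contra hcon
      have : p * 2 ≤ p * t := Nat.mul_le_mul_left _ (by omega)
      omega
    interval_cases t
    · have h1 : e % p = 0 := by omega
      have h2 : r = 0 := by omega
      rw [h1, Nat.sub_zero, Nat.mod_self, h2]
    · have h1 : p - e % p = r := by omega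
      rw [h1, Nat.mod_eq_of_lt hr]
  · rintro rfl
    refine ⟨Nat.mod_lt _ hp, ?_⟩
    rcases Nat.eq_zero_or_pos (e % p) with h0 | h0
    · rw [h0, Nat.sub_zero, Nat.mod_self]
      exact dvd_zero _
    · rw [Nat.mod_eq_of_lt (by omega), Nat.sub_add_cancel he.le]

theorem card_kill {p h r : ℕ} (hp : 0 < p) (hr : r < p) {J : Finset ℕ} (hJ : ∀ e ∈ J, e ≤ h) :
    (J.filter (fun e => p ∣ r + e)).card ≤ h / p + 2 := by
  have h1 : (J.filter (fun e => p ∣ r + e)).card ≤ (range (h / p + 2)).card := by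
    refine card_le_card_of_injOn (fun e => (r + e) / p) ?_ ?_
    · intro e he
      rw [mem_coe, mem_filter] at he
      rw [mem_coe, mem_range]
      have h2 := hJ e he.1
      have h3 : (r + e) / p ≤ (p + h) / p := Nat.div_le_div_right (by omega)
      rw [Nat.add_div_left _ hp] at h3
      show (r + e) / p < _
      omega
    · intro e he e' he' h2
      rw [mem_coe, mem_filter] at he he'
      have h3 := Nat.div_mul_cancel he.2
      have h4 := Nat.div_mul_cancel he'.2
      simp only at h2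
      rw [h2] at h3
      omega
  rwa [card_range] at h1

/-- the exponential moment -/
noncomputable def Em (T J : Finset ℕ) (l : ℝ) : ℝ :=
  ∑ a ∈ range (∏ p ∈ T, p), Real.exp (-(l * ((J.filter (fun e => ∀ p ∈ T, ¬ p ∣ a + e)).card : ℝ)))

theorem Em_insert {T : Finset ℕ} {q : ℕ} (hT : ∀ p ∈ T, p.Prime) (hq : q.Prime) (hqT : q ∉ T) (J : Finset ℕ) (l : ℝ) :
    Em (insert q T) J l = ∑ r ∈ range q, Em T (J.filter (fun e => ¬ q ∣ r + e)) l := by
  classical
  unfold Em
  rw [prod_insert hqT]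
  have hcop : Nat.Coprime q (∏ p ∈ T, p) := Nat.Coprime.prod_right fun p hp => (Nat.coprime_primes hq (hT p hp)).2 fun h => hqT (h ▸ hp)
  rw [← sum_crt2 hq.pos (Finset.prod_pos fun p hp => (hT p hp).pos) hcop
    (fun r a => Real.exp (-(l * (((J.filter (fun e => ¬ q ∣ r + e)).filter (fun e => ∀ p ∈ T, ¬ p ∣ a + e)).card : ℝ))))]
  refine sum_congr rfl fun x _ => ?_
  congr 4
  refine congrArg Finset.card ?_
  ext e
  rw [mem_filter, mem_filter, mem_filter]
  have hmod : ∀ m p : ℕ, p ∣ m → (p ∣ x % m + e ↔ p ∣ x + e) := by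
    intro m p hpm
    rw [← Nat.modEq_zero_iff_dvd, ← Nat.modEq_zero_iff_dvd]
    have h2 : x % m + e ≡ x + e [MOD p] := Nat.ModEq.add_right e ((Nat.mod_modEq x m).of_dvd hpm)
    exact ⟨fun h => h2.symm.trans h, fun h => h2.trans h⟩
  constructor
  · rintro ⟨h1, h2⟩
    refine ⟨⟨h1, fun h => h2 q (mem_insert_self _ _) ((hmod q q dvd_rfl).1 h)⟩, fun p hp h => ?_⟩
    exact h2 p (mem_insert_of_mem hp) ((hmod _ p (dvd_prod_of_mem (fun p => p) hp)).1 h)
  · rintro ⟨⟨h1, h2⟩, h3⟩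
    refine ⟨h1, fun p hp h => ?_⟩
    rcases mem_insert.1 hp with rfl | hp
    · exact h2 ((hmod p p dvd_rfl).2 h)
    · exact h3 p hp ((hmod _ p (dvd_prod_of_mem (fun p => p) hp)).2 h)

theorem Em_le {h y : ℕ} (hy : 2 ≤ y) {l κ : ℝ} (hl : 0 ≤ l) (hκ0 : 0 ≤ κ) (hκ : κ ≤ 1) (hlκ : l * ((h : ℝ) / y + 2) ≤ κ) (T : Finset ℕ) :
    (∀ p ∈ T, p.Prime ∧ y ≤ p) → ∀ J : Finset ℕ, (∀ e ∈ J, e ≤ h) →
      Em T J l ≤ ((∏ p ∈ T, p : ℕ) : ℝ) * Real.exp (-(l * (∏ p ∈ T, (1 - (1 + κ) / (p : ℝ))) * J.card)) := by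
  classical
  induction T using Finset.induction_on with
  | empty =>
    intro _ J _
    unfold Em
    simp
  | insert q T hqT ih =>
    intro hT J hJ
    have hT' : ∀ p ∈ T, p.Prime ∧ y ≤ p := fun p hp => hT p (mem_insert_of_mem hp)
    have hq := hT q (mem_insert_self _ _)
    have hq0 : (0 : ℝ) < q := by exact_mod_cast hq.1.pos
    have hq2 : (2 : ℝ) ≤ q := by exact_mod_cast hq.1.two_le
    have hy0 : (0 : ℝ) < y := by
      have : 0 < y := by omega
      exact_mod_cast this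
    rw [Em_insert (fun p hp => (hT' p hp).1) hq.1 hqT, prod_insert hqT, prod_insert hqT]
    obtain ⟨m, hm⟩ : ∃ m, m = l * ∏ p ∈ T, (1 - (1 + κ) / (p : ℝ)) := ⟨_, rfl⟩
    have hprod : 0 ≤ ∏ p ∈ T, (1 - (1 + κ) / (p : ℝ)) ∧ ∏ p ∈ T, (1 - (1 + κ) / (p : ℝ)) ≤ 1 := by
      have h1 : ∀ p ∈ T, 0 ≤ 1 - (1 + κ) / (p : ℝ) ∧ 1 - (1 + κ) / (p : ℝ) ≤ 1 := by
        intro p hp
        have h2 : (2 : ℝ) ≤ p := by exact_mod_cast (hT' p hp).1.two_le
        refine ⟨?_, ?_⟩
        · rw [sub_nonneg, div_le_one (by linarith)]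
          linarith
        · have : 0 ≤ (1 + κ) / (p : ℝ) := by positivity
          linarith
      exact ⟨prod_nonneg fun p hp => (h1 p hp).1, prod_le_one (fun p hp => (h1 p hp).1) fun p hp => (h1 p hp).2⟩
    have hm0 : 0 ≤ m := by rw [hm]; exact mul_nonneg hl hprod.1
    have hml : m ≤ l := by rw [hm]; nlinarith [hprod.1, hprod.2]
    obtain ⟨M, hM⟩ : ∃ M : ℝ, M = ((∏ p ∈ T, p : ℕ) : ℝ) := ⟨_, rfl⟩
    have hM0 : 0 ≤ M := by rw [hM]; positivity
    have h1 : ∀ r ∈ range q, Em T (J.filter (fun e => ¬ q ∣ r + e)) l ≤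
        M * Real.exp (-(m * J.card)) * (1 + m * (1 + κ) * (J.filter (fun e => q ∣ r + e)).card) := by
      intro r hr
      rw [mem_range] at hr
      have h2 := ih hT' (J.filter (fun e => ¬ q ∣ r + e)) (fun e he => hJ e (mem_filter.1 he).1)
      rw [← hm, ← hM] at h2
      refine h2.trans ?_
      rw [mul_assoc]
      refine mul_le_mul_of_nonneg_left ?_ hM0
      obtain ⟨x, hx⟩ : ∃ x, x = (J.filter (fun e => q ∣ r + e)).card := ⟨_, rfl⟩
      have h3 : ((J.filter (fun e => ¬ q ∣ r + e)).card : ℝ) = J.card - x := by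
        have h4 := card_filter_add_card_filter_not (s := J) (fun e => q ∣ r + e)
        rw [← hx] at h4
        have h5 : (x : ℝ) + ((J.filter (fun e => ¬ q ∣ r + e)).card : ℝ) = J.card := by exact_mod_cast h4
        linarith
      rw [h3, ← hx]
      have h4 : -(m * ((J.card : ℝ) - x)) = -(m * J.card) + m * x := by ring
      rw [h4, Real.exp_add]
      refine mul_le_mul_of_nonneg_left ?_ (Real.exp_pos _).le
      have h5 : (x : ℝ) ≤ (h : ℝ) / y + 2 := by
        have h6 := card_kill (h := h) hq.1.pos hr hJ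
        rw [← hx] at h6
        have h7 : (x : ℝ) ≤ ((h / q + 2 : ℕ) : ℝ) := by exact_mod_cast h6
        push_cast at h7
        have h8 : ((h / q : ℕ) : ℝ) ≤ (h : ℝ) / q := Nat.cast_div_le
        have h9 : (h : ℝ) / q ≤ (h : ℝ) / y := div_le_div_of_nonneg_left (Nat.cast_nonneg _) hy0 (by exact_mod_cast hq.2)
        linarith
      have h6 : m * x ≤ κ := by
        have h7 : m * x ≤ l * ((h : ℝ) / y + 2) := mul_le_mul hml h5 (Nat.cast_nonneg _) hl
        linarith
      have h7 : 0 ≤ m * x := mul_nonneg hm0 (Nat.cast_nonneg _)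
      have h8 := Real.abs_exp_sub_one_sub_id_le (x := m * x) (by rw [abs_of_nonneg h7]; linarith)
      have h9 := (abs_le.1 h8).2
      nlinarith
    refine (sum_le_sum h1).trans ?_
    rw [← mul_sum, sum_add_distrib, sum_const, card_range, nsmul_eq_mul, mul_one, ← mul_sum]
    have h2 : ∑ r ∈ range q, ((J.filter (fun e => q ∣ r + e)).card : ℝ) = J.card := by
      have h3 : ∑ r ∈ range q, (J.filter (fun e => q ∣ r + e)).card = J.card := by
        simp only [card_filter]
        rw [sum_comm]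
        have h4 : ∀ e ∈ J, ∑ r ∈ range q, (if q ∣ r + e then 1 else 0) = 1 := by
          intro e _
          rw [← card_filter, card_one hq.1.pos]
        rw [sum_congr rfl h4, sum_const, smul_eq_mul, mul_one]
      exact_mod_cast h3
    rw [h2]
    have h3 : (q : ℝ) + m * (1 + κ) * J.card ≤ q * Real.exp (m * (1 + κ) / q * J.card) := by
      have h4 := Real.add_one_le_exp (m * (1 + κ) / q * J.card)
      have h5 := mul_le_mul_of_nonneg_left h4 hq0.le
      have h6 : (q : ℝ) * (m * (1 + κ) / q * J.card + 1) = q + m * (1 + κ) * J.card := by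
        field_simp
        ring
      linarith
    have h4 := mul_le_mul_of_nonneg_left h3 (show 0 ≤ M * Real.exp (-(m * J.card)) by positivity)
    refine h4.trans (le_of_eq ?_)
    push_cast
    have h5 : M * Real.exp (-(m * J.card)) * (q * Real.exp (m * (1 + κ) / q * J.card)) =
        q * M * (Real.exp (-(m * J.card)) * Real.exp (m * (1 + κ) / q * J.card)) := by ring
    rw [h5, ← Real.exp_add, hM]
    push_cast
    congr 2
    have h6 : l * ((1 - (1 + κ) / (q : ℝ)) * ∏ p ∈ T, (1 - (1 + κ) / (p : ℝ))) * (J.card : ℝ) = m * (1 - (1 + κ) / q) * J.card := by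
      rw [hm]
      ring
    rw [h6]
    ring

theorem PQ_split {y w : ℕ} (h : y ≤ w) : PQ w = PQ y * ∏ p ∈ Sp y w, p := by
  unfold PQ Sp
  rw [← prod_union]
  · congr 1
    ext p
    rw [mem_union, mem_filter, mem_filter, mem_filter, mem_Ico, mem_range, mem_range]
    constructor
    · rintro ⟨h1, h2⟩
      by_cases h3 : p < y
      · exact Or.inl ⟨h3, h2⟩
      · exact Or.inr ⟨⟨by omega, h1⟩, h2⟩
    · rintro (⟨h1, h2⟩ | ⟨h1, h2⟩)
      · exact ⟨by omega, h2⟩
      · exact ⟨h1.2, h2⟩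
  · rw [Finset.disjoint_left]
    intro p hp hp'
    rw [mem_filter, mem_Ico] at hp'
    rw [mem_filter, mem_range] at hp
    omega

open Classical in
theorem Wf_offsets (w a h : ℕ) : Wf w a h = ((Icc 1 h).filter (fun e => Rough w (a + e))).card := by
  unfold Wf
  symm
  refine card_bij (fun e _ => a + e) ?_ ?_ ?_
  · intro e he
    rw [mem_filter, mem_Icc] at he
    rw [mem_filter, mem_Ioc]
    exact ⟨by omega, he.2⟩
  · intro e _ e' _ h
    exact Nat.add_left_cancel h
  · intro m hm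
    rw [mem_filter, mem_Ioc] at hm
    refine ⟨m - a, ?_, by omega⟩
    rw [mem_filter, mem_Icc]
    refine ⟨by omega, ?_⟩
    have h2 : a + (m - a) = m := by omega
    rw [h2]
    exact hm.2

/-- **The exponential moment.** -/
theorem exp_mom {h y w : ℕ} (hy : 2 ≤ y) (hyw : y ≤ w) {l κ c : ℝ} (hl : 0 ≤ l) (hκ0 : 0 ≤ κ) (hκ : κ ≤ 1) (hlκ : l * ((h : ℝ) / y + 2) ≤ κ)
    (hκw : 4 * κ * (1 + Real.log w) ≤ 1) (hc : 0 ≤ c) (hlow : ∀ a, c * (Vf y * h) ≤ Wf y a h) :
    ∑ a ∈ range (PQ w), Real.exp (-(l * Wf w a h)) ≤ PQ w * Real.exp (-(l / 2 * (c * (Vf w * h)))) := by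
  classical
  have hVy := Vf_pos y
  have hVw := Vf_pos w
  have hTp : ∀ p ∈ Sp y w, p.Prime ∧ y ≤ p := fun p hp => ⟨(mem_Sp.1 hp).2.2, (mem_Sp.1 hp).1⟩
  -- the product
  have hprod : Vf w / Vf y / 2 ≤ ∏ p ∈ Sp y w, (1 - (1 + κ) / (p : ℝ)) := by
    have h1 : ∏ p ∈ Sp y w, ((1 - 1 / (p : ℝ)) * (1 - 2 * κ / p)) ≤ ∏ p ∈ Sp y w, (1 - (1 + κ) / (p : ℝ)) := by
      refine prod_le_prod (fun p hp => ?_) (fun p hp => ?_)
      · have h2 : (2 : ℝ) ≤ p := by exact_mod_cast (hTp p hp).1.two_le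
        have e3 : 0 ≤ 1 - 1 / (p : ℝ) := by
          rw [sub_nonneg, div_le_one (by linarith)]
          linarith
        have e4 : 0 ≤ 1 - 2 * κ / (p : ℝ) := by
          rw [sub_nonneg, div_le_one (by linarith)]
          linarith
        positivity
      · have h2 : (2 : ℝ) ≤ p := by exact_mod_cast (hTp p hp).1.two_le
        have h3 : (0 : ℝ) < p := by linarith
        have h4 : (1 - 1 / (p : ℝ)) * (1 - 2 * κ / p) = (1 - (1 + κ) / (p : ℝ)) - κ / p * (1 - 2 / p) := by
          field_simp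
          ring
        have h5 : 0 ≤ 1 - 2 / (p : ℝ) := by
          rw [sub_nonneg, div_le_one h3]
          exact h2
        have h6 : 0 ≤ κ / (p : ℝ) * (1 - 2 / p) := by positivity
        linarith
    refine le_trans ?_ h1
    rw [prod_mul_distrib]
    have h2 : ∏ p ∈ Sp y w, (1 - 1 / (p : ℝ)) = Vf w / Vf y := by
      rw [eq_div_iff hVy.ne']
      exact th_Vf hyw
    have h3 : 1 - ∑ p ∈ Sp y w, 2 * κ / (p : ℝ) ≤ ∏ p ∈ Sp y w, (1 - 2 * κ / (p : ℝ)) :=
      one_sub_sum_le _ (f := fun p => 2 * κ / (p : ℝ)) (fun p _ => by positivity) (fun p hp => by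
        have h2 : (2 : ℝ) ≤ p := by exact_mod_cast (hTp p hp).1.two_le
        rw [div_le_one (by linarith)]
        linarith)
    have h4 : ∑ p ∈ Sp y w, 2 * κ / (p : ℝ) ≤ 1 / 2 := by
      have e1 : ∑ p ∈ Sp y w, 2 * κ / (p : ℝ) = 2 * κ * ∑ p ∈ Sp y w, 1 / (p : ℝ) := by
        rw [mul_sum]
        refine sum_congr rfl fun p _ => ?_
        ring
      have e2 : ∑ p ∈ Sp y w, 1 / (p : ℝ) ≤ 1 + Real.log w := by
        refine le_trans (sum_le_sum_of_subset_of_nonneg ?_ fun _ _ _ => by positivity) (sum_inv w)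
        intro p hp
        rw [mem_Sp] at hp
        rw [mem_Icc]
        exact ⟨hp.2.2.pos, hp.2.1.le⟩
      rw [e1]
      have := mul_le_mul_of_nonneg_left e2 (show 0 ≤ 2 * κ by positivity)
      linarith
    rw [h2]
    have h5 : 0 < Vf w / Vf y := by positivity
    nlinarith
  -- splitting
  have hcop : Nat.Coprime (PQ y) (∏ p ∈ Sp y w, p) := by
    refine Nat.Coprime.prod_right fun p hp => ?_
    exact ((Nat.Prime.coprime_iff_not_dvd (hTp p hp).1).2 (not_dvd_PQ (hTp p hp).1 (hTp p hp).2)).symm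
  have h1 : ∑ a ∈ range (PQ w), Real.exp (-(l * Wf w a h)) =
      ∑ a ∈ range (PQ y), Em (Sp y w) ((Icc 1 h).filter (fun e => Rough y (a + e))) l := by
    unfold Em
    rw [PQ_split hyw, ← sum_crt2 (PQ_pos y) (Finset.prod_pos fun p hp => (hTp p hp).1.pos) hcop
      (fun a b => Real.exp (-(l * ((((Icc 1 h).filter (fun e => Rough y (a + e))).filter (fun e => ∀ p ∈ Sp y w, ¬ p ∣ b + e)).card : ℝ))))]
    refine sum_congr rfl fun x _ => ?_
    rw [Wf_offsets]
    congr 4
    refine congrArg Finset.card ?_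
    ext e
    rw [mem_filter, mem_filter, mem_filter, rough_split hyw, rough_mod, and_assoc]
    refine and_congr_right fun _ => and_congr_right fun _ => forall₂_congr fun p hp => not_congr ?_
    have hpm : p ∣ ∏ p ∈ Sp y w, p := dvd_prod_of_mem (fun p => p) hp
    rw [← Nat.modEq_zero_iff_dvd, ← Nat.modEq_zero_iff_dvd]
    have h2 : x % (∏ p ∈ Sp y w, p) + e ≡ x + e [MOD p] := Nat.ModEq.add_right e ((Nat.mod_modEq x _).of_dvd hpm)
    exact ⟨fun h => h2.trans h, fun h => h2.symm.trans h⟩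
  rw [h1]
  have h2 : ∀ a ∈ range (PQ y), Em (Sp y w) ((Icc 1 h).filter (fun e => Rough y (a + e))) l ≤
      ((∏ p ∈ Sp y w, p : ℕ) : ℝ) * Real.exp (-(l / 2 * (c * (Vf w * h)))) := by
    intro a _
    have h3 := Em_le (h := h) hy hl hκ0 hκ hlκ (Sp y w) hTp ((Icc 1 h).filter (fun e => Rough y (a + e))) (fun e he => (mem_Icc.1 (mem_filter.1 he).1).2)
    refine h3.trans (mul_le_mul_of_nonneg_left (Real.exp_le_exp.2 ?_) (by positivity))
    have h4 := hlow a
    rw [Wf_offsets] at h4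
    have h5 : l / 2 * (c * (Vf w * h)) = l * (Vf w / Vf y / 2) * (c * (Vf y * h)) := by field_simp
    have h6 : l * (Vf w / Vf y / 2) * (c * (Vf y * h)) ≤ l * (∏ p ∈ Sp y w, (1 - (1 + κ) / (p : ℝ))) * (((Icc 1 h).filter (fun e => Rough y (a + e))).card : ℝ) := by
      refine mul_le_mul (mul_le_mul_of_nonneg_left hprod hl) h4 (by positivity) ?_
      exact mul_nonneg hl (le_trans (by positivity) hprod)
    rw [← h5] at h6
    linarith
  refine (sum_le_sum h2).trans (le_of_eq ?_)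
  rw [sum_const, card_range, nsmul_eq_mul, PQ_split hyw]
  push_cast
  ring

end Pool.Agent.H38.TO
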