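import Pool.Agent.H38.TO.M
import Pool.Agent.H38.TO.R2
import Pool.Agent.H38.TO.R3

/-!
# Runs of rough integers: the runs with large differences
-/

set_option autoImplicit false

namespace Pool.Agent.H38.TO

open Finset Filter Pool.Agent.Q120.MG Pool.Agent.Q120.CL Pool.Agent.H38.LR Pool.Agent.H38.RC

open Classical in
/-- the number of the beginnings of intervals of length `h` without rough integers -/
noncomputable def Fc (z h A X : ℕ) : ℕ := ((Ioc A (A + X)).filter (fun n => ∀ e ∈ Icc 1 h, ¬ Rough z (n + e))).card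

open Classical in
/-- **The upper bounds.** -/
theorem ups : ∃ C : ℕ, 1 ≤ C ∧ ∀ k B b w z D : ℕ, 1 ≤ k → C * (k + 8 * B + 1) ≤ b → C * (k + 8 * B + 1) < w → k + 8 * B ≤ w → 16 * k + 2 ≤ w →
    w ≤ z → (k - 1) * D + 1 ≤ w → D < w → ∀ A X : ℕ,
      (∀ d : ℕ, 1 ≤ d → d ≤ D → (cnt z k d A X : ℝ) ≤
        X * (th (Sp w z) ^ k * (Real.exp k * Fw w k d (th (Sp w z) / 2) + 5 * Real.exp (-((B : ℝ) / 2)))) + PQ w * ((z : ℝ) ^ (2 * C * b) * 2 ^ w)) ∧
      (Fc z D A X : ℝ) ≤ X * ((∑ a ∈ range (PQ w), Real.exp (-(th (Sp w z) / 2 * Wf w a D))) / PQ w + 5 * Real.exp (-((B : ℝ) / 2))) +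
        PQ w * ((z : ℝ) ^ (2 * C * b) * 2 ^ w) := by
  obtain ⟨C, hC, hF⟩ := flE
  refine ⟨C, hC, ?_⟩
  intro k B b w z D hk hb hw hkR hk16 hwz hD hDw A X
  have hP : (0 : ℝ) < PQ w := by exact_mod_cast PQ_pos w
  have hw2 : 2 ≤ w := by omega
  have hS : ∀ p ∈ Sp w z, w ≤ p := fun p hp => (mem_Sp.1 hp).1
  have hth0 := th_pos (S := Sp w z) fun p hp => by have := hS p hp; omega
  have hth1 := th_le_one (S := Sp w z) fun p hp => by have := hS p hp; omega
  obtain ⟨θ, hθ⟩ : ∃ θ, θ = th (Sp w z) := ⟨_, rfl⟩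
  obtain ⟨ρ, hρ⟩ : ∃ ρ, ρ = (X : ℝ) / PQ w := ⟨_, rfl⟩
  have hρ0 : 0 ≤ ρ := by rw [hρ]; positivity
  obtain ⟨Z, hZ⟩ : ∃ Z : ℝ, Z = (z : ℝ) ^ (2 * C * b) := ⟨_, rfl⟩
  have hZ0 : 0 ≤ Z := by rw [hZ]; positivity
  have hb8 : 8 * B ≤ b := by
    have : 1 * (k + 8 * B + 1) ≤ C * (k + 8 * B + 1) := Nat.mul_le_mul_right _ hC
    omega
  have hβ : (1 / 2 : ℝ) ^ b ≤ (1 / 2) ^ (8 * B) := pow_le_pow_of_le_one (by norm_num) (by norm_num) hb8
  have hρX : ρ * PQ w = X := by rw [hρ]; field_simp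
  -- the fundamental lemma for a set of offsets
  have key : ∀ (K J : Finset ℕ) (a : ℕ), a < PQ w → (∀ e ∈ K, e < w) → (∀ e ∈ J, e < w) → Disjoint K J → K.card ≤ k → 
      ∀ U ⊆ J, U.card ≤ 8 * B →
      |((((Ioc A (A + X)).filter (fun n => n % PQ w = a)).filter (fun n => ∀ e ∈ K ∪ U, Pp w z n e)).card : ℝ) -
      ρ * ∏ p ∈ Sp w z, (1 - ((K.card + U.card : ℕ) : ℝ) / p)| ≤ (1 / 2 : ℝ) ^ b * (ρ * ∏ p ∈ Sp w z, (1 - ((K.card + U.card : ℕ) : ℝ) / p)) + Z := by
    intro K J a ha hK hJ hdis hKc U hU hUR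
    have hdis' : Disjoint K U := hdis.mono_right hU
    have hcard : (K ∪ U).card = K.card + U.card := card_union_of_disjoint hdis'
    have h := hF (k + 8 * B) b w z hb hw hwz (by omega) (K ∪ U) (by
      intro e he
      rcases mem_union.1 he with h1 | h1
      · exact hK e h1
      · exact hJ e (hU h1)) (by omega) (PQ w) a A X (PQ_pos w) (fun p hp hwp => not_dvd_PQ hp hwp)
    rw [hcard, ← hρ, ← hZ] at h
    have h2 : (Ioc A (A + X)).filter (fun n => n % PQ w = a % PQ w ∧ ∀ e ∈ K ∪ U, ∀ p ∈ Sp w z, ¬ p ∣ n + e) =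
        ((Ioc A (A + X)).filter (fun n => n % PQ w = a)).filter (fun n => ∀ e ∈ K ∪ U, Pp w z n e) := by
      rw [filter_filter, Nat.mod_eq_of_lt ha]
      exact filter_congr fun n _ => Iff.rfl
    rw [← h2]
    convert h
  rw [← hθ, ← hZ]
  refine ⟨fun d hd hdD => ?_, ?_⟩
  · have hdle : (k - 1) * d ≤ (k - 1) * D := Nat.mul_le_mul_left _ hdD
    have h1 : ∀ a ∈ (range (PQ w)).filter (fun a => RP w k d a), (Nc w z k d A X a : ℝ) ≤
        ρ * θ ^ k * (Real.exp k * gw w k d (θ / 2) a + 5 * Real.exp (-((B : ℝ) / 2))) + Z * 2 ^ w := by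
      intro a ha
      rw [mem_filter, mem_range] at ha
      have hJK : Disjoint (Kd k d) (Jd w k d a) := by
        rw [Finset.disjoint_right]
        intro e he
        unfold Jd at he
        exact (mem_filter.1 he).2.1
      have hc := card_Jd (w := w) hk hd ha.2
      have hWle : Wf w (a + (PQ w - 1)) ((k - 1) * d + 1) ≤ (k - 1) * d + 1 := by
        unfold Wf
        refine (card_filter_le _ _).trans ?_
        rw [Nat.card_Ioc, Nat.add_sub_cancel_left]
      have h2 := key (Kd k d) (Jd w k d a) a ha.1 (fun e he => by have := Kd_le he; omega) (fun e he => by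
        unfold Jd at he
        rw [mem_filter, mem_range] at he
        omega) hJK (by rw [card_Kd hd])
      rw [card_Kd hd] at h2
      have h3 := loc_up (S := Sp w z) (k := k) (B := B) hw2 hS hk16 hkR (cls := (Ioc A (A + X)).filter (fun n => n % PQ w = a)) (P := Pp w z)
        (K := Kd k d) (J := Jd w k d a) hρ0 (show (0 : ℝ) ≤ (1 / 2 : ℝ) ^ b by positivity) hβ hZ0 (by omega) h2
      rw [← hθ] at h3
      have h4 : Nc w z k d A X a = (((Ioc A (A + X)).filter (fun n => n % PQ w = a)).filter (fun n => (∀ e ∈ Kd k d, Pp w z n e) ∧ ∀ e ∈ Jd w k d a, ¬ Pp w z n e)).card := rfl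
      rw [h4]
      refine h3.trans (add_le_add (mul_le_mul_of_nonneg_left (add_le_add_left ?_ _) (by rw [hθ]; positivity)) ?_)
      · unfold gw
        rw [if_pos ha.2]
        unfold Wn
        rw [← hc, ← Real.exp_add, Real.exp_le_exp]
        push_cast
        rw [hθ]
        have : th (Sp w z) * (k : ℝ) ≤ k := by nlinarith [show (0 : ℝ) ≤ k from Nat.cast_nonneg k]
        nlinarith [show (0 : ℝ) ≤ k from Nat.cast_nonneg k]
      · refine mul_le_mul_of_nonneg_left (pow_le_pow_right₀ (by norm_num) ?_) hZ0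
        omega
    rw [cnt_eq hwz hk, Nat.cast_sum]
    refine (sum_le_sum h1).trans ?_
    rw [sum_add_distrib, ← mul_sum, sum_add_distrib, ← mul_sum, sum_const, sum_const, nsmul_eq_mul, nsmul_eq_mul]
    have h2 : ∑ a ∈ (range (PQ w)).filter (fun a => RP w k d a), gw w k d (θ / 2) a = PQ w * Fw w k d (θ / 2) := by
      unfold Fw
      rw [mul_div_cancel₀ _ hP.ne', sum_filter]
      refine sum_congr rfl fun a _ => ?_
      unfold gw
      split_ifs <;> rfl
    have h3 : (((range (PQ w)).filter (fun a => RP w k d a)).card : ℝ) ≤ PQ w := by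
      have := card_filter_le (range (PQ w)) (fun a => RP w k d a)
      rw [card_range] at this
      exact_mod_cast this
    rw [h2]
    have h4 : ρ * θ ^ k * ((((range (PQ w)).filter (fun a => RP w k d a)).card : ℝ) * (5 * Real.exp (-((B : ℝ) / 2)))) ≤
        ρ * θ ^ k * (PQ w * (5 * Real.exp (-((B : ℝ) / 2)))) :=
      mul_le_mul_of_nonneg_left (mul_le_mul_of_nonneg_right h3 (by positivity)) (by rw [hθ]; positivity)
    have h5 : (((range (PQ w)).filter (fun a => RP w k d a)).card : ℝ) * (Z * 2 ^ w) ≤ PQ w * (Z * 2 ^ w) :=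
      mul_le_mul_of_nonneg_right h3 (by positivity)
    have h6 : ρ * θ ^ k * (Real.exp k * (PQ w * Fw w k d (θ / 2))) + ρ * θ ^ k * (PQ w * (5 * Real.exp (-((B : ℝ) / 2)))) =
        X * (θ ^ k * (Real.exp k * Fw w k d (θ / 2) + 5 * Real.exp (-((B : ℝ) / 2)))) := by
      rw [← hρX]
      ring
    rw [mul_add]
    linarith
  · -- the intervals without rough integers
    have h1 : (Fc z D A X : ℝ) = ∑ a ∈ range (PQ w), (((Ioc A (A + X)).filter (fun n => n % PQ w = a)).filter
        (fun n => (∀ e ∈ (∅ : Finset ℕ), Pp w z n e) ∧ ∀ e ∈ (Icc 1 D).filter (fun e => Rough w (a + e)), ¬ Pp w z n e)).card := by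
      unfold Fc
      rw [card_eq_sum_card_fiberwise (f := fun n => n % PQ w) (t := range (PQ w))]
      · push_cast
        refine sum_congr rfl fun a _ => ?_
        congr 1
        refine congrArg Finset.card ?_
        ext n
        simp only [mem_filter]
        constructor
        · rintro ⟨⟨h1, h2⟩, h3⟩
          refine ⟨⟨h1, h3⟩, by simp, fun e he hP => ?_⟩
          refine h2 e he.1 ((rough_split hwz).2 ⟨?_, hP⟩)
          rw [← rough_mod, h3]
          exact he.2
        · rintro ⟨⟨h1, h3⟩, _, h4⟩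
          refine ⟨⟨h1, fun e he hR => ?_⟩, h3⟩
          have h5 := (rough_split hwz).1 hR
          refine h4 e ⟨he, ?_⟩ h5.2
          rw [← h3, rough_mod]
          exact h5.1
      · intro n _
        rw [mem_coe, mem_range]
        exact Nat.mod_lt _ (PQ_pos w)
    rw [h1]
    have h2 : ∀ a ∈ range (PQ w), ((((Ioc A (A + X)).filter (fun n => n % PQ w = a)).filter
        (fun n => (∀ e ∈ (∅ : Finset ℕ), Pp w z n e) ∧ ∀ e ∈ (Icc 1 D).filter (fun e => Rough w (a + e)), ¬ Pp w z n e)).card : ℝ) ≤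
        ρ * (Real.exp (-(θ / 2 * Wf w a D)) + 5 * Real.exp (-((B : ℝ) / 2))) + Z * 2 ^ w := by
      intro a ha
      rw [mem_range] at ha
      have hJle : ((Icc 1 D).filter (fun e => Rough w (a + e))).card ≤ D := by
        refine (card_filter_le _ _).trans ?_
        rw [Nat.card_Icc, Nat.add_sub_cancel]
      have h3 := key ∅ ((Icc 1 D).filter (fun e => Rough w (a + e))) a ha (by simp) (fun e he => by
        rw [mem_filter, mem_Icc] at he
        omega) (disjoint_empty_left _) (by simp)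
      rw [card_empty] at h3
      have h4 := loc_up (S := Sp w z) (k := 0) (B := B) hw2 hS (by omega) (by omega) (cls := (Ioc A (A + X)).filter (fun n => n % PQ w = a)) (P := Pp w z)
        (K := ∅) (J := (Icc 1 D).filter (fun e => Rough w (a + e))) hρ0 (show (0 : ℝ) ≤ (1 / 2 : ℝ) ^ b by positivity) hβ hZ0 (by omega) h3
      rw [← hθ, pow_zero, mul_one, ← Wf_offsets] at h4
      refine h4.trans (add_le_add (le_of_eq ?_) ?_)
      · congr 4
        ring
      · refine mul_le_mul_of_nonneg_left (pow_le_pow_right₀ (by norm_num) ?_) hZ0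
        rw [Wf_offsets]
        omega
    push_cast
    refine (sum_le_sum h2).trans (le_of_eq ?_)
    rw [sum_add_distrib, ← mul_sum, sum_add_distrib, sum_const, sum_const, card_range, nsmul_eq_mul, nsmul_eq_mul, ← hρX]
    field_simp

open Classical in
/-- the runs with large differences -/
theorem tail_le {k : ℕ} (hk : 2 ≤ k) (z D₁ D₂ A X : ℕ) :
    ((Ioc A (A + X)).filter (fun n => ∃ d, D₁ < d ∧ Run {m | Rough z m} n k d)).card ≤ ∑ d ∈ Ioc D₁ D₂, cnt z k d A X + Fc z D₂ A X := by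
  have h1 : (Ioc A (A + X)).filter (fun n => ∃ d, D₁ < d ∧ Run {m | Rough z m} n k d) ⊆
      ((Ioc D₁ D₂).biUnion (fun d => (Ioc A (A + X)).filter (fun n => Run {m | Rough z m} n k d))) ∪
        (Ioc A (A + X)).filter (fun n => ∀ e ∈ Icc 1 D₂, ¬ Rough z (n + e)) := by
    intro n hn
    rw [mem_filter] at hn
    obtain ⟨h1, d, h2, h3⟩ := hn
    rw [mem_union, mem_biUnion]
    by_cases h4 : d ≤ D₂
    · exact Or.inl ⟨d, mem_Ioc.2 ⟨h2, h4⟩, mem_filter.2 ⟨h1, h3⟩⟩
    · refine Or.inr (mem_filter.2 ⟨h1, fun e he hR => ?_⟩)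
      rw [mem_Icc] at he
      have h5 : d ≤ (k - 1) * d := Nat.le_mul_of_pos_left _ (by omega)
      obtain ⟨i, _, h6⟩ := (h3 (n + e) (by omega) (by omega)).1 hR
      rcases Nat.eq_zero_or_pos i with h0 | h0
      · rw [h0] at h6
        omega
      · have : d ≤ i * d := Nat.le_mul_of_pos_left _ h0
        omega
  refine (card_le_card h1).trans ((card_union_le _ _).trans (add_le_add_left (card_biUnion_le) _))

end Pool.Agent.H38.TO
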