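import Pool.Agent.H38.TO.R4
import Pool.Agent.H38.TO.N

/-!
# Runs of rough integers: the parameters for the runs with large differences
-/

set_option autoImplicit false

namespace Pool.Agent.H38.TO

open Finset Filter Pool.Agent.Q120.MG Pool.Agent.Q120.CL Pool.Agent.H38.LR Pool.Agent.H38.RC
open scoped Topology

/-- the sequences of the parameter `w` -/
def Adm (w : ℕ → ℕ) : Prop := Tendsto w atTop atTop ∧ ∃ C : ℝ, 1 ≤ C ∧ ∀ᶠ z : ℕ in atTop, (w z : ℝ) ≤ C * Real.log z ^ 2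

/-- powers of `log w` are negligible -/
theorem logw_gen {w : ℕ → ℕ} (hw : Adm w) (m : ℕ) {r : ℝ} (hr : 0 < r) :
    Tendsto (fun z : ℕ => Real.log (w z) ^ m / Real.log z ^ r) atTop (𝓝 0) := by
  obtain ⟨hw1, C, hC, h⟩ := hw
  have h1 : Tendsto (fun y : ℝ => Real.log y ^ m / y ^ (r / 2)) atTop (𝓝 0) := by
    have h2 := (isLittleO_log_rpow_rpow_atTop (m : ℝ) (show (0 : ℝ) < r / 2 by positivity)).tendsto_div_nhds_zero
    refine h2.congr fun y => ?_
    rw [Real.rpow_natCast]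
  have h2 : Tendsto (fun z : ℕ => C * Real.log z ^ 2) atTop atTop :=
    ((tendsto_pow_atTop (by norm_num)).comp log_top).const_mul_atTop (by linarith)
  have h3 := (h1.comp h2).const_mul (C ^ (r / 2))
  rw [mul_zero] at h3
  refine tendsto_of_tendsto_of_tendsto_of_le_of_le' tendsto_const_nhds h3 ?_ ?_
  · filter_upwards [log_top.eventually_ge_atTop 1] with z hz
    have : 0 ≤ Real.log (w z : ℝ) := Real.log_natCast_nonneg _
    positivity
  · filter_upwards [h, log_top.eventually_ge_atTop 1, hw1.eventually_ge_atTop 1] with z h4 h5 h6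
    have hw : (1 : ℝ) ≤ w z := by exact_mod_cast h6
    have h6 : Real.log (w z) ≤ Real.log (C * Real.log z ^ 2) := Real.log_le_log (by linarith) h4
    have h7 : 0 ≤ Real.log (w z : ℝ) := Real.log_natCast_nonneg _
    have h8 := pow_le_pow_left₀ h7 h6 m
    simp only [Function.comp]
    have hq : 0 < Real.log (z : ℝ) := by linarith
    have e1 : (C * Real.log z ^ 2) ^ (r / 2) = C ^ (r / 2) * Real.log z ^ r := by
      rw [Real.mul_rpow (by linarith) (by positivity), ← Real.rpow_natCast, ← Real.rpow_mul hq.le]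
      congr 2
      push_cast
      ring
    rw [e1]
    have hCr : 0 < C ^ (r / 2) := Real.rpow_pos_of_pos (by linarith) _
    have hqr : 0 < Real.log z ^ r := Real.rpow_pos_of_pos hq _
    have h9 : C ^ (r / 2) * (Real.log (C * Real.log z ^ 2) ^ m / (C ^ (r / 2) * Real.log z ^ r)) = Real.log (C * Real.log z ^ 2) ^ m / Real.log z ^ r := by
      field_simp
    rw [h9]
    exact div_le_div_of_nonneg_right h8 hqr.le

theorem ell_gen {w : ℕ → ℕ} (hw : Adm w) : ∃ C : ℝ, 1 ≤ C ∧ ∀ᶠ z : ℕ in atTop, 1 / Vf (w z) ≤ C * Real.log (w z) := by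
  obtain ⟨C, hC, h⟩ := Vf_ge
  refine ⟨C + 1, by linarith, ?_⟩
  filter_upwards [hw.1.eventually h] with z hz
  have h1 := hz (w z) le_rfl
  have h2 : 0 ≤ Real.log (w z : ℝ) := Real.log_natCast_nonneg _
  linarith

/-- powers of `1 / V (w)` are negligible -/
theorem l_gen {w : ℕ → ℕ} (hw : Adm w) (m : ℕ) {r : ℝ} (hr : 0 < r) :
    Tendsto (fun z : ℕ => (1 / Vf (w z)) ^ m / Real.log z ^ r) atTop (𝓝 0) := by
  obtain ⟨C, hC, h⟩ := ell_gen hw
  have h1 := (logw_gen hw m hr).const_mul (C ^ m)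
  rw [mul_zero] at h1
  refine tendsto_of_tendsto_of_tendsto_of_le_of_le' tendsto_const_nhds h1 ?_ ?_
  · filter_upwards [log_top.eventually_ge_atTop 1] with z hz
    have := Vf_pos (w z)
    positivity
  · filter_upwards [h, log_top.eventually_ge_atTop 1] with z h2 h4
    have hVw := Vf_pos (w z)
    have h5 := pow_le_pow_left₀ (show 0 ≤ 1 / Vf (w z) by positivity) h2 m
    rw [mul_pow] at h5
    have : 0 < Real.log z ^ r := Real.rpow_pos_of_pos (by linarith) _
    rw [mul_div_assoc']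
    exact div_le_div_of_nonneg_right h5 this.le

theorem Vl_gen {w : ℕ → ℕ} (hw : Adm w) (m : ℕ) :
    Tendsto (fun z : ℕ => Vf z * (1 / Vf (w z)) ^ m * Real.sqrt (Real.log z)) atTop (𝓝 0) := by
  obtain ⟨g, hg, hV⟩ := V_bounds
  have h1 := (l_gen hw m (show (0 : ℝ) < 1 / 2 by norm_num)).const_mul (4 * g)
  rw [mul_zero] at h1
  refine tendsto_of_tendsto_of_tendsto_of_le_of_le' tendsto_const_nhds h1 ?_ ?_
  · filter_upwards with z
    have := Vf_pos z
    have := Vf_pos (w z)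
    positivity
  · filter_upwards [hV, log_top.eventually_ge_atTop 1] with z h3 h4
    have hVz := Vf_pos z
    have hVw := Vf_pos (w z)
    have hs : 0 < Real.sqrt (Real.log z) := Real.sqrt_pos.2 (by linarith)
    have hss : Real.sqrt (Real.log z) * Real.sqrt (Real.log z) = Real.log z := Real.mul_self_sqrt (by linarith)
    have h6 : Vf z * Real.sqrt (Real.log z) ≤ 4 * g / Real.sqrt (Real.log z) := by
      rw [le_div_iff₀ hs, mul_assoc, hss]
      exact h3.2
    rw [← Real.sqrt_eq_rpow]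
    calc Vf z * (1 / Vf (w z)) ^ m * Real.sqrt (Real.log z) = (Vf z * Real.sqrt (Real.log z)) * (1 / Vf (w z)) ^ m := by ring
      _ ≤ (4 * g / Real.sqrt (Real.log z)) * (1 / Vf (w z)) ^ m := mul_le_mul_of_nonneg_right h6 (by positivity)
      _ = _ := by ring

theorem Vl_gen' {w : ℕ → ℕ} (hw : Adm w) (m : ℕ) : Tendsto (fun z : ℕ => Vf z * (1 / Vf (w z)) ^ m) atTop (𝓝 0) := by
  refine tendsto_of_tendsto_of_tendsto_of_le_of_le' tendsto_const_nhds (Vl_gen hw m) ?_ ?_
  · filter_upwards with z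
    have := Vf_pos z
    have := Vf_pos (w z)
    positivity
  · filter_upwards [log_top.eventually_ge_atTop 1] with z h4
    have hVz := Vf_pos z
    have hVw := Vf_pos (w z)
    have hs : 1 ≤ Real.sqrt (Real.log z) := Real.one_le_sqrt.2 h4
    have : 0 ≤ Vf z * (1 / Vf (w z)) ^ m := by positivity
    nlinarith

/-- the error terms of the sum over the differences -/
theorem err_gen {w : ℕ → ℕ} (hw : Adm w) (k : ℕ) {D : ℕ → ℕ} (hD : ∀ᶠ z in atTop, D z ≤ w z) {Y : ℕ → ℝ} {C : ℝ}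
    (hY0 : ∀ᶠ z in atTop, 0 ≤ Y z) (hY : ∀ᶠ z in atTop, Y z * Vf z ≤ C) :
    Tendsto (fun z : ℕ => Vf z * (1 / Vf (w z)) ^ k *
      (12 * (1 + Real.log (D z)) / Vf (w z) + 24 * Real.sqrt (Real.log z) / Vf (w z) + Y z / Real.sqrt (Real.log z) + Vf (w z))) atTop (𝓝 0) := by
  have hA := Vl_gen hw (k + 1)
  have hB := l_gen hw k (show (0 : ℝ) < 1 / 2 by norm_num)
  have hL := logw_gen hw 1 (show (0 : ℝ) < 1 / 2 by norm_num)
  have hb : Tendsto (fun z : ℕ => 24 * (Vf z * (1 / Vf (w z)) ^ (k + 1) * Real.sqrt (Real.log z)) +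
      24 * (Vf z * (1 / Vf (w z)) ^ (k + 1) * Real.sqrt (Real.log z)) + |C| * ((1 / Vf (w z)) ^ k / Real.log z ^ (1 / 2 : ℝ)) +
      (Vf z * (1 / Vf (w z)) ^ (k + 1) * Real.sqrt (Real.log z))) atTop (𝓝 0) := by
    have h1 := (((hA.const_mul 24).add (hA.const_mul 24)).add (hB.const_mul |C|)).add hA
    simpa using h1
  refine tendsto_of_tendsto_of_tendsto_of_le_of_le' tendsto_const_nhds hb ?_ ?_
  · filter_upwards [hY0] with z hY0
    have hVz := Vf_pos z
    have hVw := Vf_pos (w z)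
    have h1 : 0 ≤ Real.log (D z : ℝ) := Real.log_natCast_nonneg _
    positivity
  · filter_upwards [hY0, hY, hD, log_top.eventually_ge_atTop 1, hL.eventually (gt_mem_nhds (show (0 : ℝ) < 1 by norm_num)), hw.1.eventually_ge_atTop 1] with
      z hY0 hY hD hq hL hw1
    have hVz := Vf_pos z
    have hVw := Vf_pos (w z)
    have hVw1 := Vf_le_one (w z)
    obtain ⟨s, hs⟩ : ∃ s, s = Real.sqrt (Real.log z) := ⟨_, rfl⟩
    obtain ⟨l, hl⟩ : ∃ l, l = 1 / Vf (w z) := ⟨_, rfl⟩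
    obtain ⟨v, hv⟩ : ∃ v, v = Vf z := ⟨_, rfl⟩
    have hs1 : 1 ≤ s := by rw [hs]; exact Real.one_le_sqrt.2 hq
    have hl1 : 1 ≤ l := by rw [hl, le_div_iff₀ hVw]; linarith
    have hv0 : 0 < v := by rw [hv]; exact hVz
    have hsq : Real.log (z : ℝ) ^ (1 / 2 : ℝ) = s := by rw [hs, Real.sqrt_eq_rpow]
    rw [hsq] at hL
    rw [hsq, ← hs, ← hl, ← hv]
    have e1 : Real.log (D z : ℝ) ≤ s := by
      have h1 : Real.log (D z : ℝ) ≤ Real.log (w z : ℝ) := by
        rcases Nat.eq_zero_or_pos (D z) with h0 | h0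
        · rw [h0]
          simp only [Nat.cast_zero, Real.log_zero]
          exact Real.log_natCast_nonneg _
        · exact Real.log_le_log (by exact_mod_cast h0) (by exact_mod_cast hD)
      rw [pow_one, div_lt_one (by linarith)] at hL
      linarith
    have e2 : 12 * (1 + Real.log (D z)) / Vf (w z) ≤ 24 * (l * s) := by
      have h1 : 12 * (1 + Real.log (D z)) / Vf (w z) = 12 * (1 + Real.log (D z)) * l := by rw [hl]; ring
      rw [h1]
      have h2 : 12 * (1 + Real.log (D z)) * l ≤ 12 * (s + s) * l := mul_le_mul_of_nonneg_right (by linarith) (by linarith)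
      linarith
    have e3 : 24 * s / Vf (w z) = 24 * (l * s) := by rw [hl]; ring
    have e4 : Vf (w z) ≤ l * s := by nlinarith
    have e5 : v * l ^ k * (Y z / s) ≤ |C| * (l ^ k / s) := by
      have h1 : v * l ^ k * (Y z / s) = (Y z * v) * (l ^ k / s) := by ring
      rw [h1]
      refine mul_le_mul_of_nonneg_right ?_ (by positivity)
      rw [hv]
      exact hY.trans (le_abs_self C)
    have e6 : v * l ^ k * (12 * (1 + Real.log (D z)) / Vf (w z) + 24 * s / Vf (w z) + Y z / s + Vf (w z)) ≤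
        v * l ^ k * (24 * (l * s) + 24 * (l * s) + Y z / s + l * s) := by
      refine mul_le_mul_of_nonneg_left ?_ (by positivity)
      linarith
    refine e6.trans ?_
    have e7 : v * l ^ k * (24 * (l * s) + 24 * (l * s) + Y z / s + l * s) =
        24 * (v * l ^ (k + 1) * s) + 24 * (v * l ^ (k + 1) * s) + v * l ^ k * (Y z / s) + v * l ^ (k + 1) * s := by ring
    rw [e7]
    linarith

/-- the tail of the geometric sum -/
theorem geo_tail {a : ℝ} (ha : 0 < a) (D₁ D₂ : ℕ) : ∑ d ∈ Ioc D₁ D₂, Real.exp (-(a * d)) ≤ Real.exp (-(a * D₁)) / a := by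
  rcases le_or_gt D₂ D₁ with h | h
  · rw [Ioc_eq_empty (by omega), sum_empty]
    positivity
  have h1 : ∀ D : ℕ, D₁ ≤ D → ∑ d ∈ Ioc D₁ D, Real.exp (-(a * d)) ≤ (Real.exp (-(a * D₁)) - Real.exp (-(a * D))) / a := by
    intro D hD
    induction D, hD using Nat.le_induction with
    | base => simp
    | succ D hD ih =>
      rw [Finset.sum_Ioc_succ_top hD]
      have e1 : Real.exp (-(a * ((D + 1 : ℕ) : ℝ))) * (a + 1) ≤ Real.exp (-(a * D)) := by
        have e2 : Real.exp (-(a * D)) = Real.exp (-(a * ((D + 1 : ℕ) : ℝ))) * Real.exp a := by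
          rw [← Real.exp_add]
          congr 1
          push_cast
          ring
        rw [e2]
        exact mul_le_mul_of_nonneg_left (Real.add_one_le_exp a) (Real.exp_pos _).le
      have e3 : Real.exp (-(a * ((D + 1 : ℕ) : ℝ))) ≤ (Real.exp (-(a * D)) - Real.exp (-(a * ((D + 1 : ℕ) : ℝ)))) / a := by
        rw [le_div_iff₀ ha]
        linarith
      have e4 : (Real.exp (-(a * D₁)) - Real.exp (-(a * ((D + 1 : ℕ) : ℝ)))) / a =
          (Real.exp (-(a * D₁)) - Real.exp (-(a * D))) / a + (Real.exp (-(a * D)) - Real.exp (-(a * ((D + 1 : ℕ) : ℝ)))) / a := by ring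
      rw [e4]
      linarith
  refine (h1 D₂ h.le).trans (div_le_div_of_nonneg_right ?_ ha.le)
  have := Real.exp_pos (-(a * (D₂ : ℝ)))
  linarith

/-- **The middle range.** -/
theorem mid_part {w D : ℕ → ℕ} (hw : Adm w) (hwz : ∀ᶠ z in atTop, w z ≤ z) {k : ℕ} (hk : 2 ≤ k) {u : ℝ} (hu : 0 < u)
    (hD : ∀ᶠ z in atTop, D z ≤ w z) (hDD : ∀ᶠ z in atTop, Dz u z ≤ D z) {γ : ℝ} (hγ : Tendsto (fun z => gam z k) atTop (𝓝 γ)) {ε : ℝ} (hε : 0 < ε) :
    ∀ᶠ z : ℕ in atTop, th (Sp (w z) z) ^ k * ∑ d ∈ Ioc (Dz u z) (D z), Fw (w z) k d (th (Sp (w z) z) / 2) ≤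
      (2 * (γ + 1) * Real.exp (-((u - 1) / 2)) + ε) * Vf z ^ (k - 1) := by
  have hk' : (2 : ℝ) ≤ k := by exact_mod_cast hk
  have hg : Tendsto (fun z : ℕ => gam (w z) k) atTop (𝓝 γ) := hγ.comp hw.1
  have hY0 : ∀ᶠ z : ℕ in atTop, (0 : ℝ) ≤ 2 / Vf z := by
    filter_upwards with z
    have := Vf_pos z
    positivity
  have hY : ∀ᶠ z : ℕ in atTop, 2 / Vf z * Vf z ≤ 2 := by
    filter_upwards with z
    have := Vf_pos z
    rw [div_mul_cancel₀ _ this.ne']
  have hE1 := err_gen hw k (hDD.and hD |>.mono fun z h => h.1.trans h.2) hY0 hY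
  have hE2 := err_gen hw k hD hY0 hY
  filter_upwards [hwz, hD, hDD, hg.eventually (gt_mem_nhds (show γ < γ + 1 by linarith)), log_top.eventually_ge_atTop 1,
    hE1.eventually (gt_mem_nhds (show 0 < ε / 2 by positivity)), hE2.eventually (gt_mem_nhds (show 0 < ε / 2 by positivity))] with
    z hwz hD hDD hg hq hE1 hE2
  have hVz := Vf_pos z
  have hVw := Vf_pos (w z)
  have hP : (0 : ℝ) < PQ (w z) := by exact_mod_cast PQ_pos (w z)
  have hs : 0 < Real.sqrt (Real.log z) := Real.sqrt_pos.2 (by linarith)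
  have hYp : 0 < 2 / Vf z := by positivity
  have hθ := th_eq hwz
  have hb : 1 / (Vf (w z) * (2 / Vf z)) = th (Sp (w z) z) / 2 := by
    rw [hθ]
    field_simp
  have hF1 := Fw_sum (w z) (Dz u z) hk hYp hs
  have hF2 := Fw_sum (w z) (D z) hk hYp hs
  rw [hb] at hF1 hF2
  obtain ⟨a, ha⟩ : ∃ a, a = ((k : ℝ) - 1) / (2 / Vf z) := ⟨_, rfl⟩
  have ha' : a = ((k : ℝ) - 1) * Vf z / 2 := by rw [ha]; field_simp
  have ha0 : 0 < a := by rw [ha']; have : 0 < (k : ℝ) - 1 := by linarith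
                         positivity
  rw [← ha] at hF1 hF2
  have hsplit : ∀ f : ℕ → ℝ, ∑ d ∈ Icc 1 (D z), f d = ∑ d ∈ Icc 1 (Dz u z), f d + ∑ d ∈ Ioc (Dz u z) (D z), f d := by
    intro f
    rw [← sum_union]
    · congr 1
      ext d
      rw [mem_union, mem_Icc, mem_Icc, mem_Ioc]
      omega
    · rw [Finset.disjoint_left]
      intro d hd hd'
      rw [mem_Icc] at hd
      rw [mem_Ioc] at hd'
      omega
  have hSS : SS a (D z) - SS a (Dz u z) ≤ Real.exp (-(a * Dz u z)) / a := by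
    unfold SS
    rw [hsplit (fun d => Real.exp (-(a * d)))]
    have := geo_tail ha0 (Dz u z) (D z)
    linarith
  obtain ⟨G, hG⟩ : ∃ G, G = (R2 (w z) k : ℝ) / (PQ (w z) : ℝ) ^ 2 := ⟨_, rfl⟩
  have hGe : G = gam (w z) k * Vf (w z) ^ k := by
    rw [hG, R2_gam (by omega : 1 ≤ k)]
    field_simp
  have hγz := gam_pos (w z) k
  have hG0 : 0 ≤ G := by rw [hGe]; positivity
  rw [← hG] at hF1 hF2
  have h1 := (abs_le.1 hF2).2
  have h2 := (abs_le.1 hF1).1
  rw [hsplit] at h1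
  obtain ⟨e, he⟩ : ∃ e, e = Real.exp (-(1 / (2 / Vf z))) := ⟨_, rfl⟩
  have he0 : 0 ≤ e := by rw [he]; positivity
  have he1 : e ≤ 1 := by
    rw [he, Real.exp_le_one_iff]
    have : 0 ≤ 1 / (2 / Vf z) := by positivity
    linarith
  rw [← he] at h1 h2
  have h3 : e * (G * SS a (D z)) - e * (G * SS a (Dz u z)) ≤ G * (Real.exp (-(a * Dz u z)) / a) := by
    have e1 : e * (G * SS a (D z)) - e * (G * SS a (Dz u z)) = e * (G * (SS a (D z) - SS a (Dz u z))) := by ring
    rw [e1]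
    have e2 := mul_le_mul_of_nonneg_left hSS hG0
    have e3 := mul_le_mul_of_nonneg_left e2 he0
    have e4 : 0 ≤ G * (Real.exp (-(a * Dz u z)) / a) := by positivity
    nlinarith
  have h4 : ∑ d ∈ Ioc (Dz u z) (D z), Fw (w z) k d (th (Sp (w z) z) / 2) ≤ G * (Real.exp (-(a * Dz u z)) / a) +
      (12 * (1 + Real.log (Dz u z)) / Vf (w z) + 24 * Real.sqrt (Real.log z) / Vf (w z) + 2 / Vf z / Real.sqrt (Real.log z) + Vf (w z)) +
      (12 * (1 + Real.log (D z)) / Vf (w z) + 24 * Real.sqrt (Real.log z) / Vf (w z) + 2 / Vf z / Real.sqrt (Real.log z) + Vf (w z)) := by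
    linarith
  have hpk : Vf z ^ k = Vf z ^ (k - 1) * Vf z := by rw [← pow_succ]; congr 1; omega
  have hθk : th (Sp (w z) z) ^ k = Vf z ^ (k - 1) * (Vf z * (1 / Vf (w z)) ^ k) := by
    rw [hθ, div_pow, hpk, one_div_pow]
    field_simp
  have hθk0 : 0 ≤ th (Sp (w z) z) ^ k := by rw [hθk]; positivity
  refine (mul_le_mul_of_nonneg_left h4 hθk0).trans ?_
  rw [mul_add, mul_add]
  have h5 : th (Sp (w z) z) ^ k * (G * (Real.exp (-(a * Dz u z)) / a)) ≤ 2 * (γ + 1) * Real.exp (-((u - 1) / 2)) * Vf z ^ (k - 1) := by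
    have hk1 : 0 < (k : ℝ) - 1 := by linarith
    have e1 : th (Sp (w z) z) ^ k * (G * (Real.exp (-(a * Dz u z)) / a)) = Vf z ^ (k - 1) * (gam (w z) k * (2 / ((k : ℝ) - 1)) * Real.exp (-(a * Dz u z))) := by
      rw [hθk, hGe, one_div_pow]
      obtain ⟨E, hE⟩ : ∃ E, E = Real.exp (-(a * Dz u z)) := ⟨_, rfl⟩
      rw [← hE, ha']
      field_simp
    rw [e1, mul_comm]
    refine mul_le_mul_of_nonneg_right ?_ (by positivity)
    have e2 : 2 / ((k : ℝ) - 1) ≤ 2 := by
      rw [div_le_iff₀ hk1]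
      linarith
    have e3 : Real.exp (-(a * Dz u z)) ≤ Real.exp (-((u - 1) / 2)) := by
      refine Real.exp_le_exp.2 ?_
      have e4 : u - 1 ≤ (Dz u z : ℝ) * Vf z := by
        have h6 := Nat.lt_floor_add_one (u / Vf z)
        have h7 : u / Vf z * Vf z = u := by field_simp
        have h8 : u / Vf z * Vf z ≤ ((Dz u z : ℝ) + 1) * Vf z := mul_le_mul_of_nonneg_right h6.le hVz.le
        have h9 := Vf_le_one z
        linarith
      have e5 : 0 ≤ (Dz u z : ℝ) * Vf z := by positivity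
      have e6 : a * Dz u z = ((k : ℝ) - 1) * ((Dz u z : ℝ) * Vf z) / 2 := by rw [ha']; ring
      rw [e6]
      nlinarith
    have e4 : gam (w z) k * (2 / ((k : ℝ) - 1)) ≤ (γ + 1) * 2 := mul_le_mul hg.le e2 (by positivity) (by linarith)
    have e5 : 0 ≤ gam (w z) k * (2 / ((k : ℝ) - 1)) := by positivity
    calc gam (w z) k * (2 / ((k : ℝ) - 1)) * Real.exp (-(a * Dz u z)) ≤ ((γ + 1) * 2) * Real.exp (-((u - 1) / 2)) :=
          mul_le_mul e4 e3 (Real.exp_pos _).le (e5.trans e4)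
      _ = _ := by ring
  have h6 : ∀ E : ℝ, Vf z * (1 / Vf (w z)) ^ k * E < ε / 2 → th (Sp (w z) z) ^ k * E ≤ ε / 2 * Vf z ^ (k - 1) := by
    intro E hE
    rw [hθk]
    have := mul_le_mul_of_nonneg_left hE.le (show 0 ≤ Vf z ^ (k - 1) by positivity)
    linarith
  have h7 := h6 _ hE1
  have h8 := h6 _ hE2
  linarith

end Pool.Agent.H38.TO
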