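import Pool.Agent.H38.TO.R5
import Pool.Agent.H38.TO.Q
import Pool.Agent.H38.LR.T3997.Q210.MG.Low

/-!
# Runs of rough integers: all differences
-/

set_option autoImplicit false

namespace Pool.Agent.H38.TO

open Finset Filter Pool.Agent.Q120.MG Pool.Agent.Q120.CL Pool.Agent.H38.LR Pool.Agent.H38.RC
open scoped Topology

/-- `log z · log log z` -/
noncomputable def qL (z : ℕ) : ℝ := Real.log z * Real.log (Real.log z)

theorem loglog_top : Tendsto (fun z : ℕ => Real.log (Real.log z)) atTop atTop := Real.tendsto_log_atTop.comp log_top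

theorem qL_top : Tendsto qL atTop atTop := log_top.atTop_mul_atTop₀ loglog_top

/-- the limit for the differences -/
noncomputable def D2 (A : ℝ) (z : ℕ) : ℕ := ⌈A * qL z⌉₊

/-- the level of the small primes -/
noncomputable def w2 (k : ℕ) (A : ℝ) (z : ℕ) : ℕ := (k - 1) * D2 A z + 1

variable {k : ℕ} {A : ℝ}

theorem D2_lo (z : ℕ) : A * qL z ≤ D2 A z := Nat.le_ceil _

theorem D2_hi (hA : 0 < A) : ∀ᶠ z in atTop, (D2 A z : ℝ) ≤ 2 * A * qL z := by
  filter_upwards [(qL_top.const_mul_atTop hA).eventually_ge_atTop 1] with z hz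
  have := Nat.ceil_lt_add_one (show 0 ≤ A * qL z by linarith)
  unfold D2
  linarith

theorem w2_lo (hk : 2 ≤ k) (z : ℕ) : D2 A z < w2 k A z := by
  unfold w2
  have : 1 * D2 A z ≤ (k - 1) * D2 A z := Nat.mul_le_mul_right _ (by omega)
  omega

theorem w2_hi (hA : 0 < A) : ∀ᶠ z in atTop, (w2 k A z : ℝ) ≤ (2 * k * A + 1) * qL z := by
  filter_upwards [D2_hi hA, qL_top.eventually_ge_atTop 1] with z h1 h2
  have h3 : w2 k A z ≤ k * D2 A z + 1 := by
    unfold w2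
    have : (k - 1) * D2 A z ≤ k * D2 A z := Nat.mul_le_mul_right _ (by omega)
    omega
  have h4 : (w2 k A z : ℝ) ≤ k * D2 A z + 1 := by exact_mod_cast h3
  have h5 : (k : ℝ) * D2 A z ≤ k * (2 * A * qL z) := mul_le_mul_of_nonneg_left h1 (Nat.cast_nonneg _)
  nlinarith

theorem w2_adm (hk : 2 ≤ k) (hA : 0 < A) : Adm (w2 k A) := by
  have hD : Tendsto (fun z => D2 A z) atTop atTop := tendsto_nat_ceil_atTop.comp (qL_top.const_mul_atTop hA)
  refine ⟨tendsto_atTop_mono (fun z => (w2_lo hk z).le) hD, 2 * k * A + 1, ?_, ?_⟩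
  · have : 0 ≤ 2 * (k : ℝ) * A := by positivity
    linarith
  · filter_upwards [w2_hi (k := k) hA, log_top.eventually_ge_atTop 1] with z h1 h2
    refine h1.trans (mul_le_mul_of_nonneg_left ?_ (by positivity))
    unfold qL
    have h3 : Real.log (Real.log z) ≤ Real.log z := (Real.log_le_sub_one_of_pos (by linarith)).trans (by linarith)
    nlinarith

theorem log_pow_le {C : ℝ} (m : ℕ) : ∀ᶠ z : ℕ in atTop, C * Real.log z ^ m ≤ z := by
  have h2 := (isLittleO_log_rpow_rpow_atTop (m : ℝ) (show (0 : ℝ) < 1 by norm_num)).tendsto_div_nhds_zero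
  have h3 := (h2.comp (tendsto_natCast_atTop_atTop (R := ℝ))).const_mul C
  rw [mul_zero] at h3
  filter_upwards [h3.eventually (gt_mem_nhds (show (0 : ℝ) < 1 by norm_num)), eventually_ge_atTop 1] with z h4 h5
  have hz : (0 : ℝ) < z := by exact_mod_cast h5
  simp only [Function.comp, Real.rpow_natCast, Real.rpow_one] at h4
  rw [mul_div_assoc', div_lt_one hz] at h4
  exact h4.le

theorem w2_le (hk : 2 ≤ k) (hA : 0 < A) : ∀ᶠ z in atTop, w2 k A z ≤ z := by
  obtain ⟨C, _, h⟩ := (w2_adm hk hA).2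
  filter_upwards [h, log_pow_le (C := C) 2] with z h1 h2
  exact_mod_cast h1.trans h2

theorem Dz_le_D2 (hA : 0 < A) {u : ℝ} (hu : 0 < u) : ∀ᶠ z in atTop, Dz u z ≤ D2 A z := by
  obtain ⟨g, hg, hV⟩ := V_bounds
  filter_upwards [hV, log_top.eventually_ge_atTop 1, (loglog_top.const_mul_atTop hA).eventually_ge_atTop (u / g)] with z h1 h2 h3
  have hVz := Vf_pos z
  have h4 := DV_le hu z
  have h5 : (Dz u z : ℝ) ≤ D2 A z := by
    refine le_trans ?_ (D2_lo z)
    have h6 : (Dz u z : ℝ) * g ≤ u * Real.log z := by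
      calc (Dz u z : ℝ) * g ≤ Dz u z * (Vf z * Real.log z) := mul_le_mul_of_nonneg_left h1.1 (Nat.cast_nonneg _)
        _ = (Dz u z * Vf z) * Real.log z := by ring
        _ ≤ u * Real.log z := mul_le_mul_of_nonneg_right h4 (by linarith)
    have h7 : (Dz u z : ℝ) ≤ u / g * Real.log z := by
      rw [div_mul_eq_mul_div, le_div_iff₀ hg]
      exact h6
    unfold qL
    have h8 := mul_le_mul_of_nonneg_right h3 (show 0 ≤ Real.log (z : ℝ) by linarith)
    linarith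
  exact_mod_cast h5

/-- powers of the logarithm against the main term -/
theorem pow_part (hk : 1 ≤ k) {ε : ℝ} (hε : 0 < ε) : ∀ᶠ z : ℕ in atTop, 1 / Real.log z ^ k ≤ ε * Vf z ^ (k - 1) := by
  obtain ⟨g, hg, hV⟩ := V_bounds
  filter_upwards [hV, log_top.eventually_ge_atTop 1, log_top.eventually_ge_atTop (1 / (ε * g ^ (k - 1)))] with z h1 h2 h3
  have hq : 0 < Real.log (z : ℝ) := by linarith
  have h4 : g / Real.log z ≤ Vf z := by
    rw [div_le_iff₀ hq]
    exact h1.1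
  have h5 := pow_le_pow_left₀ (by positivity) h4 (k - 1)
  rw [div_pow] at h5
  have h6 := mul_le_mul_of_nonneg_left h5 hε.le
  refine le_trans ?_ h6
  have h7 : Real.log (z : ℝ) ^ k = Real.log z ^ (k - 1) * Real.log z := by rw [← pow_succ]; congr 1; omega
  rw [h7, mul_div_assoc', div_le_div_iff₀ (by positivity) (by positivity)]
  rw [div_le_iff₀ (by positivity)] at h3
  have h8 : 0 ≤ Real.log (z : ℝ) ^ (k - 1) := by positivity
  nlinarith

/-- **The exponential moment at the level `w`.** -/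
theorem exp_part (hk : 2 ≤ k) : ∃ A : ℝ, 0 < A ∧ ∀ᶠ z : ℕ in atTop,
    (∑ a ∈ range (PQ (w2 k A z)), Real.exp (-(th (Sp (w2 k A z) z) / 2 * Wf (w2 k A z) a (D2 A z)))) / PQ (w2 k A z) ≤ 1 / Real.log z ^ (k + 1) := by
  obtain ⟨c, hc, y₀, hlow⟩ := Pool.Agent.Q210.MG.low 3 (by norm_num)
  obtain ⟨g, hg, hV⟩ := V_bounds
  obtain ⟨A, hA⟩ : ∃ A : ℝ, A = 4 * ((k : ℝ) + 1) / (c * g) := ⟨_, rfl⟩
  have hA0 : 0 < A := by rw [hA]; positivity
  refine ⟨A, hA0, ?_⟩
  have hadm := w2_adm hk hA0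
  obtain ⟨C, hC, hell⟩ := ell_gen hadm
  have hlim := (logw_gen hadm 3 (show (0 : ℝ) < 1 / 3 by norm_num)).const_mul (16 * g * C * (4 * A + 2))
  rw [mul_zero] at hlim
  have hy : Tendsto (fun z : ℕ => Real.log (z : ℝ) ^ (1 / 3 : ℝ)) atTop atTop := (tendsto_rpow_atTop (by norm_num)).comp log_top
  have hyn : Tendsto (fun z : ℕ => ⌊Real.log (z : ℝ) ^ (1 / 3 : ℝ)⌋₊) atTop atTop := tendsto_nat_floor_atTop.comp hy
  filter_upwards [hlim.eventually (gt_mem_nhds (show (0 : ℝ) < 1 by norm_num)), hV, hell, log_top.eventually_ge_atTop 1, hy.eventually_ge_atTop 2,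
    hyn.eventually_ge_atTop y₀, hyn.eventually_ge_atTop 2, D2_hi hA0, w2_le hk hA0, (loglog_top.const_mul_atTop hA0).eventually_ge_atTop 1,
    loglog_top.eventually_ge_atTop 1] with z h1 h2 h3 h4 h5 h6 h7 h8 h9 h10 h11
  obtain ⟨q, hq⟩ : ∃ q, q = Real.log (z : ℝ) := ⟨_, rfl⟩
  obtain ⟨y, hyd⟩ : ∃ y, y = ⌊Real.log (z : ℝ) ^ (1 / 3 : ℝ)⌋₊ := ⟨_, rfl⟩
  obtain ⟨w, hw⟩ : ∃ w, w = w2 k A z := ⟨_, rfl⟩
  obtain ⟨h, hh⟩ : ∃ h, h = D2 A z := ⟨_, rfl⟩
  rw [← hyd] at h6 h7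
  rw [← hw] at h1 h3 h9 ⊢
  rw [← hh] at h8 ⊢
  rw [← hq] at h1 h2 h4 h5 h10 h11 hyd ⊢
  have hq0 : 0 < q := by linarith
  have hVz := Vf_pos z
  have hVw := Vf_pos w
  have hP : (0 : ℝ) < PQ w := by exact_mod_cast PQ_pos w
  have hqLz : qL z = q * Real.log q := by unfold qL; rw [← hq]
  have hhlo : A * (q * Real.log q) ≤ h := by
    have := D2_lo (A := A) z
    rw [hqLz, ← hh] at this
    exact this
  rw [hqLz] at h8
  have hqh : q ≤ h := by nlinarith
  have hhw : h < w := by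
    have := w2_lo (A := A) hk z
    rw [← hh, ← hw] at this
    exact this
  have hqw : q ≤ w := by
    have : (h : ℝ) ≤ w := by exact_mod_cast hhw.le
    linarith
  have hylo : q ^ (1 / 3 : ℝ) / 2 ≤ y := by
    have := Nat.lt_floor_add_one (q ^ (1 / 3 : ℝ))
    rw [← hyd] at this
    linarith
  have hyhi : (y : ℝ) ≤ q ^ (1 / 3 : ℝ) := by
    rw [hyd]
    exact Nat.floor_le (by positivity)
  have hy3 : (y : ℝ) ^ (3 : ℝ) ≤ q := by
    calc (y : ℝ) ^ (3 : ℝ) ≤ (q ^ (1 / 3 : ℝ)) ^ (3 : ℝ) := Real.rpow_le_rpow (Nat.cast_nonneg _) hyhi (by norm_num)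
      _ = q := by rw [← Real.rpow_mul hq0.le]; norm_num
  have hyq : (y : ℝ) ≤ q := by
    refine hyhi.trans ?_
    calc q ^ (1 / 3 : ℝ) ≤ q ^ (1 : ℝ) := Real.rpow_le_rpow_of_exponent_le h4 (by norm_num)
      _ = q := Real.rpow_one _
  have hyw : y ≤ w := by
    have : (y : ℝ) ≤ w := hyq.trans hqw
    exact_mod_cast this
  have hy0 : (0 : ℝ) < y := by
    have : 0 < y := by omega
    exact_mod_cast this
  have hθ := th_eq h9
  obtain ⟨W, hW⟩ : ∃ W, W = Real.log (w : ℝ) := ⟨_, rfl⟩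
  have hLW : Real.log q ≤ W := by
    rw [hW]
    exact Real.log_le_log hq0 hqw
  have hW1 : 1 ≤ W := h11.trans hLW
  rw [← hW] at h1 h3
  -- the condition on `κ`
  obtain ⟨κ, hκ⟩ : ∃ κ, κ = th (Sp w z) / 2 * ((h : ℝ) / y + 2) := ⟨_, rfl⟩
  have hl0 : 0 ≤ th (Sp w z) / 2 := by rw [hθ]; positivity
  have hκ0 : 0 ≤ κ := by rw [hκ]; positivity
  have hq13 : 0 < q ^ (1 / 3 : ℝ) := Real.rpow_pos_of_pos hq0 _
  have hκ2 : κ ≤ 2 * g * C * (4 * A + 2) * W ^ 2 / q ^ (1 / 3 : ℝ) := by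
    have e1 : th (Sp w z) / 2 ≤ (4 * g / q) * (C * W) / 2 := by
      rw [hθ]
      have e2 : Vf z ≤ 4 * g / q := by rw [le_div_iff₀ hq0]; exact h2.2
      have e3 : Vf z / Vf w = Vf z * (1 / Vf w) := by ring
      rw [e3]
      exact div_le_div_of_nonneg_right (mul_le_mul e2 h3 (by positivity) (by positivity)) (by norm_num)
    have e2 : (h : ℝ) / y + 2 ≤ (4 * A + 2) * (q / q ^ (1 / 3 : ℝ)) * W := by
      have e3 : (h : ℝ) / y ≤ (2 * A * (q * Real.log q)) / (q ^ (1 / 3 : ℝ) / 2) := div_le_div₀ (by positivity) h8 (by positivity) hylo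
      have e4 : (2 * A * (q * Real.log q)) / (q ^ (1 / 3 : ℝ) / 2) = 4 * A * (q / q ^ (1 / 3 : ℝ)) * Real.log q := by
        field_simp
        ring
      have e5 : 1 ≤ q / q ^ (1 / 3 : ℝ) := by
        rw [le_div_iff₀ hq13, one_mul]
        calc q ^ (1 / 3 : ℝ) ≤ q ^ (1 : ℝ) := Real.rpow_le_rpow_of_exponent_le h4 (by norm_num)
          _ = q := Real.rpow_one _
      have e6 : 4 * A * (q / q ^ (1 / 3 : ℝ)) * Real.log q ≤ 4 * A * (q / q ^ (1 / 3 : ℝ)) * W := mul_le_mul_of_nonneg_left hLW (by positivity)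
      have e7 : 2 ≤ 2 * (q / q ^ (1 / 3 : ℝ)) * W := by nlinarith
      rw [e4] at e3
      have e8 : (4 * A + 2) * (q / q ^ (1 / 3 : ℝ)) * W = 4 * A * (q / q ^ (1 / 3 : ℝ)) * W + 2 * (q / q ^ (1 / 3 : ℝ)) * W := by ring
      rw [e8]
      linarith
    rw [hκ]
    have e3 := mul_le_mul e1 e2 (by positivity) (by positivity)
    refine e3.trans (le_of_eq ?_)
    field_simp
    ring
  have hκw : 4 * κ * (1 + Real.log w) ≤ 1 := by
    rw [← hW]
    have e1 : 4 * κ * (1 + W) ≤ 8 * κ * W := by nlinarith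
    have e2 : 8 * κ * W ≤ 8 * (2 * g * C * (4 * A + 2) * W ^ 2 / q ^ (1 / 3 : ℝ)) * W :=
      mul_le_mul_of_nonneg_right (mul_le_mul_of_nonneg_left hκ2 (by norm_num)) (by linarith)
    have e3 : 8 * (2 * g * C * (4 * A + 2) * W ^ 2 / q ^ (1 / 3 : ℝ)) * W = 16 * g * C * (4 * A + 2) * (W ^ 3 / q ^ (1 / 3 : ℝ)) := by ring
    rw [e3] at e2
    linarith
  have hκ1 : κ ≤ 1 := by
    have : 0 ≤ Real.log (w : ℝ) := Real.log_natCast_nonneg _
    nlinarith
  have hmom := exp_mom (h := h) (y := y) (w := w) h7 hyw hl0 hκ0 hκ1 (le_of_eq hκ.symm) hκw hc.le (fun a => hlow y h6 a h (hy3.trans hqh))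
  rw [div_le_iff₀ hP, mul_comm]
  refine hmom.trans (mul_le_mul_of_nonneg_left ?_ hP.le)
  -- the exponent
  have e1 : ((k : ℝ) + 1) * Real.log q ≤ th (Sp w z) / 2 / 2 * (c * (Vf w * h)) := by
    have e2 : th (Sp w z) / 2 / 2 * (c * (Vf w * h)) = c / 4 * (Vf z * h) := by
      rw [hθ]
      field_simp
      ring
    rw [e2]
    have e3 : g * (A * Real.log q) ≤ Vf z * h := by
      calc g * (A * Real.log q) ≤ (Vf z * q) * (A * Real.log q) := mul_le_mul_of_nonneg_right h2.1 (by linarith)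
        _ = Vf z * (A * (q * Real.log q)) := by ring
        _ ≤ Vf z * h := mul_le_mul_of_nonneg_left hhlo hVz.le
    have e4 := mul_le_mul_of_nonneg_left e3 (show 0 ≤ c / 4 by positivity)
    refine le_trans (le_of_eq ?_) e4
    rw [hA]
    field_simp
  have e2 : 1 / q ^ (k + 1) = Real.exp (-(((k : ℝ) + 1) * Real.log q)) := by
    rw [Real.exp_neg, one_div]
    congr 1
    have : ((k : ℝ) + 1) = ((k + 1 : ℕ) : ℝ) := by push_cast; ring
    rw [this, Real.exp_nat_mul, Real.exp_log hq0]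
  rw [e2]
  exact Real.exp_le_exp.2 (by linarith)

end Pool.Agent.H38.TO
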