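import Pool.Agent.H38.TO.R6

/-!
# Runs of rough integers: the theorem for all differences
-/

set_option autoImplicit false

namespace Pool.Agent.H38.TO

open Finset Filter Pool.Agent.Q120.MG Pool.Agent.Q120.CL Pool.Agent.H38.LR Pool.Agent.H38.RC
open scoped Topology

variable {k : ℕ}

/-- the bound for the number of killed integers -/
noncomputable def Bz (k : ℕ) (z : ℕ) : ℕ := ⌈(2 * (k : ℝ) + 4) * Real.log (Real.log z)⌉₊

theorem loglog_small {η : ℝ} (hη : 0 < η) : ∀ᶠ y : ℝ in atTop, Real.log y ≤ η * y := by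
  filter_upwards [Real.isLittleO_log_id_atTop.bound hη, eventually_ge_atTop 1] with y h1 h2
  rwa [Real.norm_of_nonneg (Real.log_nonneg h2), id, Real.norm_of_nonneg (by linarith)] at h1

theorem Bz_exp : ∀ᶠ z : ℕ in atTop, Real.exp (-((Bz k z : ℝ) / 2)) ≤ 1 / Real.log z ^ (k + 2) := by
  filter_upwards [log_top.eventually_ge_atTop 1] with z hz
  have hq : 0 < Real.log (z : ℝ) := by linarith
  have h1 : (2 * (k : ℝ) + 4) * Real.log (Real.log z) ≤ Bz k z := Nat.le_ceil _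
  have e2 : 1 / Real.log (z : ℝ) ^ (k + 2) = Real.exp (-(((k : ℝ) + 2) * Real.log (Real.log z))) := by
    rw [Real.exp_neg, one_div]
    congr 1
    have : ((k : ℝ) + 2) = ((k + 2 : ℕ) : ℝ) := by push_cast; ring
    rw [this, Real.exp_nat_mul, Real.exp_log hq]
  rw [e2]
  exact Real.exp_le_exp.2 (by linarith)

theorem Bz_le : ∀ᶠ z : ℕ in atTop, ((k + 8 * Bz k z + 1 : ℕ) : ℝ) ≤ (17 * k + 41) * Real.log (Real.log z) := by
  filter_upwards [loglog_top.eventually_ge_atTop 1] with z hz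
  have h1 : (Bz k z : ℝ) ≤ (2 * (k : ℝ) + 4) * Real.log (Real.log z) + 1 := (Nat.ceil_lt_add_one (by positivity)).le
  push_cast
  have : (0 : ℝ) ≤ k := Nat.cast_nonneg _
  nlinarith

open Classical in
/-- **The runs with large differences.** -/
theorem tail_final (hk : 2 ≤ k) {γ : ℝ} (hγ : Tendsto (fun z => gam z k) atTop (𝓝 γ)) :
    ∃ C : ℝ, 0 < C ∧ ∀ u : ℝ, 0 < u → ∀ ε : ℝ, 0 < ε → ∀ᶠ z : ℕ in atTop, ∀ A X : ℕ, C * qL z ≤ Real.log X →
      (((Ioc A (A + X)).filter (fun n => ∃ d, Dz u z < d ∧ Run {m | Rough z m} n k d)).card : ℝ) ≤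
        (Real.exp k * (2 * (γ + 1) * Real.exp (-((u - 1) / 2))) + ε) * (X * Vf z ^ (k - 1)) := by
  obtain ⟨C₀, hC₀, hU⟩ := ups
  obtain ⟨A₀, hA₀, hexp⟩ := exp_part hk
  have hadm := w2_adm (k := k) hk hA₀
  obtain ⟨K, hK⟩ : ∃ K : ℝ, K = (C₀ : ℝ) * (17 * k + 41) := ⟨_, rfl⟩
  have hK0 : 0 < K := by
    rw [hK]
    have : (0 : ℝ) < C₀ := by exact_mod_cast hC₀
    positivity
  obtain ⟨C₂, hC₂⟩ : ∃ C₂ : ℝ, C₂ = 3 * (2 * k * A₀ + 1) + 2 * C₀ * K := ⟨_, rfl⟩
  have hC₂0 : 0 < C₂ := by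
    rw [hC₂]
    positivity
  refine ⟨C₂ + k + 1, by positivity, ?_⟩
  intro u hu ε hε
  have hk1 : (1 : ℝ) ≤ Real.exp k := Real.one_le_exp (Nat.cast_nonneg _)
  filter_upwards [hexp, mid_part hadm (w2_le hk hA₀) hk hu (Eventually.of_forall fun z => (w2_lo hk z).le) (Dz_le_D2 hA₀ hu) hγ (show 0 < ε / (2 * Real.exp k) by positivity),
    pow_part (k := k) (by omega) (show 0 < ε / 40 by positivity), Bz_exp (k := k), Bz_le (k := k), w2_le hk hA₀, w2_hi (k := k) hA₀, D2_hi hA₀,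
    log_top.eventually_ge_atTop 1, loglog_top.eventually_ge_atTop 1, hadm.1.eventually_ge_atTop (16 * k + 2),
    log_top.eventually_gt_atTop (K / A₀ + 1), log_top.eventually (loglog_small (show 0 < 1 / (2 * A₀) by positivity)), Dz_le_D2 hA₀ hu] with
    z h1 h2 h3 h4 h5 h6 h7 h8 h9 h10 h11 h12 h13 h14 A X hX
  obtain ⟨q, hq⟩ : ∃ q, q = Real.log (z : ℝ) := ⟨_, rfl⟩
  obtain ⟨w, hw⟩ : ∃ w, w = w2 k A₀ z := ⟨_, rfl⟩
  obtain ⟨D, hD⟩ : ∃ D, D = D2 A₀ z := ⟨_, rfl⟩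
  obtain ⟨B, hB⟩ : ∃ B, B = Bz k z := ⟨_, rfl⟩
  have hDw : D < w := by rw [hD, hw]; exact w2_lo hk z
  have hqL : qL z = q * Real.log q := by unfold qL; rw [hq]
  have hDlo : A₀ * (q * Real.log q) ≤ D := by
    have := D2_lo (A := A₀) z
    rw [hqL, ← hD] at this
    exact this
  rw [← hw, ← hD] at h1 h2
  rw [← hq] at h1 h3 h4 h5 h9 h10 h12 h13
  rw [← hB] at h4 h5
  rw [← hw] at h6 h7 h11
  rw [← hD] at h8 h14
  rw [hqL] at h7 h8 hX
  have h7' := h7
  have hq0 : 0 < q := by linarith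
  have hVz := Vf_pos z
  have hz0 : (0 : ℝ) < z := by
    by_contra hcon
    push Not at hcon
    have : Real.log (z : ℝ) ≤ 0 := Real.log_nonpos (Nat.cast_nonneg _) (by linarith)
    linarith
  -- the conditions
  have hCB : C₀ * (k + 8 * B + 1) < w := by
    have e1 : ((C₀ * (k + 8 * B + 1) : ℕ) : ℝ) < w := by
      push_cast at h5 ⊢
      have e2 : (C₀ : ℝ) * ((k : ℝ) + 8 * B + 1) ≤ K * Real.log q := by
        rw [hK]
        have := mul_le_mul_of_nonneg_left h5 (show (0 : ℝ) ≤ C₀ from Nat.cast_nonneg _)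
        linarith
      have e3 : K * Real.log q < A₀ * (q * Real.log q) := by
        have e4 : K < A₀ * q := by
          have : K / A₀ < q := by linarith
          rw [div_lt_iff₀ hA₀] at this
          linarith
        have := mul_lt_mul_of_pos_right e4 (show 0 < Real.log q by linarith)
        linarith
      have e4 : (D : ℝ) ≤ w := by exact_mod_cast hDw.le
      linarith
    exact_mod_cast e1
  have hkB : k + 8 * B + 1 ≤ C₀ * (k + 8 * B + 1) := Nat.le_mul_of_pos_left _ hC₀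
  obtain ⟨b, hb⟩ : ∃ b, b = C₀ * (k + 8 * B + 1) := ⟨_, rfl⟩
  obtain ⟨hu1, hu2⟩ := hU k B b w z D (by omega) (le_of_eq hb.symm) hCB (by omega) h11 h6 (by rw [hw, hD]; exact le_rfl) hDw A X
  have hth0 := th_pos (S := Sp w z) fun p hp => by have := (mem_Sp.1 hp).1; omega
  have hth1 := th_le_one (S := Sp w z) fun p hp => by have := (mem_Sp.1 hp).1; omega
  obtain ⟨θ, hθ⟩ : ∃ θ, θ = th (Sp w z) := ⟨_, rfl⟩
  obtain ⟨ZZ, hZZ⟩ : ∃ ZZ : ℝ, ZZ = PQ w * ((z : ℝ) ^ (2 * C₀ * b) * 2 ^ w) := ⟨_, rfl⟩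
  have hZZ0 : 0 ≤ ZZ := by rw [hZZ]; positivity
  obtain ⟨E, hE⟩ : ∃ E, E = Real.exp (-((B : ℝ) / 2)) := ⟨_, rfl⟩
  have hE0 : 0 ≤ E := by rw [hE]; positivity
  rw [← hθ, ← hZZ, ← hE] at hu1
  rw [← hθ, ← hZZ, ← hE] at hu2
  rw [← hθ] at hth0 hth1 h2 h1
  rw [← hE] at h4
  have hX0 : (0 : ℝ) ≤ X := Nat.cast_nonneg _
  have hθk0 : 0 ≤ θ ^ k := by positivity
  have hθk1 : θ ^ k ≤ 1 := pow_le_one₀ hth0.le hth1
  -- the middle range
  have m1 : ∑ d ∈ Ioc (Dz u z) D, (cnt z k d A X : ℝ) ≤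
      X * (Real.exp k * (θ ^ k * ∑ d ∈ Ioc (Dz u z) D, Fw w k d (θ / 2)) + D * (5 * E)) + D * ZZ := by
    have e1 : ∀ d ∈ Ioc (Dz u z) D, (cnt z k d A X : ℝ) ≤ X * (Real.exp k * (θ ^ k * Fw w k d (θ / 2))) + (X * (5 * E) + ZZ) := by
      intro d hd
      rw [mem_Ioc] at hd
      have e2 := hu1 d (by omega) hd.2
      have e3 : X * (θ ^ k * (Real.exp k * Fw w k d (θ / 2) + 5 * E)) = X * (Real.exp k * (θ ^ k * Fw w k d (θ / 2))) + X * (θ ^ k * (5 * E)) := by ring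
      have e4 : X * (θ ^ k * (5 * E)) ≤ X * (1 * (5 * E)) := mul_le_mul_of_nonneg_left (mul_le_mul_of_nonneg_right hθk1 (by positivity)) hX0
      linarith
    refine (sum_le_sum e1).trans ?_
    rw [sum_add_distrib, ← mul_sum, ← mul_sum, ← mul_sum, sum_const, Nat.card_Ioc, nsmul_eq_mul]
    have e2 : ((D - Dz u z : ℕ) : ℝ) ≤ D := by exact_mod_cast Nat.sub_le _ _
    have e3 := mul_le_mul_of_nonneg_right e2 (show 0 ≤ X * (5 * E) + ZZ by positivity)
    have e4 : X * (Real.exp k * (θ ^ k * ∑ d ∈ Ioc (Dz u z) D, Fw w k d (θ / 2)) + D * (5 * E)) + D * ZZ =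
        X * (Real.exp k * (θ ^ k * ∑ d ∈ Ioc (Dz u z) D, Fw w k d (θ / 2))) + D * (X * (5 * E) + ZZ) := by ring
    rw [e4]
    linarith
  have m2 : X * (Real.exp k * (θ ^ k * ∑ d ∈ Ioc (Dz u z) D, Fw w k d (θ / 2))) ≤
      X * ((Real.exp k * (2 * (γ + 1) * Real.exp (-((u - 1) / 2))) + ε / 2) * Vf z ^ (k - 1)) := by
    refine mul_le_mul_of_nonneg_left ?_ hX0
    have e1 := mul_le_mul_of_nonneg_left h2 (show 0 ≤ Real.exp k by positivity)
    refine e1.trans (le_of_eq ?_)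
    have : Real.exp (k : ℝ) ≠ 0 := (Real.exp_pos _).ne'
    field_simp
  -- the small terms
  have hqk : (0 : ℝ) < q ^ k := by positivity
  have hE2 : E ≤ 1 / q ^ k := by
    refine h4.trans (one_div_le_one_div_of_le hqk (pow_le_pow_right₀ h9 (by omega)))
  have hq2 : 1 / q ^ (k + 1) ≤ 1 / q ^ k := one_div_le_one_div_of_le hqk (pow_le_pow_right₀ h9 (by omega))
  have s1 : (D : ℝ) * (5 * E) ≤ 5 * (1 / q ^ k) := by
    have e1 : (D : ℝ) ≤ q ^ 2 := by
      have e3 : 2 * A₀ * (q * Real.log q) ≤ q ^ 2 := by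
        have e4 : 2 * A₀ * (q * Real.log q) = q * (2 * A₀ * Real.log q) := by ring
        rw [e4, pow_two]
        refine mul_le_mul_of_nonneg_left ?_ hq0.le
        have e5 := mul_le_mul_of_nonneg_left h13 (show 0 ≤ 2 * A₀ by positivity)
        have e6 : 2 * A₀ * (1 / (2 * A₀) * q) = q := by field_simp
        linarith
      linarith
    have e2 : (D : ℝ) * E ≤ q ^ 2 * (1 / q ^ (k + 2)) := mul_le_mul e1 h4 hE0 (by positivity)
    have e3 : q ^ 2 * (1 / q ^ (k + 2)) = 1 / q ^ k := by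
      rw [pow_add]
      field_simp
    linarith
  -- the absolute error
  have s2 : ((D : ℝ) + 1) * ZZ ≤ X * (1 / q ^ k) := by
    have e1 : (D : ℝ) + 1 ≤ 2 ^ w := by
      have : D + 1 ≤ 2 ^ w := (Nat.succ_le_of_lt hDw).trans (Nat.lt_two_pow_self).le
      exact_mod_cast this
    have e2 : (PQ w : ℝ) ≤ 4 ^ w := by
      have : PQ w ≤ 4 ^ w := (PQ_dvd_primorial _).trans (primorial_le_four_pow _)
      exact_mod_cast this
    have e3 : ((D : ℝ) + 1) * ZZ ≤ 16 ^ w * (z : ℝ) ^ (2 * C₀ * b) := by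
      rw [hZZ]
      calc ((D : ℝ) + 1) * (PQ w * ((z : ℝ) ^ (2 * C₀ * b) * 2 ^ w)) ≤ 2 ^ w * (4 ^ w * ((z : ℝ) ^ (2 * C₀ * b) * 2 ^ w)) :=
            mul_le_mul e1 (mul_le_mul_of_nonneg_right e2 (by positivity)) (by positivity) (by positivity)
        _ = 16 ^ w * (z : ℝ) ^ (2 * C₀ * b) := by
            have : (16 : ℝ) = 2 * 4 * 2 := by norm_num
            rw [this, mul_pow, mul_pow]
            ring
    have e4 : (16 : ℝ) ^ w * (z : ℝ) ^ (2 * C₀ * b) ≤ Real.exp (C₂ * (q * Real.log q)) := by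
      have h6 : Real.log 16 ≤ 3 := by
        have h7 : (16 : ℝ) = 2 ^ 4 := by norm_num
        rw [h7, Real.log_pow]
        have := Real.log_two_lt_d9
        push_cast
        linarith
      have h7 : (16 : ℝ) ^ w = Real.exp (w * Real.log 16) := by
        rw [Real.exp_nat_mul, Real.exp_log (by norm_num)]
      have h8 : (z : ℝ) ^ (2 * C₀ * b) = Real.exp ((2 * C₀ * b : ℕ) * q) := by
        rw [Real.exp_nat_mul, hq, Real.exp_log hz0]
      rw [h7, h8, ← Real.exp_add, Real.exp_le_exp]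
      have t1 : (w : ℝ) * Real.log 16 ≤ ((2 * k * A₀ + 1) * (q * Real.log q)) * 3 :=
        mul_le_mul h7' h6 (Real.log_nonneg (by norm_num)) (by positivity)
      have t2 : (b : ℝ) ≤ K * Real.log q := by
        rw [hb]
        push_cast at h5 ⊢
        rw [hK]
        have := mul_le_mul_of_nonneg_left h5 (show (0 : ℝ) ≤ C₀ from Nat.cast_nonneg _)
        linarith
      have t3 : ((2 * C₀ * b : ℕ) : ℝ) * q ≤ 2 * C₀ * (K * Real.log q) * q := by
        push_cast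
        refine mul_le_mul_of_nonneg_right ?_ hq0.le
        exact mul_le_mul_of_nonneg_left t2 (by positivity)
      rw [hC₂]
      linarith
    have e5 : Real.exp (C₂ * (q * Real.log q)) * q ^ k ≤ X := by
      have t0 : (0 : ℝ) < X := by
        by_contra hcon
        push Not at hcon
        have t1 : (X : ℝ) = 0 := le_antisymm hcon hX0
        rw [t1, Real.log_zero] at hX
        have : 0 < (C₂ + k + 1) * (q * Real.log q) := by positivity
        linarith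
      have t1 : q ^ k = Real.exp (k * Real.log q) := by rw [Real.exp_nat_mul, Real.exp_log hq0]
      have t2 : (X : ℝ) = Real.exp (Real.log X) := (Real.exp_log t0).symm
      rw [t1, ← Real.exp_add, t2, Real.exp_le_exp]
      refine le_trans ?_ hX
      have t3 : Real.log q ≤ q * Real.log q := by nlinarith
      have t4 : (k : ℝ) * Real.log q ≤ k * (q * Real.log q) := mul_le_mul_of_nonneg_left t3 (Nat.cast_nonneg _)
      have t5 : 0 ≤ q * Real.log q := by nlinarith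
      nlinarith
    rw [mul_one_div, le_div_iff₀ hqk]
    calc ((D : ℝ) + 1) * ZZ * q ^ k ≤ (16 ^ w * (z : ℝ) ^ (2 * C₀ * b)) * q ^ k := mul_le_mul_of_nonneg_right e3 hqk.le
      _ ≤ Real.exp (C₂ * (q * Real.log q)) * q ^ k := mul_le_mul_of_nonneg_right e4 hqk.le
      _ ≤ X := e5
  have hT := tail_le hk z (Dz u z) D A X
  have hT' : (((Ioc A (A + X)).filter (fun n => ∃ d, Dz u z < d ∧ Run {m | Rough z m} n k d)).card : ℝ) ≤
      ∑ d ∈ Ioc (Dz u z) D, (cnt z k d A X : ℝ) + Fc z D A X := by exact_mod_cast hT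
  refine hT'.trans ?_
  have f1 : (Fc z D A X : ℝ) ≤ X * (6 * (1 / q ^ k)) + ZZ := by
    refine hu2.trans (add_le_add_left (mul_le_mul_of_nonneg_left ?_ hX0) _)
    linarith
  have f2 : (X : ℝ) * (12 * (1 / q ^ k)) ≤ X * (12 * (ε / 40 * Vf z ^ (k - 1))) :=
    mul_le_mul_of_nonneg_left (mul_le_mul_of_nonneg_left h3 (by norm_num)) hX0
  have f3 : X * ((D : ℝ) * (5 * E)) ≤ X * (5 * (1 / q ^ k)) := mul_le_mul_of_nonneg_left s1 hX0
  have f4 : 0 ≤ X * (ε * Vf z ^ (k - 1)) := by positivity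
  rw [mul_add] at m1
  nlinarith

/-- the condition for the small differences -/
theorem pow_le_of {C : ℝ} (hC : 0 < C) (c : ℕ) : ∀ᶠ z : ℕ in atTop, ∀ X : ℕ, C * qL z ≤ Real.log X → z ^ c ≤ X := by
  filter_upwards [log_top.eventually_ge_atTop 1, loglog_top.eventually_ge_atTop (c / C), loglog_top.eventually_ge_atTop 1] with z h1 h2 h3 X hX
  have hz0 : (0 : ℝ) < z := by
    by_contra hcon
    push Not at hcon
    have : Real.log (z : ℝ) ≤ 0 := Real.log_nonpos (Nat.cast_nonneg _) (by linarith)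
    linarith
  have hq : 0 < Real.log (z : ℝ) := by linarith
  rw [div_le_iff₀ hC] at h2
  have h4 : (c : ℝ) * Real.log z ≤ Real.log X := by
    refine le_trans ?_ hX
    unfold qL
    nlinarith
  have hX0 : (0 : ℝ) < X := by
    by_contra hcon
    push Not at hcon
    have t1 : (X : ℝ) = 0 := le_antisymm hcon (Nat.cast_nonneg _)
    rw [t1, Real.log_zero] at hX
    have : 0 < C * qL z := by
      unfold qL
      positivity
    linarith
  have h5 : ((z ^ c : ℕ) : ℝ) ≤ X := by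
    push_cast
    rw [← Real.exp_log hX0, ← Real.exp_log (show (0 : ℝ) < (z : ℝ) ^ c by positivity), Real.exp_le_exp, Real.log_pow]
    exact h4
  exact_mod_cast h5

open Classical in
/-- **The number of ALL runs of consecutive rough integers in arithmetic progression.** -/
theorem all_runs (hk : 2 ≤ k) {γ : ℝ} (hγ : Tendsto (fun z => gam z k) atTop (𝓝 γ)) :
    ∃ C : ℝ, 0 < C ∧ ∀ ε : ℝ, 0 < ε → ∀ᶠ z : ℕ in atTop, ∀ A X : ℕ, C * qL z ≤ Real.log X →
      |(((Ioc A (A + X)).filter (fun n => ∃ d : ℕ, 1 ≤ d ∧ Run {m | Rough z m} n k d)).card : ℝ) -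
        γ / ((k : ℝ) - 1) * (X * Vf z ^ (k - 1))| ≤ ε * (X * Vf z ^ (k - 1)) := by
  obtain ⟨C, hC, hT⟩ := tail_final hk hγ
  have hγ0 : 0 ≤ γ := ge_of_tendsto' hγ fun z => (gam_pos z k).le
  have hk' : (2 : ℝ) ≤ k := by exact_mod_cast hk
  have hk1 : (0 : ℝ) < (k : ℝ) - 1 := by linarith
  refine ⟨C, hC, fun ε hε => ?_⟩
  -- the choice of `u`
  have hlim1 : Tendsto (fun u : ℝ => Real.exp k * (2 * (γ + 1) * Real.exp (-((u - 1) / 2)))) atTop (𝓝 0) := by
    have h1 : Tendsto (fun u : ℝ => (u - 1) / 2) atTop atTop := (tendsto_atTop_add_const_right atTop (-1) tendsto_id).atTop_div_const (by norm_num)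
    have h2 := ((Real.tendsto_exp_neg_atTop_nhds_zero.comp h1).const_mul (2 * (γ + 1))).const_mul (Real.exp k)
    rw [mul_zero, mul_zero] at h2
    exact h2
  have hlim2 : Tendsto (fun u : ℝ => γ / ((k : ℝ) - 1) * Real.exp (-(((k : ℝ) - 1) * u))) atTop (𝓝 0) := by
    have h1 : Tendsto (fun u : ℝ => ((k : ℝ) - 1) * u) atTop atTop := tendsto_id.const_mul_atTop hk1
    have h2 := (Real.tendsto_exp_neg_atTop_nhds_zero.comp h1).const_mul (γ / ((k : ℝ) - 1))
    rw [mul_zero] at h2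
    exact h2
  obtain ⟨u, ⟨hu1, hu2⟩, hu⟩ := (((hlim1.eventually (gt_mem_nhds (show 0 < ε / 4 by positivity))).and
    (hlim2.eventually (gt_mem_nhds (show 0 < ε / 4 by positivity)))).and (eventually_gt_atTop 0)).exists
  obtain ⟨c, hc⟩ := part1 hk hu hγ (show 0 < ε / 4 by positivity)
  filter_upwards [hT u hu (ε / 4) (by positivity), hc, pow_le_of hC c] with z h1 h2 h3 A X hX
  have hV := Vf_pos z
  have g1 := h1 A X hX
  have g2 := abs_le.1 (h2 A X (h3 X hX))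
  have hXV : 0 ≤ (X : ℝ) * Vf z ^ (k - 1) := by positivity
  obtain ⟨S, hS⟩ : ∃ S : ℝ, S = (((Ioc A (A + X)).filter (fun n => ∃ d : ℕ, 1 ≤ d ∧ (d : ℝ) * Vf z ≤ u ∧ Run {m | Rough z m} n k d)).card : ℝ) := ⟨_, rfl⟩
  obtain ⟨T, hTd⟩ : ∃ T : ℝ, T = (((Ioc A (A + X)).filter (fun n => ∃ d, Dz u z < d ∧ Run {m | Rough z m} n k d)).card : ℝ) := ⟨_, rfl⟩
  rw [← hS] at g2
  rw [← hTd] at g1
  have lo : S ≤ (((Ioc A (A + X)).filter (fun n => ∃ d : ℕ, 1 ≤ d ∧ Run {m | Rough z m} n k d)).card : ℝ) := by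
    rw [hS]
    refine Nat.cast_le.2 (card_le_card fun n hn => ?_)
    rw [mem_filter] at hn ⊢
    obtain ⟨h4, d, h5, _, h6⟩ := hn
    exact ⟨h4, d, h5, h6⟩
  have hi : (((Ioc A (A + X)).filter (fun n => ∃ d : ℕ, 1 ≤ d ∧ Run {m | Rough z m} n k d)).card : ℝ) ≤ S + T := by
    rw [hS, hTd, ← Nat.cast_add]
    refine Nat.cast_le.2 ((card_le_card fun n hn => ?_).trans (card_union_le _ _))
    rw [mem_filter] at hn
    rw [mem_union, mem_filter, mem_filter]
    obtain ⟨h4, d, h5, h6⟩ := hn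
    by_cases h7 : d ≤ Dz u z
    · refine Or.inl ⟨h4, d, h5, ?_, h6⟩
      unfold Dz at h7
      rw [Nat.le_floor_iff (by positivity), le_div_iff₀ hV] at h7
      exact h7
    · exact Or.inr ⟨h4, d, by omega, h6⟩
  have e1 : γ / ((k : ℝ) - 1) * (1 - Real.exp (-(((k : ℝ) - 1) * u))) * (X * Vf z ^ (k - 1)) =
      γ / ((k : ℝ) - 1) * (X * Vf z ^ (k - 1)) - γ / ((k : ℝ) - 1) * Real.exp (-(((k : ℝ) - 1) * u)) * (X * Vf z ^ (k - 1)) := by ring
  rw [e1] at g2
  have e2 := mul_le_mul_of_nonneg_right hu2.le hXV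
  have e3 := mul_le_mul_of_nonneg_right hu1.le hXV
  have e4 : 0 ≤ γ / ((k : ℝ) - 1) * Real.exp (-(((k : ℝ) - 1) * u)) * (X * Vf z ^ (k - 1)) := by positivity
  rw [abs_le]
  constructor
  · nlinarith [g2.1]
  · nlinarith [g2.2]

end Pool.Agent.H38.TO
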